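import Mathlib
import Pool.Agent.J4H76.TW.Stm
import Pool.Agent.H442R2.KF.Diag
import Pool.Agent.H38R2.CG.CC5
import Pool.Agent.Helper112.MultLS

/-!
# Bilinear sums with Jacobi symbols
-/

set_option autoImplicit false

namespace Pool.Agent.J4H17.TW

open Finset Pool.Agent.J4H76.TW Pool.Agent.H38R2.CG.CC5h

lemma dvd_cond' (f : ℕ) [NeZero f] (hf : Squarefree f)
    (hc : Odd f) : f ∣ (jchar f).conductor := by
  apply dvd_of_primes f _ hf
  intro p hp hpf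
  by_contra hpc
  obtain ⟨r, hr⟩ := hpf
  have hFact := Fact.mk hp
  have hf0 : f ≠ 0 := NeZero.ne f
  have hr0 : r ≠ 0 := by
    rintro rfl; exact hf0 (by rw [hr, mul_zero])
  have hpr : ¬ p ∣ r := by
    intro h
    have h2 : p * p ∣ f := by rw [hr]; exact Nat.mul_dvd_mul_left p h
    have := hf p h2
    exact hp.one_lt.ne' (Nat.isUnit_iff.mp this)
  have hpf' : p ∣ f := ⟨r, hr⟩
  have hp2 : p ≠ 2 := by
    rintro rfl
    rw [← Nat.not_even_iff_odd, even_iff_two_dvd] at hc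
    exact hc hpf'
  have hco : Nat.Coprime p r := (Nat.Prime.coprime_iff_not_dvd hp).mpr hpr
  -- a nonresidue
  obtain ⟨c, hc'⟩ : ∃ c : ZMod p, quadraticChar (ZMod p) c = -1 := by
    apply quadraticChar_exists_neg_one
    rw [ZMod.ringChar_zmod_n]
    exact hp2
  obtain ⟨a, ha1, ha2⟩ := Nat.chineseRemainder hco c.val 1
  have hac : (a : ZMod p) = c := by
    have h3 := (ZMod.natCast_eq_natCast_iff a c.val p).mpr ha1
    rw [h3, ZMod.natCast_zmod_val]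
  have hc0 : c ≠ 0 := by
    rintro rfl
    rw [quadraticChar_zero] at hc'
    norm_num at hc'
  have e1 : jacobiSym (a : ℤ) p = -1 := by
    rw [← jacobiSym.legendreSym.to_jacobiSym, legendreSym]
    push_cast
    rw [hac]
    exact hc'
  have hNr : NeZero r := ⟨hr0⟩
  have e2 : jacobiSym (a : ℤ) r = 1 := by
    rw [jacobiSym.mod_left]
    have h3 : (a : ℤ) % (r : ℤ) = (1 : ℤ) % (r : ℤ) := by
      exact_mod_cast ha2
    rw [h3, ← jacobiSym.mod_left, jacobiSym.one_left]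
  have har : a.Coprime r := by
    have := ha2.gcd_eq
    rw [Nat.gcd_one_left] at this
    exact this
  have hap : a.Coprime p := by
    rw [Nat.coprime_comm, Nat.Prime.coprime_iff_not_dvd hp]
    intro h
    apply hc0
    rw [← hac, ZMod.natCast_eq_zero_iff]
    exact h
  have haf : a.Coprime f := by
    rw [hr]
    exact Nat.Coprime.mul_right hap har
  have h1 := jchar_apply f a
  have h3 : jacobiSym (a : ℤ) f = -1 := by
    rw [hr, jacobiSym.mul_right, e1, e2, mul_one]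
  rw [h3] at h1
  -- the conductor divides r
  have h4 : (jchar f).conductor ∣ r := by
    have h5 := (jchar f).conductor_dvd_level
    have h6 : f = r * p := by rw [hr]; ring
    refine Nat.Coprime.dvd_of_dvd_mul_right ?_ (h5.trans (dvd_of_eq h6))
    rw [Nat.coprime_comm, Nat.Prime.coprime_iff_not_dvd hp]
    exact hpc
  have h5 : IsCoprime (a : ℤ) ((f : ℕ) : ℤ) := Nat.isCoprime_iff_coprime.mpr haf
  have h6 := (jchar f).primitiveCharacter_apply_of_isCoprime h5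
  rw [Int.cast_natCast, Int.cast_natCast] at h6
  have h7 : (a : ZMod (jchar f).conductor) = 1 := by
    have := (ZMod.natCast_eq_natCast_iff a 1 (jchar f).conductor).mpr (ha2.of_dvd h4)
    rw [this, Nat.cast_one]
  rw [h7, map_one] at h6
  rw [← h6] at h1
  norm_num at h1

lemma jchar_prim (f : ℕ) [NeZero f] (hf : Squarefree f) (hc : Odd f) : (jchar f).IsPrimitive := by
  rw [DirichletCharacter.isPrimitive_def]
  exact Nat.dvd_antisymm (jchar f).conductor_dvd_level (dvd_cond' f hf hc)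

/-- the large sieve for Jacobi symbols -/
theorem ls (M N : ℕ) (β : ℕ → ℝ) :
    ∑ m ∈ (Icc 1 M).filter (fun m => Odd m ∧ Squarefree m),
      (∑ n ∈ Icc 1 N, β n * (jacobiSym n m : ℝ)) ^ 2
      ≤ 6 * (N + (M : ℝ) ^ 2) * ∑ n ∈ Icc 1 N, β n ^ 2 := by
  classical
  have h := Pool.Agent.Helper112.mult_large_sieve N M (fun n => (β n : ℂ))
  have e1 : ∑ n ∈ Icc 1 N, ‖(β n : ℂ)‖ ^ 2 = ∑ n ∈ Icc 1 N, β n ^ 2 := by
    refine Finset.sum_congr rfl fun n _ => ?_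
    rw [Complex.norm_real, Real.norm_eq_abs, sq_abs]
  rw [e1] at h
  refine le_trans ?_ h
  rw [Finset.sum_filter]
  refine Finset.sum_le_sum fun m hm => ?_
  rw [Finset.mem_Icc] at hm
  have hne : NeZero m := ⟨by omega⟩
  have hφ : 0 < Nat.totient m := Nat.totient_pos.2 (by omega)
  have h1 : (1 : ℝ) ≤ (m : ℝ) / (Nat.totient m : ℝ) := by
    rw [one_le_div (by exact_mod_cast hφ)]
    exact_mod_cast Nat.totient_le m
  have hnn : 0 ≤ ∑ χ ∈ (univ : Finset (DirichletCharacter ℂ m)).filter (fun χ => χ.IsPrimitive),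
        ‖∑ n ∈ Icc 1 N, (β n : ℂ) * χ (n : ZMod m)‖ ^ 2 :=
    Finset.sum_nonneg fun _ _ => by positivity
  split_ifs with hcond
  · calc (∑ n ∈ Icc 1 N, β n * (jacobiSym n m : ℝ)) ^ 2
        = ‖∑ n ∈ Icc 1 N, (β n : ℂ) * jchar m (n : ZMod m)‖ ^ 2 := by
          have : ∑ n ∈ Icc 1 N, (β n : ℂ) * jchar m (n : ZMod m) =
              ((∑ n ∈ Icc 1 N, β n * (jacobiSym n m : ℝ) : ℝ) : ℂ) := by
            push_cast
            refine Finset.sum_congr rfl fun n _ => ?_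
            rw [jchar_apply]
          rw [this, Complex.norm_real, Real.norm_eq_abs, sq_abs]
      _ ≤ ∑ χ ∈ (univ : Finset (DirichletCharacter ℂ m)).filter (fun χ => χ.IsPrimitive),
        ‖∑ n ∈ Icc 1 N, (β n : ℂ) * χ (n : ZMod m)‖ ^ 2 := by
          refine Finset.single_le_sum (f := fun χ : DirichletCharacter ℂ m =>
            ‖∑ n ∈ Icc 1 N, (β n : ℂ) * χ (n : ZMod m)‖ ^ 2) (fun _ _ => by positivity) ?_
          rw [Finset.mem_filter]
          exact ⟨Finset.mem_univ _, jchar_prim m hcond.2 hcond.1⟩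
      _ ≤ _ := le_mul_of_one_le_left hnn h1
  · exact mul_nonneg (by linarith) hnn

/-- the coefficients of the square -/
noncomputable def conv (N : ℕ) (b : ℕ → ℝ) (k : ℕ) : ℝ :=
  ∑ x ∈ (Icc 1 N ×ˢ Icc 1 N).filter (fun x => x.1 * x.2 = k), b x.1 * b x.2

theorem conv_le (N : ℕ) (b : ℕ → ℝ) (hb : ∀ n, |b n| ≤ 1) (k : ℕ) (hk : 1 ≤ k) :
    |conv N b k| ≤ Pool.Agent.H442R2.KF.tau k := by
  unfold conv Pool.Agent.H442R2.KF.tau
  refine (Finset.abs_sum_le_sum_abs _ _).trans ?_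
  calc ∑ x ∈ (Icc 1 N ×ˢ Icc 1 N).filter (fun x => x.1 * x.2 = k), |b x.1 * b x.2|
      ≤ ∑ x ∈ (Icc 1 N ×ˢ Icc 1 N).filter (fun x => x.1 * x.2 = k), (1 : ℝ) := by
        refine Finset.sum_le_sum fun x _ => ?_
        rw [abs_mul]
        exact mul_le_one₀ (hb _) (abs_nonneg _) (hb _)
    _ = (((Icc 1 N ×ˢ Icc 1 N).filter (fun x => x.1 * x.2 = k)).card : ℝ) := by simp
    _ ≤ (k.divisors.card : ℝ) := by
        have : ((Icc 1 N ×ˢ Icc 1 N).filter (fun x => x.1 * x.2 = k)).card ≤ k.divisors.card := by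
          refine Finset.card_le_card_of_injOn (fun x => x.1) ?_ ?_
          · intro x hx
            have := (Finset.mem_filter.1 (Finset.mem_coe.1 hx)).2
            exact Finset.mem_coe.2 (Nat.mem_divisors.2 ⟨⟨x.2, this.symm⟩, by omega⟩)
          · intro x hx y hy hxy
            have h1 := (Finset.mem_filter.1 (Finset.mem_coe.1 hx)).2
            have h2 := (Finset.mem_filter.1 (Finset.mem_coe.1 hy)).2
            simp only at hxy
            have hx0 : 0 < x.1 := Nat.pos_of_ne_zero (by rintro h; rw [h, zero_mul] at h1; omega)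
            refine Prod.ext hxy ?_
            refine Nat.eq_of_mul_eq_mul_left hx0 ?_
            rw [h1, hxy, h2]
        exact_mod_cast this

theorem sq_eq (N : ℕ) (b : ℕ → ℝ) (m : ℕ) :
    (∑ n ∈ Icc 1 N, b n * (jacobiSym n m : ℝ)) ^ 2 =
      ∑ k ∈ Icc 1 (N ^ 2), conv N b k * (jacobiSym k m : ℝ) := by
  classical
  have e1 : (∑ n ∈ Icc 1 N, b n * (jacobiSym n m : ℝ)) ^ 2 =
      ∑ x ∈ Icc 1 N ×ˢ Icc 1 N, b x.1 * b x.2 * (jacobiSym ((x.1 * x.2 : ℕ) : ℤ) m : ℝ) := by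
    rw [pow_two, Finset.sum_mul_sum, Finset.sum_product]
    refine Finset.sum_congr rfl fun i _ => Finset.sum_congr rfl fun j _ => ?_
    push_cast
    rw [jacobiSym.mul_left]
    push_cast
    ring
  rw [e1, ← Finset.sum_fiberwise_of_maps_to (t := Icc 1 (N ^ 2)) (g := fun x : ℕ × ℕ => x.1 * x.2)]
  · refine Finset.sum_congr rfl fun k _ => ?_
    unfold conv
    rw [Finset.sum_mul]
    refine Finset.sum_congr rfl fun x hx => ?_
    rw [(Finset.mem_filter.1 hx).2]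
  · intro x hx
    rw [Finset.mem_product, Finset.mem_Icc, Finset.mem_Icc] at hx
    rw [Finset.mem_Icc]
    refine ⟨Nat.mul_pos hx.1.1 hx.2.1, ?_⟩
    rw [pow_two]
    exact Nat.mul_le_mul hx.1.2 hx.2.2

theorem pow4 (M N : ℕ) (a b : ℕ → ℝ) (ha : ∀ m, |a m| ≤ 1) (hb : ∀ n, |b n| ≤ 1)
    (hsa : ∀ m, a m ≠ 0 → Odd m ∧ Squarefree m) :
    (∑ m ∈ Icc 1 M, ∑ n ∈ Icc 1 N, a m * b n * (jacobiSym n m : ℝ)) ^ 4 ≤
      6 * M ^ 3 * (N ^ 2 + M ^ 2) * (N ^ 2 * (1 + Real.log (N ^ 2 : ℕ)) ^ 3) := by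
  classical
  set G := (Icc 1 M).filter (fun m => Odd m ∧ Squarefree m) with hG
  set T : ℕ → ℝ := fun m => ∑ n ∈ Icc 1 N, b n * (jacobiSym n m : ℝ) with hT
  have e1 : ∑ m ∈ Icc 1 M, ∑ n ∈ Icc 1 N, a m * b n * (jacobiSym n m : ℝ) =
      ∑ m ∈ G, a m * T m := by
    rw [hG, Finset.sum_filter]
    refine Finset.sum_congr rfl fun m _ => ?_
    split_ifs with h
    · rw [hT, Finset.mul_sum]
      exact Finset.sum_congr rfl fun n _ => by ring
    · have : a m = 0 := by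
        by_contra h'
        exact h (hsa m h')
      simp [this]
  rw [e1]
  have hGc : (G.card : ℝ) ≤ M := by
    have : G.card ≤ M := (Finset.card_filter_le _ _).trans (by simp)
    exact_mod_cast this
  have h1 : (∑ m ∈ G, a m * T m) ^ 2 ≤ M * ∑ m ∈ G, T m ^ 2 := by
    refine (sq_sum_le_card_mul_sum_sq).trans ?_
    refine mul_le_mul hGc ?_ (Finset.sum_nonneg fun _ _ => by positivity) (Nat.cast_nonneg M)
    refine Finset.sum_le_sum fun m _ => ?_
    rw [mul_pow]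
    have : a m ^ 2 ≤ 1 := by rw [← sq_abs]; exact pow_le_one₀ (abs_nonneg _) (ha m)
    nlinarith [sq_nonneg (T m)]
  have h2 : (∑ m ∈ G, T m ^ 2) ^ 2 ≤ M * ∑ m ∈ G, (T m ^ 2) ^ 2 := by
    refine (sq_sum_le_card_mul_sum_sq).trans ?_
    exact mul_le_mul_of_nonneg_right hGc (Finset.sum_nonneg fun _ _ => by positivity)
  have h3 : ∑ m ∈ G, (T m ^ 2) ^ 2 ≤
      6 * ((N ^ 2 : ℕ) + (M : ℝ) ^ 2) * ∑ k ∈ Icc 1 (N ^ 2), conv N b k ^ 2 := by
    have := ls M (N ^ 2) (conv N b)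
    refine le_trans (le_of_eq ?_) this
    refine Finset.sum_congr rfl fun m _ => ?_
    rw [hT]
    simp only
    rw [sq_eq]
  have h4 : ∑ k ∈ Icc 1 (N ^ 2), conv N b k ^ 2 ≤ ((N ^ 2 : ℕ) : ℝ) * (1 + Real.log (N ^ 2 : ℕ)) ^ 3 := by
    refine le_trans ?_ (Pool.Agent.H442R2.KF.TaskP.sum_tau_sq (N ^ 2))
    refine Finset.sum_le_sum fun k hk => ?_
    rw [Finset.mem_Icc] at hk
    rw [← sq_abs]
    exact pow_le_pow_left₀ (abs_nonneg _) (conv_le N b hb k hk.1) 2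
  have hT0 : 0 ≤ ∑ m ∈ G, T m ^ 2 := Finset.sum_nonneg fun _ _ => by positivity
  calc (∑ m ∈ G, a m * T m) ^ 4 = ((∑ m ∈ G, a m * T m) ^ 2) ^ 2 := by ring
    _ ≤ (M * ∑ m ∈ G, T m ^ 2) ^ 2 := pow_le_pow_left₀ (sq_nonneg _) h1 2
    _ = M ^ 2 * (∑ m ∈ G, T m ^ 2) ^ 2 := by ring
    _ ≤ M ^ 2 * (M * (6 * ((N ^ 2 : ℕ) + (M : ℝ) ^ 2) *
          (((N ^ 2 : ℕ) : ℝ) * (1 + Real.log (N ^ 2 : ℕ)) ^ 3))) := by
        refine mul_le_mul_of_nonneg_left (h2.trans ?_) (by positivity)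
        refine mul_le_mul_of_nonneg_left (h3.trans ?_) (Nat.cast_nonneg M)
        exact mul_le_mul_of_nonneg_left h4 (by positivity)
    _ = _ := by push_cast; ring

theorem bl1 (M N : ℕ) (a b : ℕ → ℝ) (hM : 1 ≤ M) (hMN : M ≤ N) (ha : ∀ m, |a m| ≤ 1)
    (hb : ∀ n, |b n| ≤ 1) (hsa : ∀ m, a m ≠ 0 → Odd m ∧ Squarefree m) :
    |∑ m ∈ Icc 1 M, ∑ n ∈ Icc 1 N, a m * b n * (jacobiSym n m : ℝ)| ≤
      4 * M * N * (M : ℝ) ^ (-(1 / 4) : ℝ) * (1 + Real.log (M * N)) := by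
  have hM0 : (0 : ℝ) < M := by exact_mod_cast hM
  have hN1 : 1 ≤ N := hM.trans hMN
  have hN0 : (0 : ℝ) < N := by exact_mod_cast hN1
  have hMNr : (M : ℝ) ≤ N := by exact_mod_cast hMN
  have h := pow4 M N a b ha hb hsa
  set S := ∑ m ∈ Icc 1 M, ∑ n ∈ Icc 1 N, a m * b n * (jacobiSym n m : ℝ) with hS
  have hlM : 0 ≤ Real.log M := Real.log_natCast_nonneg M
  have hlN : 0 ≤ Real.log N := Real.log_natCast_nonneg N
  set L := 1 + Real.log (M * N) with hL
  have hL' : L = 1 + Real.log M + Real.log N := by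
    rw [hL, Real.log_mul hM0.ne' hN0.ne']; ring
  have hL1 : 1 ≤ L := by rw [hL']; linarith
  have e1 : 1 + Real.log ((N ^ 2 : ℕ) : ℝ) ≤ 2 * L := by
    push_cast
    rw [Real.log_pow, hL']
    push_cast
    linarith
  have e0 : 0 ≤ 1 + Real.log ((N ^ 2 : ℕ) : ℝ) := by
    have := Real.log_natCast_nonneg (N ^ 2)
    linarith
  set R := 4 * M * N * (M : ℝ) ^ (-(1 / 4) : ℝ) * L with hR
  have hR0 : 0 ≤ R := by positivity
  have hR4 : R ^ 4 = 256 * M ^ 3 * N ^ 4 * L ^ 4 := by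
    have hp : ((M : ℝ) ^ (-(1 / 4) : ℝ)) ^ 4 = (M : ℝ)⁻¹ := by
      rw [← Real.rpow_natCast, ← Real.rpow_mul hM0.le]
      norm_num
      exact Real.rpow_neg_one _
    rw [hR]
    calc (4 * M * N * (M : ℝ) ^ (-(1 / 4) : ℝ) * L) ^ 4
        = 256 * M ^ 4 * N ^ 4 * (((M : ℝ) ^ (-(1 / 4) : ℝ)) ^ 4) * L ^ 4 := by ring
      _ = 256 * M ^ 3 * N ^ 4 * L ^ 4 := by
        rw [hp]; field_simp
  have hb1 : S ^ 4 ≤ R ^ 4 := by
    rw [hR4]
    refine h.trans ?_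
    have h1 : (1 + Real.log ((N ^ 2 : ℕ) : ℝ)) ^ 3 ≤ 8 * L ^ 4 := by
      calc (1 + Real.log ((N ^ 2 : ℕ) : ℝ)) ^ 3 ≤ (2 * L) ^ 3 := pow_le_pow_left₀ e0 e1 3
        _ = 8 * L ^ 3 := by ring
        _ ≤ 8 * L ^ 4 := by
          have : L ^ 3 ≤ L ^ 4 := pow_le_pow_right₀ hL1 (by norm_num)
          linarith
    have h2 : (N : ℝ) ^ 2 + M ^ 2 ≤ 2 * N ^ 2 := by
      have : (M : ℝ) ^ 2 ≤ N ^ 2 := pow_le_pow_left₀ hM0.le hMNr 2
      linarith
    calc 6 * (M : ℝ) ^ 3 * (N ^ 2 + M ^ 2) * (N ^ 2 * (1 + Real.log ((N ^ 2 : ℕ) : ℝ)) ^ 3)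
        ≤ 6 * (M : ℝ) ^ 3 * (2 * N ^ 2) * (N ^ 2 * (8 * L ^ 4)) := by
          refine mul_le_mul ?_ ?_ (by positivity) (by positivity)
          · exact mul_le_mul_of_nonneg_left h2 (by positivity)
          · exact mul_le_mul_of_nonneg_left h1 (by positivity)
      _ = 96 * M ^ 3 * N ^ 4 * L ^ 4 := by ring
      _ ≤ 256 * M ^ 3 * N ^ 4 * L ^ 4 := by
          have : 0 ≤ (M : ℝ) ^ 3 * N ^ 4 * L ^ 4 := by positivity
          nlinarith
  have hb2 : |S| ^ 4 ≤ R ^ 4 := by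
    rw [Even.pow_abs (by decide)]
    exact hb1
  exact (pow_le_pow_iff_left₀ (abs_nonneg _) hR0 (by norm_num)).1 hb2

/-- the sign of an odd number modulo four -/
def e4 (n : ℕ) : ℝ := if n % 4 = 1 then 1 else -1

theorem abs_e4 (n : ℕ) : |e4 n| = 1 := by
  unfold e4
  split_ifs <;> simp

theorem recip (m n : ℕ) (hm : Odd m) (hn : Odd n) :
    (jacobiSym n m : ℝ) = 1 / 2 * ((jacobiSym m n : ℝ) + e4 m * (jacobiSym m n : ℝ) +
      e4 n * (jacobiSym m n : ℝ) - e4 m * e4 n * (jacobiSym m n : ℝ)) := by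
  have h4 : ∀ k : ℕ, Odd k → k % 4 = 1 ∨ k % 4 = 3 := by
    intro k hk
    rw [Nat.odd_iff] at hk
    omega
  rcases h4 m hm with h1 | h1
  · have := jacobiSym.quadratic_reciprocity_one_mod_four' hn h1
    rw [this]
    unfold e4
    rw [if_pos h1]
    ring
  · rcases h4 n hn with h2 | h2
    · have := jacobiSym.quadratic_reciprocity_one_mod_four h2 hm
      rw [this]
      unfold e4
      rw [if_pos h2]
      ring
    · have := jacobiSym.quadratic_reciprocity_three_mod_four h2 h1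
      rw [this]
      unfold e4
      rw [if_neg (by omega), if_neg (by omega)]
      push_cast
      ring

theorem bl2 (M N : ℕ) (a b : ℕ → ℝ) (hN : 1 ≤ N) (hMN : N ≤ M) (ha : ∀ m, |a m| ≤ 1)
    (hb : ∀ n, |b n| ≤ 1) (hsa : ∀ m, a m ≠ 0 → Odd m ∧ Squarefree m)
    (hsb : ∀ n, b n ≠ 0 → Odd n ∧ Squarefree n) :
    |∑ m ∈ Icc 1 M, ∑ n ∈ Icc 1 N, a m * b n * (jacobiSym n m : ℝ)| ≤
      8 * M * N * (N : ℝ) ^ (-(1 / 4) : ℝ) * (1 + Real.log (M * N)) := by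
  set U : (ℕ → ℝ) → (ℕ → ℝ) → ℝ := fun b a =>
    ∑ n ∈ Icc 1 N, ∑ m ∈ Icc 1 M, b n * a m * (jacobiSym m n : ℝ) with hU
  have key : ∑ m ∈ Icc 1 M, ∑ n ∈ Icc 1 N, a m * b n * (jacobiSym n m : ℝ) =
      1 / 2 * (U b a + U b (fun m => a m * e4 m) + U (fun n => b n * e4 n) a
        - U (fun n => b n * e4 n) (fun m => a m * e4 m)) := by
    rw [Finset.sum_comm]
    simp only [hU]
    rw [← Finset.sum_add_distrib, ← Finset.sum_add_distrib, ← Finset.sum_sub_distrib,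
      Finset.mul_sum]
    refine Finset.sum_congr rfl fun n _ => ?_
    rw [← Finset.sum_add_distrib, ← Finset.sum_add_distrib, ← Finset.sum_sub_distrib,
      Finset.mul_sum]
    refine Finset.sum_congr rfl fun m _ => ?_
    by_cases h1 : a m = 0
    · simp [h1]
    by_cases h2 : b n = 0
    · simp [h2]
    rw [recip m n (hsa m h1).1 (hsb n h2).1]
    ring
  have hae : ∀ m, |a m * e4 m| ≤ 1 := fun m => by rw [abs_mul, abs_e4, mul_one]; exact ha m
  have hbe : ∀ n, |b n * e4 n| ≤ 1 := fun n => by rw [abs_mul, abs_e4, mul_one]; exact hb n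
  have hsbe : ∀ n, b n * e4 n ≠ 0 → Odd n ∧ Squarefree n := fun n h => hsb n (left_ne_zero_of_mul h)
  set R := 4 * N * M * (N : ℝ) ^ (-(1 / 4) : ℝ) * (1 + Real.log (N * M)) with hR
  have g1 : |U b a| ≤ R := bl1 N M b a hN hMN hb ha hsb
  have g2 : |U b (fun m => a m * e4 m)| ≤ R := bl1 N M b _ hN hMN hb hae hsb
  have g3 : |U (fun n => b n * e4 n) a| ≤ R := bl1 N M _ a hN hMN hbe ha hsbe
  have g4 : |U (fun n => b n * e4 n) (fun m => a m * e4 m)| ≤ R := bl1 N M _ _ hN hMN hbe hae hsbe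
  have hfin : 8 * M * N * (N : ℝ) ^ (-(1 / 4) : ℝ) * (1 + Real.log (M * N)) = 2 * R := by
    rw [hR, mul_comm (N : ℝ) (M : ℝ)]
    ring
  rw [key, hfin]
  rw [abs_le] at g1 g2 g3 g4 ⊢
  constructor <;> linarith

/-- Job BL. -/
theorem bl : StBL := by
  refine ⟨8, by norm_num, ?_⟩
  intro M N a b hM hN ha hb hsa hsb
  rcases le_total M N with h | h
  · have h1 := bl1 M N a b hM h ha hb hsa
    rw [min_eq_left h]
    refine h1.trans ?_
    have hM0 : (1 : ℝ) ≤ M := by exact_mod_cast hM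
    have hN0 : (1 : ℝ) ≤ N := by exact_mod_cast hN
    have : 0 ≤ Real.log ((M : ℝ) * N) := Real.log_nonneg (by nlinarith)
    have h2 : 0 ≤ (M : ℝ) * N * (M : ℝ) ^ (-(1 / 4) : ℝ) * (1 + Real.log (M * N)) := by positivity
    nlinarith
  · have h1 := bl2 M N a b hN h ha hb hsa hsb
    rw [min_eq_right h]
    exact h1

end Pool.Agent.J4H17.TW
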