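import Mathlib
import Pool.Agent.J4H76.TW.Stm

/-!
# The Hall-Tenenbaum upper bound for squarefree-supported multiplicative functions
-/

set_option autoImplicit false

namespace Pool.Agent.J4H17.TW

open Finset Pool.Agent.J4H76.TW

theorem mf_nonneg {h : ℕ → ℝ} (hh : ∀ p, 0 ≤ h p) (n : ℕ) : 0 ≤ mf h n := by
  unfold mf
  split_ifs
  · exact Finset.prod_nonneg fun p _ => hh p
  · exact le_refl 0

theorem mf_div {h : ℕ → ℝ} {n p : ℕ} (hn : Squarefree n) (hp : p ∈ n.primeFactors) :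
    mf h n = h p * mf h (n / p) := by
  have hp' : p.Prime := Nat.prime_of_mem_primeFactors hp
  have hdvd : p ∣ n := Nat.dvd_of_mem_primeFactors hp
  obtain ⟨m, rfl⟩ := hdvd
  have hm : p * m / p = m := Nat.mul_div_cancel_left m hp'.pos
  rw [hm]
  have hco : Nat.Coprime p m := (Nat.squarefree_mul_iff.1 hn).1
  have hsm : Squarefree m := (Nat.squarefree_mul_iff.1 hn).2.2
  have hpm : p ∉ m.primeFactors := by
    intro h'
    have := Nat.dvd_of_mem_primeFactors h'
    exact (Nat.Prime.coprime_iff_not_dvd hp').1 hco this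
  unfold mf
  rw [if_pos hn, if_pos hsm]
  have : (p * m).primeFactors = insert p m.primeFactors := by
    rw [Nat.primeFactors_mul hp'.ne_zero (Squarefree.ne_zero hsm), hp'.primeFactors]
    rfl
  rw [this, Finset.prod_insert hpm]

theorem log_eq_sum {n : ℕ} (hn : Squarefree n) :
    Real.log n = ∑ p ∈ n.primeFactors, Real.log p := by
  conv_lhs => rw [← Nat.prod_primeFactors_of_squarefree hn]
  rw [Nat.cast_prod, Real.log_prod]
  intro p hp
  exact_mod_cast (Nat.prime_of_mem_primeFactors hp).ne_zero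

theorem mf_log {h : ℕ → ℝ} (n : ℕ) :
    mf h n * Real.log n = ∑ p ∈ n.primeFactors,
      if Squarefree n then h p * mf h (n / p) * Real.log p else 0 := by
  by_cases hn : Squarefree n
  · simp only [hn, if_true]
    rw [log_eq_sum hn, Finset.mul_sum]
    refine Finset.sum_congr rfl fun p hp => ?_
    rw [mf_div hn hp]
  · simp only [hn, if_false, Finset.sum_const_zero]
    unfold mf
    rw [if_neg hn, zero_mul]

theorem sum_mf_log {h : ℕ → ℝ} (hh : ∀ p, 0 ≤ h p) (N : ℕ) :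
    ∑ n ∈ Icc 1 N, mf h n * Real.log n ≤
      ∑ m ∈ Icc 1 N, mf h m * ∑ p ∈ (Icc 1 (N / m)).filter Nat.Prime, h p * Real.log p := by
  classical
  have e1 : ∑ n ∈ Icc 1 N, mf h n * Real.log n
      = ∑ x ∈ (Icc 1 N).sigma (fun n => n.primeFactors),
        (if Squarefree x.1 then h x.2 * mf h (x.1 / x.2) * Real.log x.2 else 0) := by
    rw [Finset.sum_sigma]
    exact Finset.sum_congr rfl fun n _ => mf_log n
  have e2 : ∑ m ∈ Icc 1 N, mf h m * ∑ p ∈ (Icc 1 (N / m)).filter Nat.Prime, h p * Real.log p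
      = ∑ x ∈ (Icc 1 N).sigma (fun m => (Icc 1 (N / m)).filter Nat.Prime),
        (h x.2 * mf h x.1 * Real.log x.2) := by
    rw [Finset.sum_sigma]
    refine Finset.sum_congr rfl fun m _ => ?_
    rw [Finset.mul_sum]
    exact Finset.sum_congr rfl fun p _ => by ring
  rw [e1, e2]
  have hlog : ∀ p : ℕ, 0 ≤ Real.log p := fun p => Real.log_natCast_nonneg p
  rw [← Finset.sum_filter]
  set A := ((Icc 1 N).sigma (fun n => n.primeFactors)).filter (fun x => Squarefree x.1) with hA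
  set φ : (_ : ℕ) × ℕ → (_ : ℕ) × ℕ := fun x => ⟨x.1 / x.2, x.2⟩ with hφ
  set g : (_ : ℕ) × ℕ → ℝ := fun x => h x.2 * mf h x.1 * Real.log x.2 with hg
  have hmem : ∀ x ∈ A, x.1 ∈ Icc 1 N ∧ x.2.Prime ∧ x.2 ∣ x.1 := by
    intro x hx
    rw [hA, Finset.mem_filter, Finset.mem_sigma] at hx
    exact ⟨hx.1.1, Nat.prime_of_mem_primeFactors hx.1.2, Nat.dvd_of_mem_primeFactors hx.1.2⟩
  have hinj : Set.InjOn φ (A : Set ((_ : ℕ) × ℕ)) := by
    rintro ⟨n, p⟩ hx ⟨n', p'⟩ hy hxy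
    obtain ⟨_, h2, h3⟩ := hmem _ (Finset.mem_coe.1 hx)
    obtain ⟨_, h2', h3'⟩ := hmem _ (Finset.mem_coe.1 hy)
    simp only [hφ, Sigma.mk.injEq, heq_eq_eq] at hxy
    obtain ⟨e1, e2⟩ := hxy
    simp only at h3 h3'
    subst e2
    have : n = n' := by
      rw [← Nat.div_mul_cancel h3, ← Nat.div_mul_cancel h3', e1]
    subst this
    rfl
  have key : ∑ x ∈ A, h x.2 * mf h (x.1 / x.2) * Real.log x.2 = ∑ y ∈ A.image φ, g y := by
    rw [Finset.sum_image hinj]
  rw [key]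
  refine Finset.sum_le_sum_of_subset_of_nonneg ?_ ?_
  · intro y hy
    rw [Finset.mem_image] at hy
    obtain ⟨x, hx, rfl⟩ := hy
    obtain ⟨h1, h2, h3⟩ := hmem x hx
    rw [Finset.mem_Icc] at h1
    have hdpos : 1 ≤ x.1 / x.2 := Nat.div_pos (Nat.le_of_dvd (by omega) h3) h2.pos
    rw [Finset.mem_sigma, Finset.mem_filter, Finset.mem_Icc, Finset.mem_Icc]
    refine ⟨⟨hdpos, (Nat.div_le_self _ _).trans h1.2⟩, ⟨h2.one_lt.le, ?_⟩, h2⟩
    show x.2 ≤ N / (x.1 / x.2)
    rw [Nat.le_div_iff_mul_le hdpos, Nat.mul_div_cancel' h3]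
    exact h1.2
  · intro y _ _
    exact mul_nonneg (mul_nonneg (hh _) (mf_nonneg hh _)) (Real.log_natCast_nonneg _)

theorem theta_bd {h : ℕ → ℝ} {B : ℝ} (hB : 0 ≤ B) (hh : ∀ p, 0 ≤ h p ∧ h p ≤ B) (K : ℕ) :
    ∑ p ∈ (Icc 1 K).filter Nat.Prime, h p * Real.log p ≤ B * (Real.log 4 * K) := by
  have h1 : ∑ p ∈ (Icc 1 K).filter Nat.Prime, h p * Real.log p ≤
      B * ∑ p ∈ (Icc 1 K).filter Nat.Prime, Real.log p := by
    rw [Finset.mul_sum]
    refine Finset.sum_le_sum fun p _ => ?_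
    exact mul_le_mul_of_nonneg_right (hh p).2 (Real.log_natCast_nonneg p)
  have h2 : ∑ p ∈ (Icc 1 K).filter Nat.Prime, Real.log p = Chebyshev.theta K := by
    rw [Chebyshev.theta_eq_sum_Icc]
    rw [Nat.floor_natCast]
    refine Finset.sum_congr ?_ fun _ _ => rfl
    ext p
    simp only [Finset.mem_filter, Finset.mem_Icc]
    constructor
    · rintro ⟨⟨_, h⟩, hp⟩
      exact ⟨⟨by omega, h⟩, hp⟩
    · rintro ⟨⟨_, h⟩, hp⟩
      exact ⟨⟨hp.one_lt.le, h⟩, hp⟩
  have h3 : Chebyshev.theta K ≤ Real.log 4 * K := Chebyshev.theta_le_log4_mul_x (Nat.cast_nonneg K)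
  rw [h2] at h1
  exact h1.trans (mul_le_mul_of_nonneg_left h3 hB)

theorem part_one {h : ℕ → ℝ} {B : ℝ} (hB : 0 ≤ B) (hh : ∀ p, 0 ≤ h p ∧ h p ≤ B) {X : ℝ}
    (hX : 2 ≤ X) :
    ∑ n ∈ Icc 1 ⌊X⌋₊, mf h n ≤
      (B * Real.log 4 + 1) * X / Real.log X * ∑ n ∈ Icc 1 ⌊X⌋₊, mf h n / n := by
  have hlX : 0 < Real.log X := Real.log_pos (by linarith)
  have hX0 : 0 ≤ X := by linarith
  set N := ⌊X⌋₊ with hN
  have hNX : (N : ℝ) ≤ X := Nat.floor_le hX0
  have hpos : ∀ n, 0 ≤ mf h n := mf_nonneg fun p => (hh p).1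
  have h1 : ∑ n ∈ Icc 1 N, mf h n * Real.log n ≤ B * Real.log 4 * X * ∑ n ∈ Icc 1 N, mf h n / n := by
    refine (sum_mf_log (fun p => (hh p).1) N).trans ?_
    rw [Finset.mul_sum]
    refine Finset.sum_le_sum fun m hm => ?_
    rw [Finset.mem_Icc] at hm
    have hm0 : (0 : ℝ) < m := by exact_mod_cast hm.1
    have h2 := theta_bd hB hh (N / m)
    have h3 : ((N / m : ℕ) : ℝ) ≤ X / m :=
      Nat.cast_div_le.trans (div_le_div_of_nonneg_right hNX hm0.le)
    have hl4 : 0 ≤ Real.log 4 := Real.log_nonneg (by norm_num)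
    calc mf h m * ∑ p ∈ (Icc 1 (N / m)).filter Nat.Prime, h p * Real.log p
        ≤ mf h m * (B * (Real.log 4 * (X / m))) := by
          refine mul_le_mul_of_nonneg_left (h2.trans ?_) (hpos m)
          exact mul_le_mul_of_nonneg_left (mul_le_mul_of_nonneg_left h3 hl4) hB
      _ = B * Real.log 4 * X * (mf h m / m) := by
          field_simp
  have h2 : ∑ n ∈ Icc 1 N, mf h n * Real.log (X / n) ≤ X * ∑ n ∈ Icc 1 N, mf h n / n := by
    rw [Finset.mul_sum]
    refine Finset.sum_le_sum fun m hm => ?_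
    rw [Finset.mem_Icc] at hm
    have hm0 : (0 : ℝ) < m := by exact_mod_cast hm.1
    have h3 : Real.log (X / m) ≤ X / m :=
      (Real.log_le_sub_one_of_pos (by positivity)).trans (by linarith)
    calc mf h m * Real.log (X / m) ≤ mf h m * (X / m) := mul_le_mul_of_nonneg_left h3 (hpos m)
      _ = X * (mf h m / m) := by ring
  have h3 : Real.log X * ∑ n ∈ Icc 1 N, mf h n =
      ∑ n ∈ Icc 1 N, mf h n * Real.log n + ∑ n ∈ Icc 1 N, mf h n * Real.log (X / n) := by
    rw [Finset.mul_sum, ← Finset.sum_add_distrib]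
    refine Finset.sum_congr rfl fun m hm => ?_
    rw [Finset.mem_Icc] at hm
    have hm0 : (0 : ℝ) < m := by exact_mod_cast hm.1
    rw [Real.log_div (by linarith) hm0.ne']
    ring
  have h4 : Real.log X * ∑ n ∈ Icc 1 N, mf h n ≤
      (B * Real.log 4 + 1) * X * ∑ n ∈ Icc 1 N, mf h n / n := by
    rw [h3]
    nlinarith [h1, h2]
  calc ∑ n ∈ Icc 1 N, mf h n = (Real.log X * ∑ n ∈ Icc 1 N, mf h n) / Real.log X := by
        field_simp
    _ ≤ ((B * Real.log 4 + 1) * X * ∑ n ∈ Icc 1 N, mf h n / n) / Real.log X :=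
        div_le_div_of_nonneg_right h4 hlX.le
    _ = _ := by ring

theorem mf_div_self {h : ℕ → ℝ} (n : ℕ) :
    mf h n / n = if Squarefree n then ∏ p ∈ n.primeFactors, (h p / p) else 0 := by
  unfold mf
  split_ifs with hn
  · conv_lhs => rw [← Nat.prod_primeFactors_of_squarefree hn]
    rw [Finset.prod_div_distrib, Nat.cast_prod]
    congr 1
    rw [Nat.prod_primeFactors_of_squarefree hn]
  · simp

theorem part_two {h : ℕ → ℝ} (hh : ∀ p, 0 ≤ h p) (N : ℕ) :
    ∑ n ∈ Icc 1 N, mf h n / n ≤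
      Real.exp (∑ p ∈ (Icc 1 N).filter Nat.Prime, h p / p) := by
  classical
  set P := (Icc 1 N).filter Nat.Prime with hP
  have h1 : ∏ p ∈ P, (1 + h p / p) ≤ Real.exp (∑ p ∈ P, h p / p) := by
    rw [Real.exp_sum]
    refine Finset.prod_le_prod (fun p _ => ?_) (fun p _ => ?_)
    · have := div_nonneg (hh p) (Nat.cast_nonneg (α := ℝ) p)
      linarith
    · have := Real.add_one_le_exp (h p / p)
      linarith
  refine le_trans ?_ h1
  rw [Finset.prod_one_add]
  have e1 : ∑ n ∈ Icc 1 N, mf h n / n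
      = ∑ n ∈ (Icc 1 N).filter Squarefree, ∏ p ∈ n.primeFactors, (h p / p) := by
    rw [Finset.sum_filter]
    exact Finset.sum_congr rfl fun n _ => mf_div_self n
  have hinj : Set.InjOn (fun n : ℕ => n.primeFactors) ((Icc 1 N).filter Squarefree : Set ℕ) := by
    intro m hm n hn hmn
    have hm' := (Finset.mem_filter.1 (Finset.mem_coe.1 hm)).2
    have hn' := (Finset.mem_filter.1 (Finset.mem_coe.1 hn)).2
    simp only at hmn
    rw [← Nat.prod_primeFactors_of_squarefree hm', ← Nat.prod_primeFactors_of_squarefree hn', hmn]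
  have e2 : ∑ n ∈ (Icc 1 N).filter Squarefree, ∏ p ∈ n.primeFactors, (h p / p)
      = ∑ t ∈ ((Icc 1 N).filter Squarefree).image (fun n : ℕ => n.primeFactors),
        ∏ p ∈ t, (h p / p) := by
    rw [Finset.sum_image hinj]
  rw [e1, e2]
  refine Finset.sum_le_sum_of_subset_of_nonneg ?_ ?_
  · intro t ht
    rw [Finset.mem_image] at ht
    obtain ⟨n, hn, rfl⟩ := ht
    rw [Finset.mem_filter, Finset.mem_Icc] at hn
    rw [Finset.mem_powerset]
    intro p hp
    have hpp := Nat.prime_of_mem_primeFactors hp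
    have hpn := Nat.le_of_dvd (by omega) (Nat.dvd_of_mem_primeFactors hp)
    rw [hP, Finset.mem_filter, Finset.mem_Icc]
    exact ⟨⟨hpp.one_lt.le, hpn.trans hn.1.2⟩, hpp⟩
  · intro t _ _
    exact Finset.prod_nonneg fun p _ => div_nonneg (hh p) (Nat.cast_nonneg p)

/-- Job HT. -/
theorem ht : StHT := by
  intro B hB
  refine ⟨B * Real.log 4 + 1, ?_, ?_⟩
  · have : 0 ≤ Real.log 4 := Real.log_nonneg (by norm_num)
    positivity
  · intro h hh X hX
    exact ⟨part_one hB hh hX, part_two (fun p => (hh p).1) _⟩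

end Pool.Agent.J4H17.TW
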