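import Mathlib
import Pool.Agent.J4H76.TW.StmC
import Pool.Agent.J4H17.TW.HT
import Pool.Agent.H951R4.OD.B6

/-!
# Double oscillation, part 1: local factors and Mertens sums
-/

set_option autoImplicit false

namespace Pool.Agent.J4H17.TW

open Finset Pool.Agent.J4H76.TW

/-- the roots of `t² + p t + q` modulo `l` -/
def rts (p q : ℤ) (l : ℕ) : Finset ℕ :=
  (range l).filter (fun t => (l : ℤ) ∣ (t : ℤ) ^ 2 + p * t + q)

/-- their number -/
def rhq (p q : ℤ) (l : ℕ) : ℝ := ((rts p q l).card : ℝ)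

/-- the sum of their Legendre symbols -/
def tauq (p q : ℤ) (l : ℕ) : ℝ := ∑ t ∈ rts p q l, (jacobiSym t l : ℝ)

open Classical in
/-- the indicator of the primes with roots, not dividing `bad` -/
noncomputable def AA (p q : ℤ) (bad l : ℕ) : ℝ :=
  if (rts p q l).Nonempty ∧ ¬ l ∣ bad then 1 else 0

theorem AA_nonneg (p q : ℤ) (bad l : ℕ) : 0 ≤ AA p q bad l := by
  unfold AA; split_ifs <;> norm_num

theorem AA_le (p q : ℤ) (bad l : ℕ) : AA p q bad l ≤ 1 := by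
  unfold AA; split_ifs <;> norm_num

theorem rts_card (p q : ℤ) {l : ℕ} (hl : l.Prime) : (rts p q l).card ≤ 2 := by
  by_contra h
  push Not at h
  rw [Finset.two_lt_card] at h
  obtain ⟨a, ha, b, hb, c, hc, hab, hac, hbc⟩ := h
  unfold rts at ha hb hc
  rw [Finset.mem_filter, Finset.mem_range] at ha hb hc
  have hlp : Prime (l : ℤ) := Nat.prime_iff_prime_int.1 hl
  have key : ∀ x y : ℕ, x < l → y < l → x ≠ y → (l : ℤ) ∣ (x : ℤ) ^ 2 + p * x + q →
      (l : ℤ) ∣ (y : ℤ) ^ 2 + p * y + q → (l : ℤ) ∣ (x : ℤ) + y + p := by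
    intro x y hx hy hxy h1 h2
    have h3 : (l : ℤ) ∣ ((x : ℤ) - y) * (x + y + p) := by
      have := dvd_sub h1 h2
      have e : (x : ℤ) ^ 2 + p * x + q - ((y : ℤ) ^ 2 + p * y + q) = ((x : ℤ) - y) * (x + y + p) := by
        ring
      rwa [e] at this
    rcases hlp.dvd_or_dvd h3 with h4 | h4
    · exfalso
      have h5 := (Int.modEq_iff_dvd.2 (by rwa [← neg_sub, dvd_neg] at h4) : (x : ℤ) ≡ y [ZMOD l])
      have h6 : x ≡ y [MOD l] := Int.natCast_modEq_iff.1 h5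
      have h7 : x % l = y % l := h6
      rw [Nat.mod_eq_of_lt hx, Nat.mod_eq_of_lt hy] at h7
      exact hxy h7
    · exact h4
  have h1 := key a b ha.1 hb.1 hab ha.2 hb.2
  have h2 := key a c ha.1 hc.1 hac ha.2 hc.2
  have h3 : (l : ℤ) ∣ (b : ℤ) - c := by
    have := dvd_sub h1 h2
    have e : (a : ℤ) + b + p - (a + c + p) = b - c := by ring
    rwa [e] at this
  have h5 := (Int.modEq_iff_dvd.2 (by rwa [← neg_sub, dvd_neg] at h3) : (b : ℤ) ≡ c [ZMOD l])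
  have h6 : b ≡ c [MOD l] := Int.natCast_modEq_iff.1 h5
  have h7 : b % l = c % l := h6
  rw [Nat.mod_eq_of_lt hb.1, Nat.mod_eq_of_lt hc.1] at h7
  exact hbc h7

theorem abs_jac_le (a : ℤ) (n : ℕ) : |(jacobiSym a n : ℝ)| ≤ 1 := by
  rcases jacobiSym.trichotomy a n with h | h | h <;> rw [h] <;> simp

theorem rhq_nonneg (p q : ℤ) (l : ℕ) : 0 ≤ rhq p q l := Nat.cast_nonneg _

theorem abs_tauq (p q : ℤ) (l : ℕ) : |tauq p q l| ≤ rhq p q l := by
  unfold tauq rhq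
  refine (Finset.abs_sum_le_sum_abs _ _).trans ?_
  rw [Finset.card_eq_sum_ones]
  push_cast
  exact Finset.sum_le_sum fun t _ => abs_jac_le _ _

theorem rhq_le (p q : ℤ) (bad : ℕ) {l : ℕ} (hl : l.Prime) (hb : ¬ l ∣ bad) :
    rhq p q l ≤ 2 * AA p q bad l := by
  unfold AA
  by_cases h : (rts p q l).Nonempty
  · rw [if_pos ⟨h, hb⟩, mul_one]
    unfold rhq
    exact_mod_cast rts_card p q hl
  · rw [if_neg (fun h' => h h'.1)]
    rw [Finset.not_nonempty_iff_eq_empty] at h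
    unfold rhq
    rw [h]
    simp

/-- the local factor of the second condition -/
theorem factor_le (p q κ₂ : ℤ) (r l : ℕ) (hl : l.Prime)
    (h : ∃ t : ℤ, (l : ℤ) ∣ t ^ 2 + p * t + q ∧ jacobiSym (κ₂ * r * t) l = 1) :
    1 ≤ (rhq p q l + (jacobiSym (κ₂ * r) l : ℝ) * tauq p q l) / 2 := by
  obtain ⟨t, ht, hJ⟩ := h
  have hl0 : (l : ℤ) ≠ 0 := by exact_mod_cast hl.ne_zero
  set t' : ℕ := (t % l).toNat with ht'
  have ht'c : (t' : ℤ) = t % l := by
    rw [ht', Int.toNat_of_nonneg (Int.emod_nonneg _ hl0)]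
  have hlt : t' < l := by
    have := Int.emod_lt_of_pos t (by exact_mod_cast hl.pos : (0 : ℤ) < l)
    omega
  have hmem : t' ∈ rts p q l := by
    unfold rts
    rw [Finset.mem_filter, Finset.mem_range]
    refine ⟨hlt, ?_⟩
    rw [ht'c]
    have h1 : (t % l) ≡ t [ZMOD l] := Int.mod_modEq t l
    have h2 : (t % l) ^ 2 + p * (t % l) + q ≡ t ^ 2 + p * t + q [ZMOD l] :=
      ((h1.pow 2).add (h1.mul_left p)).add_right q
    exact (Int.ModEq.dvd_iff h2).2 ht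
  have hJ' : jacobiSym (κ₂ * r * t') l = 1 := by
    rw [← hJ, jacobiSym.mod_left (κ₂ * r * t), jacobiSym.mod_left (κ₂ * r * t')]
    congr 1
    rw [ht'c]
    exact (Int.mod_modEq t l).mul_left (κ₂ * r)
  have e : rhq p q l + (jacobiSym (κ₂ * r) l : ℝ) * tauq p q l =
      ∑ t ∈ rts p q l, (1 + (jacobiSym (κ₂ * r * t) l : ℝ)) := by
    unfold rhq tauq
    rw [Finset.sum_add_distrib, Finset.mul_sum]
    congr 1
    · simp
    · refine Finset.sum_congr rfl fun t _ => ?_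
      rw [jacobiSym.mul_left (κ₂ * r) t]
      push_cast
      rfl
  rw [e]
  have h2 : (2 : ℝ) ≤ ∑ t ∈ rts p q l, (1 + (jacobiSym (κ₂ * r * t) l : ℝ)) := by
    have := Finset.single_le_sum (f := fun t : ℕ => (1 + (jacobiSym (κ₂ * r * t) l : ℝ)))
      (fun t _ => by
        have := abs_le.1 (abs_jac_le (κ₂ * r * t) l)
        linarith [this.1]) hmem
    simp only [hJ'] at this
    push_cast at this
    linarith
  linarith

theorem AA_jac (p q : ℤ) (bad : ℕ) {l : ℕ} (hl : l.Prime)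
    (hb : (2 * (p ^ 2 - 4 * q)) ∣ (bad : ℤ)) (h : AA p q bad l = 1) :
    l % 2 = 1 ∧ jacobiSym (p ^ 2 - 4 * q) l = 1 := by
  unfold AA at h
  split_ifs at h with h1
  · obtain ⟨⟨t, ht⟩, hbad⟩ := h1
    have hbad' : ¬ (l : ℤ) ∣ 2 * (p ^ 2 - 4 * q) := by
      intro h'
      exact hbad (by exact_mod_cast h'.trans hb)
    have h2 : ¬ (l : ℤ) ∣ 2 := fun h' => hbad' (Dvd.dvd.mul_right h' _)
    have hD : ¬ (l : ℤ) ∣ (p ^ 2 - 4 * q) := fun h' => hbad' (Dvd.dvd.mul_left h' _)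
    constructor
    · rcases hl.eq_two_or_odd with h' | h'
      · exfalso; apply h2; rw [h']; norm_num
      · exact h'
    · unfold rts at ht
      rw [Finset.mem_filter] at ht
      have e : (p ^ 2 - 4 * q) ≡ (2 * t + p) ^ 2 [ZMOD l] := by
        rw [Int.modEq_iff_dvd]
        have e2 : (2 * (t : ℤ) + p) ^ 2 - (p ^ 2 - 4 * q) = 4 * ((t : ℤ) ^ 2 + p * t + q) := by ring
        rw [e2]
        exact Dvd.dvd.mul_left ht.2 4
      have hco : ¬ (l : ℤ) ∣ (2 * t + p) := by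
        intro h'
        apply hD
        rw [Int.ModEq.dvd_iff e, pow_two]
        exact Dvd.dvd.mul_left h' _
      rw [jacobiSym.mod_left, e, ← jacobiSym.mod_left]
      apply jacobiSym.sq_one'
      rw [← Int.isCoprime_iff_gcd_eq_one]
      exact ((Prime.coprime_iff_not_dvd (Nat.prime_iff_prime_int.1 hl)).2 hco).symm
  · norm_num at h


open Pool.Agent.H951R4.OD (PI ch)

theorem PI_eq (z : ℕ) : PI 0 z = (Icc 1 z).filter Nat.Prime := by
  unfold PI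
  ext x
  simp only [Finset.mem_filter, Finset.mem_Ioc, Finset.mem_Icc]
  constructor <;> rintro ⟨⟨h1, h2⟩, h3⟩ <;> exact ⟨⟨by omega, h2⟩, h3⟩

theorem loglog_mono {z X : ℝ} (hz : 3 ≤ z) (hzX : z ≤ X) :
    Real.log (Real.log z) ≤ Real.log (Real.log X) := by
  have h1 : 0 < Real.log z := Real.log_pos (by linarith)
  exact Real.log_le_log h1 (Real.log_le_log (by linarith) hzX)

theorem mert1 : ∃ C : ℝ, 0 ≤ C ∧ ∀ X : ℝ, 3 ≤ X →
    ∑ l ∈ (Icc 1 ⌊X⌋₊).filter Nat.Prime, (1 : ℝ) / l ≤ Real.log (Real.log X) + C := by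
  obtain ⟨C, hC, h⟩ := Pool.Agent.H951R4.OD.b6_mert
  refine ⟨C, hC, fun X hX => ?_⟩
  have hz : 3 ≤ ⌊X⌋₊ := Nat.le_floor (by exact_mod_cast hX)
  have h1 := h ⌊X⌋₊ hz
  rw [PI_eq] at h1
  have h2 := (abs_le.1 h1).2
  have h3 := loglog_mono (z := (⌊X⌋₊ : ℝ)) (X := X) (by exact_mod_cast hz)
    (Nat.floor_le (by linarith))
  linarith

theorem mertA (p q : ℤ) (bad : ℕ) (hD : ¬ IsSquare (p ^ 2 - 4 * q))
    (hb : (2 * (p ^ 2 - 4 * q)) ∣ (bad : ℤ)) : ∃ C : ℝ, 0 ≤ C ∧ ∀ X : ℝ, 3 ≤ X →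
    ∑ l ∈ (Icc 1 ⌊X⌋₊).filter Nat.Prime, AA p q bad l / l ≤
      1 / 2 * Real.log (Real.log X) + C := by
  obtain ⟨C₁, hC₁, h1⟩ := mert1
  obtain ⟨C₂, hC₂, h2⟩ := Pool.Agent.H951R4.OD.char_sum_fixed (p ^ 2 - 4 * q) hD
  refine ⟨(C₁ + C₂) / 2, by positivity, fun X hX => ?_⟩
  have a1 := h1 X hX
  have a2 := (abs_le.1 (h2 0 ⌊X⌋₊)).2
  rw [PI_eq] at a2
  have a3 : ∑ l ∈ (Icc 1 ⌊X⌋₊).filter Nat.Prime, AA p q bad l / l ≤
      1 / 2 * (∑ l ∈ (Icc 1 ⌊X⌋₊).filter Nat.Prime, (1 : ℝ) / l +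
        ∑ l ∈ (Icc 1 ⌊X⌋₊).filter Nat.Prime, ch (p ^ 2 - 4 * q) l / l) := by
    rw [← Finset.sum_add_distrib, Finset.mul_sum]
    refine Finset.sum_le_sum fun l hl => ?_
    have hlp := (Finset.mem_filter.1 hl).2
    have hl0 : (0 : ℝ) < l := by exact_mod_cast hlp.pos
    have key : AA p q bad l ≤ 1 / 2 * (1 + ch (p ^ 2 - 4 * q) l) := by
      by_cases hA : AA p q bad l = 1
      · obtain ⟨g1, g2⟩ := AA_jac p q bad hlp hb hA
        unfold ch
        rw [if_pos g1, g2, hA]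
        norm_num
      · have hA0 : AA p q bad l = 0 := by
          unfold AA at hA ⊢
          split_ifs at hA ⊢
          · exact absurd rfl hA
          · rfl
        rw [hA0]
        have hch : -1 ≤ ch (p ^ 2 - 4 * q) l := by
          unfold ch
          split_ifs
          · exact (abs_le.1 (abs_jac_le _ _)).1
          · norm_num
        linarith
    calc AA p q bad l / l ≤ (1 / 2 * (1 + ch (p ^ 2 - 4 * q) l)) / l :=
          div_le_div_of_nonneg_right key hl0.le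
      _ = 1 / 2 * (1 / l + ch (p ^ 2 - 4 * q) l / l) := by ring
  linarith

/-- Mean values of the weights. -/
theorem HTF (p q : ℤ) (bad : ℕ) (hD : ¬ IsSquare (p ^ 2 - 4 * q))
    (hb : (2 * (p ^ 2 - 4 * q)) ∣ (bad : ℤ)) (x y : ℝ) (hx : 0 ≤ x) (hy : 0 ≤ y) :
    ∃ C : ℝ, 0 ≤ C ∧ ∀ X : ℝ, 3 ≤ X →
      ∑ n ∈ Icc 1 ⌊X⌋₊, mf (fun l => x + y * AA p q bad l) n ≤
        C * X * Real.log X ^ (x + y / 2 - 1) := by
  obtain ⟨C₁, hC₁, h1⟩ := mert1
  obtain ⟨C₂, hC₂, h2⟩ := mertA p q bad hD hb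
  obtain ⟨C₀, hC₀, h0⟩ := ht (x + y) (by positivity)
  refine ⟨C₀ * Real.exp (x * C₁ + y * C₂), by positivity, fun X hX => ?_⟩
  have hlX : 0 < Real.log X := Real.log_pos (by linarith)
  obtain ⟨g1, g2⟩ := h0 (fun l => x + y * AA p q bad l) (fun l => by
    have h3 := AA_nonneg p q bad l
    have h4 := AA_le p q bad l
    constructor
    · positivity
    · nlinarith) X (by linarith)
  have e1 : ∑ l ∈ (Icc 1 ⌊X⌋₊).filter Nat.Prime, (x + y * AA p q bad l) / l =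
      x * ∑ l ∈ (Icc 1 ⌊X⌋₊).filter Nat.Prime, (1 : ℝ) / l +
        y * ∑ l ∈ (Icc 1 ⌊X⌋₊).filter Nat.Prime, AA p q bad l / l := by
    rw [Finset.mul_sum, Finset.mul_sum, ← Finset.sum_add_distrib]
    exact Finset.sum_congr rfl fun l _ => by ring
  have e2 : ∑ l ∈ (Icc 1 ⌊X⌋₊).filter Nat.Prime, (x + y * AA p q bad l) / l ≤
      (x + y / 2) * Real.log (Real.log X) + (x * C₁ + y * C₂) := by
    rw [e1]
    have a1 := mul_le_mul_of_nonneg_left (h1 X hX) hx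
    have a2 := mul_le_mul_of_nonneg_left (h2 X hX) hy
    linarith
  have e3 : Real.exp (∑ l ∈ (Icc 1 ⌊X⌋₊).filter Nat.Prime, (x + y * AA p q bad l) / l) ≤
      Real.log X ^ (x + y / 2) * Real.exp (x * C₁ + y * C₂) := by
    refine (Real.exp_le_exp.2 e2).trans (le_of_eq ?_)
    rw [Real.exp_add, Real.rpow_def_of_pos hlX]
    ring_nf
  calc ∑ n ∈ Icc 1 ⌊X⌋₊, mf (fun l => x + y * AA p q bad l) n
      ≤ C₀ * X / Real.log X * ∑ n ∈ Icc 1 ⌊X⌋₊, mf (fun l => x + y * AA p q bad l) n / n := g1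
    _ ≤ C₀ * X / Real.log X * (Real.log X ^ (x + y / 2) * Real.exp (x * C₁ + y * C₂)) := by
        refine mul_le_mul_of_nonneg_left (g2.trans e3) ?_
        positivity
    _ = _ := by
        rw [Real.rpow_sub hlX, Real.rpow_one]
        field_simp

end Pool.Agent.J4H17.TW
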