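import Mathlib
import Pool.Agent.J4H17.TW.Do1

/-!
# Double oscillation, part 2: expansions
-/

set_option autoImplicit false

namespace Pool.Agent.J4H17.TW

open Finset Pool.Agent.J4H76.TW

/-- product over the prime factors -/
noncomputable def pf (f : ℕ → ℝ) (n : ℕ) : ℝ := ∏ l ∈ n.primeFactors, f l

theorem mf_eq (f : ℕ → ℝ) {n : ℕ} (hn : Squarefree n) : mf f n = pf f n := by
  unfold mf pf
  rw [if_pos hn]

theorem pf_nonneg {f : ℕ → ℝ} (h : ∀ l : ℕ, l.Prime → 0 ≤ f l) (n : ℕ) : 0 ≤ pf f n :=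
  Finset.prod_nonneg fun l hl => h l (Nat.prime_of_mem_primeFactors hl)

theorem abs_pf_le {f g : ℕ → ℝ} (h : ∀ l : ℕ, l.Prime → |f l| ≤ g l) (n : ℕ) :
    |pf f n| ≤ pf g n := by
  unfold pf
  rw [Finset.abs_prod]
  exact Finset.prod_le_prod (fun l _ => abs_nonneg _)
    fun l hl => h l (Nat.prime_of_mem_primeFactors hl)

theorem pf_le_pf {f g : ℕ → ℝ} (h0 : ∀ l : ℕ, l.Prime → 0 ≤ f l)
    (h : ∀ l : ℕ, l.Prime → f l ≤ g l) (n : ℕ) : pf f n ≤ pf g n :=
  Finset.prod_le_prod (fun l hl => h0 l (Nat.prime_of_mem_primeFactors hl))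
    fun l hl => h l (Nat.prime_of_mem_primeFactors hl)

theorem pf_le_one {f : ℕ → ℝ} (h0 : ∀ l : ℕ, l.Prime → 0 ≤ f l)
    (h : ∀ l : ℕ, l.Prime → f l ≤ 1) (n : ℕ) : pf f n ≤ 1 :=
  Finset.prod_le_one (fun l hl => h0 l (Nat.prime_of_mem_primeFactors hl))
    fun l hl => h l (Nat.prime_of_mem_primeFactors hl)

theorem exp1 (x y : ℕ → ℝ) {n : ℕ} (hn : Squarefree n) :
    ∏ l ∈ n.primeFactors, (x l + y l) = ∑ d ∈ n.divisorsAntidiagonal, pf x d.1 * pf y d.2 := by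
  have h := ArithmeticFunction.IsMultiplicative.prodPrimeFactors_add_of_squarefree
    (f := ArithmeticFunction.prodPrimeFactors x) (g := ArithmeticFunction.prodPrimeFactors y)
    (ArithmeticFunction.IsMultiplicative.prodPrimeFactors x)
    (ArithmeticFunction.IsMultiplicative.prodPrimeFactors y) hn
  rw [ArithmeticFunction.prodPrimeFactors_apply hn.ne_zero, ArithmeticFunction.mul_apply] at h
  have e1 : ∏ l ∈ n.primeFactors, (x l + y l) = ∏ l ∈ n.primeFactors,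
      (ArithmeticFunction.prodPrimeFactors x + ArithmeticFunction.prodPrimeFactors y) l := by
    refine Finset.prod_congr rfl fun l hl => ?_
    have hp := Nat.prime_of_mem_primeFactors hl
    rw [ArithmeticFunction.add_apply, ArithmeticFunction.prodPrimeFactors_apply hp.ne_zero,
      ArithmeticFunction.prodPrimeFactors_apply hp.ne_zero, hp.primeFactors, Finset.prod_singleton,
      Finset.prod_singleton]
  rw [e1, h]
  refine Finset.sum_congr rfl fun d hd => ?_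
  have hd' := Nat.mem_divisorsAntidiagonal.1 hd
  have h1 : d.1 ≠ 0 := by rintro h; apply hn.ne_zero; rw [← hd'.1, h, zero_mul]
  have h2 : d.2 ≠ 0 := by rintro h; apply hn.ne_zero; rw [← hd'.1, h, mul_zero]
  rw [ArithmeticFunction.prodPrimeFactors_apply h1, ArithmeticFunction.prodPrimeFactors_apply h2]
  rfl

theorem anti (N : ℕ) (G : ℕ → ℕ → ℝ) :
    ∑ r ∈ Icc 1 N, ∑ a ∈ r.divisorsAntidiagonal, G a.1 a.2 =
      ∑ a ∈ Icc 1 N, ∑ b ∈ Icc 1 N, if a * b ≤ N then G a b else 0 := by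
  classical
  rw [← Finset.sum_product' (Icc 1 N) (Icc 1 N) (fun a b => if a * b ≤ N then G a b else 0),
    ← Finset.sum_filter]
  rw [← Finset.sum_fiberwise_of_maps_to (s := (Icc 1 N ×ˢ Icc 1 N).filter (fun x => x.1 * x.2 ≤ N))
    (t := Icc 1 N) (g := fun x : ℕ × ℕ => x.1 * x.2)]
  · refine Finset.sum_congr rfl fun r hr => ?_
    rw [Finset.mem_Icc] at hr
    refine Finset.sum_congr ?_ fun _ _ => rfl
    ext x
    rw [Nat.mem_divisorsAntidiagonal, Finset.mem_filter, Finset.mem_filter, Finset.mem_product,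
      Finset.mem_Icc, Finset.mem_Icc]
    constructor
    · rintro ⟨h1, h2⟩
      have hx1 : 0 < x.1 := Nat.pos_of_ne_zero (by rintro h; rw [h, zero_mul] at h1; omega)
      have hx2 : 0 < x.2 := Nat.pos_of_ne_zero (by rintro h; rw [h, mul_zero] at h1; omega)
      have h3 : x.1 ≤ x.1 * x.2 := Nat.le_mul_of_pos_right _ hx2
      have h4 : x.2 ≤ x.1 * x.2 := Nat.le_mul_of_pos_left _ hx1
      refine ⟨⟨⟨⟨hx1, ?_⟩, ⟨hx2, ?_⟩⟩, ?_⟩, h1⟩ <;> omega
    · rintro ⟨⟨_, _⟩, h1⟩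
      exact ⟨h1, by omega⟩
  · intro x hx
    rw [Finset.mem_filter, Finset.mem_product, Finset.mem_Icc, Finset.mem_Icc] at hx
    rw [Finset.mem_Icc]
    exact ⟨Nat.mul_pos hx.1.1.1 hx.1.2.1, hx.2⟩

open Classical in
theorem pair_le (x y : ℕ → ℝ) (hx : ∀ l : ℕ, l.Prime → 0 ≤ x l) (hy : ∀ l : ℕ, l.Prime → 0 ≤ y l)
    (N : ℕ) (Y : ℝ) (hY : 0 ≤ Y) :
    ∑ a ∈ Icc 1 N, ∑ b ∈ Icc 1 N,
      (if (((a * b : ℕ) : ℝ) ≤ Y ∧ Squarefree (a * b)) then pf x a * pf y b else 0) ≤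
      ∑ n ∈ Icc 1 ⌊Y⌋₊, mf (fun l => x l + y l) n := by
  have h0 : ∀ a b : ℕ, 0 ≤ pf x a * pf y b := fun a b => mul_nonneg (pf_nonneg hx a) (pf_nonneg hy b)
  set M := max N ⌊Y⌋₊ with hM
  have e1 : ∑ n ∈ Icc 1 ⌊Y⌋₊, mf (fun l => x l + y l) n =
      ∑ n ∈ Icc 1 ⌊Y⌋₊, ∑ a ∈ n.divisorsAntidiagonal,
        (if Squarefree (a.1 * a.2) then pf x a.1 * pf y a.2 else 0) := by
    refine Finset.sum_congr rfl fun n _ => ?_
    by_cases hn : Squarefree n
    · rw [mf_eq _ hn]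
      unfold pf
      rw [exp1 x y hn]
      refine Finset.sum_congr rfl fun d hd => ?_
      rw [(Nat.mem_divisorsAntidiagonal.1 hd).1, if_pos hn]
      rfl
    · unfold mf
      rw [if_neg hn]
      symm
      refine Finset.sum_eq_zero fun d hd => ?_
      rw [(Nat.mem_divisorsAntidiagonal.1 hd).1, if_neg hn]
  rw [e1, anti ⌊Y⌋₊ (fun a b => if Squarefree (a * b) then pf x a * pf y b else 0)]
  have e2 : ∀ a ∈ Icc 1 N, ∀ b ∈ Icc 1 N,
      (if (((a * b : ℕ) : ℝ) ≤ Y ∧ Squarefree (a * b)) then pf x a * pf y b else 0) =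
      (if (a ≤ ⌊Y⌋₊ ∧ b ≤ ⌊Y⌋₊) then
        (if a * b ≤ ⌊Y⌋₊ then (if Squarefree (a * b) then pf x a * pf y b else 0) else 0) else 0) := by
    intro a ha b hb
    rw [Finset.mem_Icc] at ha hb
    have hle : ((a * b : ℕ) : ℝ) ≤ Y ↔ a * b ≤ ⌊Y⌋₊ := (Nat.le_floor_iff hY).symm
    by_cases h1 : a * b ≤ ⌊Y⌋₊
    · have h3 : a ≤ a * b := Nat.le_mul_of_pos_right _ hb.1
      have h4 : b ≤ a * b := Nat.le_mul_of_pos_left _ ha.1
      rw [if_pos (⟨h3.trans h1, h4.trans h1⟩ : a ≤ ⌊Y⌋₊ ∧ b ≤ ⌊Y⌋₊), if_pos h1]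
      by_cases h2 : Squarefree (a * b)
      · rw [if_pos ⟨hle.2 h1, h2⟩, if_pos h2]
      · rw [if_neg (fun h => h2 h.2), if_neg h2]
    · rw [if_neg (fun h => h1 (hle.1 h.1))]
      split_ifs <;> simp_all
  have e3 : ∑ a ∈ Icc 1 N, ∑ b ∈ Icc 1 N,
      (if (((a * b : ℕ) : ℝ) ≤ Y ∧ Squarefree (a * b)) then pf x a * pf y b else 0) =
      ∑ z ∈ Icc 1 N ×ˢ Icc 1 N, (if (z.1 ≤ ⌊Y⌋₊ ∧ z.2 ≤ ⌊Y⌋₊) then
        (if z.1 * z.2 ≤ ⌊Y⌋₊ then (if Squarefree (z.1 * z.2) then pf x z.1 * pf y z.2 else 0)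
          else 0) else 0) := by
    rw [Finset.sum_product]
    exact Finset.sum_congr rfl fun a ha => Finset.sum_congr rfl fun b hb => e2 a ha b hb
  rw [e3, ← Finset.sum_filter, ← Finset.sum_product' (Icc 1 ⌊Y⌋₊) (Icc 1 ⌊Y⌋₊)
    (fun a b => if a * b ≤ ⌊Y⌋₊ then (if Squarefree (a * b) then pf x a * pf y b else 0) else 0)]
  refine Finset.sum_le_sum_of_subset_of_nonneg ?_ ?_
  · intro z hz
    rw [Finset.mem_filter, Finset.mem_product, Finset.mem_Icc, Finset.mem_Icc] at hz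
    rw [Finset.mem_product, Finset.mem_Icc, Finset.mem_Icc]
    exact ⟨⟨hz.1.1.1, hz.2.1⟩, ⟨hz.1.2.1, hz.2.2⟩⟩
  · intro z _ _
    split_ifs
    · exact h0 _ _
    · exact le_refl 0
    · exact le_refl 0

theorem jac_prod (c : ℤ) (T : Finset ℕ) (hT : ∀ l ∈ T, l ≠ 0) :
    jacobiSym c (∏ l ∈ T, l) = ∏ l ∈ T, jacobiSym c l := by
  classical
  induction T using Finset.induction_on with
  | empty => simp [jacobiSym.one_right]
  | insert a T ha ih =>
    rw [Finset.prod_insert ha, Finset.prod_insert ha, jacobiSym.mul_right', ih]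
    · exact fun l hl => hT l (Finset.mem_insert_of_mem hl)
    · exact hT a (Finset.mem_insert_self a T)
    · exact Finset.prod_ne_zero_iff.2 fun l hl => hT l (Finset.mem_insert_of_mem hl)

theorem pf_jac (f : ℕ → ℝ) (c : ℤ) {n : ℕ} (hn : Squarefree n) :
    pf (fun l => f l * (jacobiSym c l : ℝ)) n = pf f n * (jacobiSym c n : ℝ) := by
  unfold pf
  rw [Finset.prod_mul_distrib]
  congr 1
  conv_rhs => rw [← Nat.prod_primeFactors_of_squarefree hn]
  rw [jac_prod c n.primeFactors (fun l hl => (Nat.prime_of_mem_primeFactors hl).ne_zero)]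
  push_cast
  rfl

section weights

variable (p q : ℤ) (bad : ℕ)

/-- the weight -/
noncomputable def ww (l : ℕ) : ℝ := 1 - AA p q bad l / 3

noncomputable def xu (l : ℕ) : ℝ := ww p q bad l / 2

open Classical in
noncomputable def xv (l : ℕ) : ℝ := if l ∣ bad then 0 else ww p q bad l * rhq p q l / 2

open Classical in
noncomputable def xt (l : ℕ) : ℝ := if l ∣ bad then 0 else ww p q bad l * tauq p q l / 2

noncomputable def xp (l : ℕ) : ℝ := ww p q bad l * AA p q bad l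

theorem ww_nonneg (l : ℕ) : 0 ≤ ww p q bad l := by
  have := AA_le p q bad l
  unfold ww; linarith

theorem ww_le (l : ℕ) : ww p q bad l ≤ 1 := by
  have := AA_nonneg p q bad l
  unfold ww; linarith

theorem xu_nonneg (l : ℕ) : 0 ≤ xu p q bad l := by
  have := ww_nonneg p q bad l
  unfold xu; linarith

theorem xu_le (l : ℕ) : xu p q bad l ≤ 1 := by
  have := ww_le p q bad l
  unfold xu; linarith

theorem xp_nonneg (l : ℕ) : 0 ≤ xp p q bad l := mul_nonneg (ww_nonneg _ _ _ _) (AA_nonneg _ _ _ _)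

theorem xp_le (l : ℕ) : xp p q bad l ≤ 1 :=
  mul_le_one₀ (ww_le _ _ _ _) (AA_nonneg _ _ _ _) (AA_le _ _ _ _)

theorem xv_nonneg (l : ℕ) : 0 ≤ xv p q bad l := by
  unfold xv
  split_ifs
  · exact le_refl 0
  · have h1 := ww_nonneg p q bad l
    have h2 := rhq_nonneg p q l
    positivity

theorem xv_le {l : ℕ} (hl : l.Prime) : xv p q bad l ≤ xp p q bad l := by
  unfold xv
  split_ifs with h
  · exact xp_nonneg _ _ _ _
  · unfold xp
    have h1 := ww_nonneg p q bad l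
    have h2 := rhq_le p q bad hl h
    have := mul_le_mul_of_nonneg_left h2 h1
    linarith

theorem abs_xt_le {l : ℕ} (hl : l.Prime) : |xt p q bad l| ≤ xp p q bad l := by
  unfold xt
  split_ifs with h
  · rw [abs_zero]; exact xp_nonneg _ _ _ _
  · unfold xp
    have h1 := ww_nonneg p q bad l
    have h2 := rhq_le p q bad hl h
    have h3 := abs_tauq p q l
    rw [abs_div, abs_mul, abs_of_nonneg h1, abs_two]
    have := mul_le_mul_of_nonneg_left (h3.trans h2) h1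
    linarith

end weights

end Pool.Agent.J4H17.TW
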