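import Mathlib
import Pool.Agent.J4H17.TW.Do2

/-!
# Double oscillation, part 3: the weighted indicator
-/

set_option autoImplicit false

namespace Pool.Agent.J4H17.TW

open Finset Pool.Agent.J4H76.TW

variable (p q : ℤ) (bad : ℕ) (κ₁ κ₂ : ℤ)

/-- the summand of the quadruple sum -/
noncomputable def XX (a₀ a₁ b₀ b₁ : ℕ) : ℝ :=
  pf (xu p q bad) a₀ * (pf (xu p q bad) a₁ * (jacobiSym (κ₁ * ((b₀ * b₁ : ℕ) : ℤ)) a₁ : ℝ)) *
    (pf (xv p q bad) b₀ * (pf (xt p q bad) b₁ * (jacobiSym (κ₂ * ((a₀ * a₁ : ℕ) : ℤ)) b₁ : ℝ)))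

/-- the majorant of the weighted indicator -/
noncomputable def EE (r s : ℕ) : ℝ :=
  (∑ a ∈ r.divisorsAntidiagonal,
    pf (xu p q bad) a.1 * (pf (xu p q bad) a.2 * (jacobiSym (κ₁ * (s : ℤ)) a.2 : ℝ))) *
  (∑ b ∈ s.divisorsAntidiagonal,
    pf (xv p q bad) b.1 * (pf (xt p q bad) b.2 * (jacobiSym (κ₂ * (r : ℤ)) b.2 : ℝ)))

theorem EE_eq {r s : ℕ} (hr : Squarefree r) (hs : Squarefree s) :
    EE p q bad κ₁ κ₂ r s =
      (∏ l ∈ r.primeFactors, (xu p q bad l + xu p q bad l * (jacobiSym (κ₁ * (s : ℤ)) l : ℝ))) *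
      ∏ l ∈ s.primeFactors, (xv p q bad l + xt p q bad l * (jacobiSym (κ₂ * (r : ℤ)) l : ℝ)) := by
  unfold EE
  rw [exp1 _ _ hr, exp1 _ _ hs]
  congr 1
  · refine Finset.sum_congr rfl fun a ha => ?_
    have h1 : Squarefree a.2 := hr.squarefree_of_dvd
      ⟨a.1, by rw [mul_comm]; exact (Nat.mem_divisorsAntidiagonal.1 ha).1.symm⟩
    rw [← pf_jac _ _ h1]
  · refine Finset.sum_congr rfl fun a ha => ?_
    have h1 : Squarefree a.2 := hs.squarefree_of_dvd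
      ⟨a.1, by rw [mul_comm]; exact (Nat.mem_divisorsAntidiagonal.1 ha).1.symm⟩
    rw [← pf_jac _ _ h1]

theorem fac1_nonneg (c : ℤ) (l : ℕ) :
    0 ≤ xu p q bad l + xu p q bad l * (jacobiSym c l : ℝ) := by
  have h1 := xu_nonneg p q bad l
  have h2 := (abs_le.1 (abs_jac_le c l)).1
  nlinarith

theorem fac2_nonneg (c : ℤ) (l : ℕ) :
    0 ≤ xv p q bad l + xt p q bad l * (jacobiSym c l : ℝ) := by
  unfold xv xt
  split_ifs
  · simp
  · have h1 := ww_nonneg p q bad l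
    have h2 := abs_tauq p q l
    have h3 := abs_jac_le c l
    have h4 : |tauq p q l * (jacobiSym c l : ℝ)| ≤ rhq p q l := by
      rw [abs_mul]
      calc |tauq p q l| * |(jacobiSym c l : ℝ)| ≤ |tauq p q l| * 1 :=
            mul_le_mul_of_nonneg_left h3 (abs_nonneg _)
        _ ≤ rhq p q l := by rw [mul_one]; exact h2
    have h5 := (abs_le.1 h4).1
    have e : ww p q bad l * rhq p q l / 2 + ww p q bad l * tauq p q l / 2 * (jacobiSym c l : ℝ) =
        ww p q bad l * (rhq p q l + tauq p q l * (jacobiSym c l : ℝ)) / 2 := by ring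
    rw [e]
    have h6 : 0 ≤ rhq p q l + tauq p q l * (jacobiSym c l : ℝ) := by linarith
    positivity

theorem EE_nonneg {r s : ℕ} (hrs : Squarefree (r * s)) : 0 ≤ EE p q bad κ₁ κ₂ r s := by
  have h := Nat.squarefree_mul_iff.1 hrs
  rw [EE_eq p q bad κ₁ κ₂ h.2.1 h.2.2]
  exact mul_nonneg (Finset.prod_nonneg fun l _ => fac1_nonneg p q bad _ l)
    (Finset.prod_nonneg fun l _ => fac2_nonneg p q bad _ l)

theorem EE_ge {r s : ℕ} (h : Cond p q κ₁ κ₂ bad r s) :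
    pf (ww p q bad) (r * s) ≤ EE p q bad κ₁ κ₂ r s := by
  obtain ⟨hsq, hco, -, h1, h2⟩ := h
  have hs := Nat.squarefree_mul_iff.1 hsq
  rw [EE_eq p q bad κ₁ κ₂ hs.2.1 hs.2.2]
  have e : pf (ww p q bad) (r * s) = pf (ww p q bad) r * pf (ww p q bad) s := by
    unfold pf
    rw [Nat.Coprime.primeFactors_mul hs.1, Finset.prod_union hs.1.disjoint_primeFactors]
  rw [e]
  unfold pf
  have hbad : ∀ l : ℕ, l.Prime → l ∣ r * s → ¬ l ∣ bad := by
    intro l hl hd hb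
    have := Nat.dvd_gcd hd hb
    rw [Nat.Coprime.gcd_eq_one hco] at this
    exact hl.one_lt.ne' (Nat.dvd_one.1 this)
  refine mul_le_mul ?_ ?_ ?_ ?_
  · refine Finset.prod_le_prod (fun l _ => ww_nonneg p q bad l) fun l hl => ?_
    rw [h1 l hl]
    unfold xu
    push_cast
    linarith
  · refine Finset.prod_le_prod (fun l _ => ww_nonneg p q bad l) fun l hl => ?_
    have hlp := Nat.prime_of_mem_primeFactors hl
    have hlb := hbad l hlp (Dvd.dvd.mul_left (Nat.dvd_of_mem_primeFactors hl) r)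
    have h3 := factor_le p q κ₂ r l hlp (h2 l hl)
    unfold xv xt
    rw [if_neg hlb, if_neg hlb]
    have h4 := mul_le_mul_of_nonneg_left h3 (ww_nonneg p q bad l)
    calc ww p q bad l = ww p q bad l * 1 := by ring
      _ ≤ ww p q bad l * ((rhq p q l + (jacobiSym (κ₂ * r) l : ℝ) * tauq p q l) / 2) := h4
      _ = _ := by ring
  · exact Finset.prod_nonneg fun l _ => ww_nonneg p q bad l
  · exact Finset.prod_nonneg fun l _ => fac1_nonneg p q bad _ l

open Classical in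
theorem sum_EE (N : ℕ) (P : ℕ → ℕ → Prop) (hP : ∀ r s, P r s → r ≤ N ∧ s ≤ N) :
    ∑ r ∈ Icc 1 N, ∑ s ∈ Icc 1 N, (if P r s then EE p q bad κ₁ κ₂ r s else 0) =
      ∑ a₀ ∈ Icc 1 N, ∑ a₁ ∈ Icc 1 N, ∑ b₀ ∈ Icc 1 N, ∑ b₁ ∈ Icc 1 N,
        (if P (a₀ * a₁) (b₀ * b₁) then XX p q bad κ₁ κ₂ a₀ a₁ b₀ b₁ else 0) := by
  have e1 : ∀ r s : ℕ, (if P r s then EE p q bad κ₁ κ₂ r s else 0) =
      ∑ a ∈ r.divisorsAntidiagonal, ∑ b ∈ s.divisorsAntidiagonal,
        (if P (a.1 * a.2) (b.1 * b.2) then XX p q bad κ₁ κ₂ a.1 a.2 b.1 b.2 else 0) := by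
    intro r s
    have e2 : ∀ a ∈ r.divisorsAntidiagonal, ∀ b ∈ s.divisorsAntidiagonal,
        (if P (a.1 * a.2) (b.1 * b.2) then XX p q bad κ₁ κ₂ a.1 a.2 b.1 b.2 else 0) =
        if P r s then
          (pf (xu p q bad) a.1 * (pf (xu p q bad) a.2 * (jacobiSym (κ₁ * (s : ℤ)) a.2 : ℝ))) *
          (pf (xv p q bad) b.1 * (pf (xt p q bad) b.2 * (jacobiSym (κ₂ * (r : ℤ)) b.2 : ℝ)))
        else 0 := by
      intro a ha b hb
      unfold XX
      rw [(Nat.mem_divisorsAntidiagonal.1 ha).1, (Nat.mem_divisorsAntidiagonal.1 hb).1]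
    rw [Finset.sum_congr rfl fun a ha => Finset.sum_congr rfl fun b hb => e2 a ha b hb]
    by_cases h : P r s
    · simp only [h, if_true]
      unfold EE
      rw [Finset.sum_mul_sum]
    · simp [h]
  have e3 : ∑ r ∈ Icc 1 N, ∑ s ∈ Icc 1 N, (if P r s then EE p q bad κ₁ κ₂ r s else 0) =
      ∑ r ∈ Icc 1 N, ∑ a ∈ r.divisorsAntidiagonal, ∑ s ∈ Icc 1 N, ∑ b ∈ s.divisorsAntidiagonal,
        (if P (a.1 * a.2) (b.1 * b.2) then XX p q bad κ₁ κ₂ a.1 a.2 b.1 b.2 else 0) := by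
    refine Finset.sum_congr rfl fun r _ => ?_
    rw [Finset.sum_comm]
    exact Finset.sum_congr rfl fun s _ => e1 r s
  rw [e3, anti N (fun a₀ a₁ => ∑ s ∈ Icc 1 N, ∑ b ∈ s.divisorsAntidiagonal,
        (if P (a₀ * a₁) (b.1 * b.2) then XX p q bad κ₁ κ₂ a₀ a₁ b.1 b.2 else 0))]
  refine Finset.sum_congr rfl fun a₀ _ => Finset.sum_congr rfl fun a₁ _ => ?_
  rw [anti N (fun b₀ b₁ => if P (a₀ * a₁) (b₀ * b₁) then XX p q bad κ₁ κ₂ a₀ a₁ b₀ b₁ else 0)]
  by_cases h : a₀ * a₁ ≤ N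
  · rw [if_pos h]
    refine Finset.sum_congr rfl fun b₀ _ => Finset.sum_congr rfl fun b₁ _ => ?_
    by_cases h' : b₀ * b₁ ≤ N
    · rw [if_pos h']
    · rw [if_neg h', if_neg (fun h'' => h' (hP _ _ h'').2)]
  · rw [if_neg h]
    symm
    refine Finset.sum_eq_zero fun b₀ _ => Finset.sum_eq_zero fun b₁ _ => ?_
    rw [if_neg (fun h'' => h (hP _ _ h'').1)]

/-- splitting of the square-free condition -/
theorem sqsplit (x y m n : ℕ) : Squarefree (x * m * (n * y)) ↔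
    m.Coprime n ∧ Squarefree (x * m * y) ∧ Squarefree (x * n * y) := by
  constructor
  · intro h
    refine ⟨?_, ?_, ?_⟩
    · have h1 : Squarefree (m * n) := h.squarefree_of_dvd ⟨x * y, by ring⟩
      exact (Nat.squarefree_mul_iff.1 h1).1
    · exact h.squarefree_of_dvd ⟨n, by ring⟩
    · exact h.squarefree_of_dvd ⟨m, by ring⟩
  · rintro ⟨h1, h2, h3⟩
    have e : x * m * (n * y) = m * (x * n * y) := by ring
    rw [e, Nat.squarefree_mul_iff]
    have h4 : Squarefree (m * (x * y)) := by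
      have : m * (x * y) = x * m * y := by ring
      rwa [this]
    have h5 := Nat.squarefree_mul_iff.1 h4
    refine ⟨?_, h5.2.1, h3⟩
    have e2 : x * n * y = n * (x * y) := by ring
    rw [e2]
    exact Nat.Coprime.mul_right h1 h5.1

theorem cosplit (x y m n b : ℕ) : (x * m * (n * y)).Coprime b ↔
    (x * m * y).Coprime b ∧ (x * n * y).Coprime b := by
  simp only [Nat.coprime_mul_iff_left]
  tauto

theorem jac_zero_of {m n : ℕ} (hm : m ≠ 0) (h : ¬ m.Coprime n) : jacobiSym (n : ℤ) m = 0 := by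
  haveI : NeZero m := ⟨hm⟩
  rw [jacobiSym.eq_zero_iff_not_coprime, Int.gcd_natCast_natCast]
  intro h'
  exact h (Nat.coprime_comm.1 h')

end Pool.Agent.J4H17.TW
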