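import Mathlib
import Pool.Agent.J4H17.TW.Do3
import Pool.Agent.J4H17.TW.BL

/-!
# Double oscillation, part 4: the bilinear ranges
-/

set_option autoImplicit false

namespace Pool.Agent.J4H17.TW

open Finset Pool.Agent.J4H76.TW

theorem bil_inner : ∃ C : ℝ, 0 ≤ C ∧ ∀ (N i j c d : ℕ) (V : ℝ) (α β : ℕ → ℝ), 0 < V → 1 ≤ c →
    1 ≤ d → 2 ^ (i + 1) ≤ N → 2 ^ (j + 1) ≤ N → (∀ m, |α m| ≤ 1) → (∀ n, |β n| ≤ 1) →
    (∀ m, α m ≠ 0 → Odd m ∧ Squarefree m ∧ V < m ∧ c * m < 2 ^ (i + 1)) →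
    (∀ n, β n ≠ 0 → Odd n ∧ Squarefree n ∧ V < n ∧ d * n < 2 ^ (j + 1)) →
    |∑ m ∈ Icc 1 N, ∑ n ∈ Icc 1 N, α m * β n * (jacobiSym n m : ℝ)| ≤
      C * ((2 ^ (i + 1) : ℝ) / c) * ((2 ^ (j + 1) : ℝ) / d) * V ^ (-(1 / 4) : ℝ) *
        (1 + Real.log (2 ^ (i + j + 2))) := by
  obtain ⟨C, hC, h⟩ := bl
  refine ⟨C, hC, ?_⟩
  intro N i j c d V α β hV hc hd hi hj hα hβ hsα hsβ
  have hl0 : 0 ≤ Real.log ((2 : ℝ) ^ (i + j + 2)) := Real.log_nonneg (one_le_pow₀ (by norm_num))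
  have hRHS : 0 ≤ C * ((2 ^ (i + 1) : ℝ) / c) * ((2 ^ (j + 1) : ℝ) / d) * V ^ (-(1 / 4) : ℝ) *
        (1 + Real.log (2 ^ (i + j + 2))) := by positivity
  by_cases hA : ∀ m, α m = 0
  · have : ∑ m ∈ Icc 1 N, ∑ n ∈ Icc 1 N, α m * β n * (jacobiSym n m : ℝ) = 0 :=
      Finset.sum_eq_zero fun m _ => Finset.sum_eq_zero fun n _ => by rw [hA m]; ring
    rw [this, abs_zero]; exact hRHS
  by_cases hB : ∀ n, β n = 0
  · have : ∑ m ∈ Icc 1 N, ∑ n ∈ Icc 1 N, α m * β n * (jacobiSym n m : ℝ) = 0 :=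
      Finset.sum_eq_zero fun m _ => Finset.sum_eq_zero fun n _ => by rw [hB n]; ring
    rw [this, abs_zero]; exact hRHS
  push Not at hA hB
  obtain ⟨m₀, hm₀⟩ := hA
  obtain ⟨n₀, hn₀⟩ := hB
  set M := 2 ^ (i + 1) / c with hM
  set N' := 2 ^ (j + 1) / d with hN'
  have hmM : ∀ m, α m ≠ 0 → m ≤ M := by
    intro m hm
    rw [hM, Nat.le_div_iff_mul_le (by omega), mul_comm]
    exact (hsα m hm).2.2.2.le
  have hnN : ∀ n, β n ≠ 0 → n ≤ N' := by
    intro n hn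
    rw [hN', Nat.le_div_iff_mul_le (by omega), mul_comm]
    exact (hsβ n hn).2.2.2.le
  have hVM : V < M := (hsα m₀ hm₀).2.2.1.trans_le (by exact_mod_cast hmM m₀ hm₀)
  have hVN : V < N' := (hsβ n₀ hn₀).2.2.1.trans_le (by exact_mod_cast hnN n₀ hn₀)
  have hM1 : 1 ≤ M := by
    have : (0 : ℝ) < M := hV.trans hVM
    exact_mod_cast this
  have hN1 : 1 ≤ N' := by
    have : (0 : ℝ) < N' := hV.trans hVN
    exact_mod_cast this
  have hMle : M ≤ N := (Nat.div_le_self _ _).trans hi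
  have hNle : N' ≤ N := (Nat.div_le_self _ _).trans hj
  have e1 : ∑ m ∈ Icc 1 N, ∑ n ∈ Icc 1 N, α m * β n * (jacobiSym n m : ℝ) =
      ∑ m ∈ Icc 1 M, ∑ n ∈ Icc 1 N', α m * β n * (jacobiSym n m : ℝ) := by
    symm
    have e2 : ∀ m, ∑ n ∈ Icc 1 N', α m * β n * (jacobiSym n m : ℝ) =
        ∑ n ∈ Icc 1 N, α m * β n * (jacobiSym n m : ℝ) := by
      intro m
      refine Finset.sum_subset (Finset.Icc_subset_Icc_right hNle) fun n hn hn' => ?_
      have : β n = 0 := by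
        by_contra hb
        rw [Finset.mem_Icc] at hn hn'
        exact hn' ⟨hn.1, hnN n hb⟩
      rw [this]; ring
    rw [Finset.sum_congr rfl fun m _ => e2 m]
    refine Finset.sum_subset (Finset.Icc_subset_Icc_right hMle) fun m hm hm' => ?_
    have : α m = 0 := by
      by_contra hb
      rw [Finset.mem_Icc] at hm hm'
      exact hm' ⟨hm.1, hmM m hb⟩
    refine Finset.sum_eq_zero fun n _ => ?_
    rw [this]; ring
  rw [e1]
  have h1 := h M N' α β hM1 hN1 hα hβ (fun m hm => ⟨(hsα m hm).1, (hsα m hm).2.1⟩)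
    (fun n hn => ⟨(hsβ n hn).1, (hsβ n hn).2.1⟩)
  refine h1.trans ?_
  have hMc : (M : ℝ) ≤ (2 ^ (i + 1) : ℝ) / c := by
    have := Nat.cast_div_le (α := ℝ) (m := 2 ^ (i + 1)) (n := c)
    push_cast at this
    exact this
  have hNd : (N' : ℝ) ≤ (2 ^ (j + 1) : ℝ) / d := by
    have := Nat.cast_div_le (α := ℝ) (m := 2 ^ (j + 1)) (n := d)
    push_cast at this
    exact this
  have hMr : (1 : ℝ) ≤ M := by exact_mod_cast hM1
  have hNr : (1 : ℝ) ≤ N' := by exact_mod_cast hN1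
  have hmin : V < ((min M N' : ℕ) : ℝ) := by
    rcases le_total M N' with h' | h'
    · rw [min_eq_left h']; exact hVM
    · rw [min_eq_right h']; exact hVN
  have hpow : ((min M N' : ℕ) : ℝ) ^ (-(1 / 4) : ℝ) ≤ V ^ (-(1 / 4) : ℝ) :=
    Real.rpow_le_rpow_of_nonpos hV hmin.le (by norm_num)
  have hlog : Real.log (M * N') ≤ Real.log ((2 : ℝ) ^ (i + j + 2)) := by
    apply Real.log_le_log (by positivity)
    have g1 : (M : ℝ) ≤ 2 ^ (i + 1) := by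
      have : M ≤ 2 ^ (i + 1) := Nat.div_le_self _ _
      exact_mod_cast this
    have g2 : (N' : ℝ) ≤ 2 ^ (j + 1) := by
      have : N' ≤ 2 ^ (j + 1) := Nat.div_le_self _ _
      exact_mod_cast this
    calc (M : ℝ) * N' ≤ 2 ^ (i + 1) * 2 ^ (j + 1) := mul_le_mul g1 g2 (by positivity) (by positivity)
      _ = 2 ^ (i + j + 2) := by rw [← pow_add]; congr 1; ring
  have hlog0 : 0 ≤ Real.log ((M : ℝ) * N') := Real.log_nonneg (by nlinarith)
  refine mul_le_mul ?_ (by linarith) (by linarith) (by positivity)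
  refine mul_le_mul ?_ hpow (by positivity) (by positivity)
  refine mul_le_mul ?_ hNd (by positivity) (by positivity)
  exact mul_le_mul_of_nonneg_left hMc hC

variable (p q : ℤ) (bad : ℕ) (κ₁ κ₂ : ℤ)

/-- the condition on the quadruples in a dyadic block -/
def QB (i j a₀ a₁ b₀ b₁ : ℕ) : Prop :=
  (Nat.log 2 (a₀ * a₁) = i ∧ Nat.log 2 (b₀ * b₁) = j) ∧
    Squarefree (a₀ * a₁ * (b₀ * b₁)) ∧ (a₀ * a₁ * (b₀ * b₁)).Coprime bad

open Classical in
noncomputable def al1 (V : ℝ) (i c d : ℕ) (m : ℕ) : ℝ :=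
  if (Nat.log 2 (c * m) = i ∧ Squarefree (c * m * d) ∧ (c * m * d).Coprime bad ∧ V < m) then
    pf (xu p q bad) m * (jacobiSym (κ₁ * (d : ℤ)) m : ℝ) *
      (jacobiSym (κ₂ * ((c * m : ℕ) : ℤ)) d : ℝ) else 0

open Classical in
noncomputable def be1 (V : ℝ) (j c d : ℕ) (n : ℕ) : ℝ :=
  if (Nat.log 2 (n * d) = j ∧ Squarefree (c * n * d) ∧ (c * n * d).Coprime bad ∧ V < n) then
    pf (xv p q bad) n else 0

open Classical in
theorem ptI (V : ℝ) (hV : 0 < V) (i j a₀ m n b₁ : ℕ) :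
    (if (QB bad i j a₀ m n b₁ ∧ V < m ∧ V < n) then XX p q bad κ₁ κ₂ a₀ m n b₁ else 0) =
      (pf (xu p q bad) a₀ * pf (xt p q bad) b₁) *
        (al1 p q bad κ₁ κ₂ V i a₀ b₁ m * be1 p q bad V j a₀ b₁ n * (jacobiSym n m : ℝ)) := by
  by_cases hco : m.Coprime n
  · have hiff : (QB bad i j a₀ m n b₁ ∧ V < m ∧ V < n) ↔
        (Nat.log 2 (a₀ * m) = i ∧ Squarefree (a₀ * m * b₁) ∧ (a₀ * m * b₁).Coprime bad ∧ V < m) ∧
        (Nat.log 2 (n * b₁) = j ∧ Squarefree (a₀ * n * b₁) ∧ (a₀ * n * b₁).Coprime bad ∧ V < n) := by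
      unfold QB
      rw [sqsplit, cosplit]
      tauto
    unfold al1 be1
    by_cases h1 : (Nat.log 2 (a₀ * m) = i ∧ Squarefree (a₀ * m * b₁) ∧
        (a₀ * m * b₁).Coprime bad ∧ V < m)
    · by_cases h2 : (Nat.log 2 (n * b₁) = j ∧ Squarefree (a₀ * n * b₁) ∧
          (a₀ * n * b₁).Coprime bad ∧ V < n)
      · rw [if_pos (hiff.2 ⟨h1, h2⟩), if_pos h1, if_pos h2]
        unfold XX
        have e : κ₁ * ((n * b₁ : ℕ) : ℤ) = (κ₁ * (b₁ : ℤ)) * (n : ℤ) := by push_cast; ring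
        rw [e, jacobiSym.mul_left (κ₁ * (b₁ : ℤ)) (n : ℤ)]
        push_cast
        ring
      · rw [if_neg (fun h => h2 (hiff.1 h).2), if_neg h2]; ring
    · rw [if_neg (fun h => h1 (hiff.1 h).1), if_neg h1]; ring
  · have h1 : ¬ (QB bad i j a₀ m n b₁ ∧ V < m ∧ V < n) := by
      rintro ⟨⟨_, hsq, _⟩, _⟩
      rw [sqsplit] at hsq
      exact hco hsq.1
    rw [if_neg h1]
    by_cases hm : m = 0
    · have : al1 p q bad κ₁ κ₂ V i a₀ b₁ m = 0 := by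
        unfold al1
        rw [if_neg]
        rintro ⟨_, _, _, h⟩
        rw [hm] at h
        push_cast at h
        linarith
      rw [this]; ring
    · rw [jac_zero_of hm hco]; push_cast; ring

open Classical in
noncomputable def al2 (V : ℝ) (j c d : ℕ) (m : ℕ) : ℝ :=
  if (Nat.log 2 (c * m) = j ∧ Squarefree (d * m * c) ∧ (d * m * c).Coprime bad ∧ V < m) then
    pf (xt p q bad) m * (jacobiSym (κ₂ * (d : ℤ)) m : ℝ) *
      (jacobiSym (κ₁ * ((c * m : ℕ) : ℤ)) d : ℝ) else 0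

open Classical in
noncomputable def be2 (V : ℝ) (i c d : ℕ) (n : ℕ) : ℝ :=
  if (Nat.log 2 (n * d) = i ∧ Squarefree (d * n * c) ∧ (d * n * c).Coprime bad ∧ V < n) then
    pf (xu p q bad) n else 0

open Classical in
theorem ptII (V : ℝ) (hV : 0 < V) (i j n a₁ b₀ m : ℕ) :
    (if (QB bad i j n a₁ b₀ m ∧ V < n ∧ V < m) then XX p q bad κ₁ κ₂ n a₁ b₀ m else 0) =
      (pf (xu p q bad) a₁ * pf (xv p q bad) b₀) *
        (al2 p q bad κ₁ κ₂ V j b₀ a₁ m * be2 p q bad V i b₀ a₁ n * (jacobiSym n m : ℝ)) := by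
  have e0 : n * a₁ * (b₀ * m) = a₁ * m * (n * b₀) := by ring
  by_cases hco : m.Coprime n
  · have hiff : (QB bad i j n a₁ b₀ m ∧ V < n ∧ V < m) ↔
        (Nat.log 2 (b₀ * m) = j ∧ Squarefree (a₁ * m * b₀) ∧ (a₁ * m * b₀).Coprime bad ∧ V < m) ∧
        (Nat.log 2 (n * a₁) = i ∧ Squarefree (a₁ * n * b₀) ∧ (a₁ * n * b₀).Coprime bad ∧ V < n) := by
      unfold QB
      rw [e0, sqsplit, cosplit]
      tauto
    unfold al2 be2
    by_cases h1 : (Nat.log 2 (b₀ * m) = j ∧ Squarefree (a₁ * m * b₀) ∧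
        (a₁ * m * b₀).Coprime bad ∧ V < m)
    · by_cases h2 : (Nat.log 2 (n * a₁) = i ∧ Squarefree (a₁ * n * b₀) ∧
          (a₁ * n * b₀).Coprime bad ∧ V < n)
      · rw [if_pos (hiff.2 ⟨h1, h2⟩), if_pos h1, if_pos h2]
        unfold XX
        have e : κ₂ * ((n * a₁ : ℕ) : ℤ) = (κ₂ * (a₁ : ℤ)) * (n : ℤ) := by push_cast; ring
        rw [e, jacobiSym.mul_left (κ₂ * (a₁ : ℤ)) (n : ℤ)]
        push_cast
        ring
      · rw [if_neg (fun h => h2 (hiff.1 h).2), if_neg h2]; ring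
    · rw [if_neg (fun h => h1 (hiff.1 h).1), if_neg h1]; ring
  · have h1 : ¬ (QB bad i j n a₁ b₀ m ∧ V < n ∧ V < m) := by
      rintro ⟨⟨_, hsq, _⟩, _⟩
      rw [e0, sqsplit] at hsq
      exact hco hsq.1
    rw [if_neg h1]
    by_cases hm : m = 0
    · have : al2 p q bad κ₁ κ₂ V j b₀ a₁ m = 0 := by
        unfold al2
        rw [if_neg]
        rintro ⟨_, _, _, h⟩
        rw [hm] at h
        push_cast at h
        linarith
      rw [this]; ring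
    · rw [jac_zero_of hm hco]; push_cast; ring

theorem abs_pf_one {f : ℕ → ℝ} (h : ∀ l : ℕ, l.Prime → |f l| ≤ 1) (n : ℕ) : |pf f n| ≤ 1 :=
  (abs_pf_le (g := fun _ => 1) h n).trans (by unfold pf; simp)

theorem abs_xu (l : ℕ) : |xu p q bad l| ≤ 1 := by
  rw [abs_of_nonneg (xu_nonneg p q bad l)]; exact xu_le p q bad l

theorem abs_xv {l : ℕ} (hl : l.Prime) : |xv p q bad l| ≤ 1 := by
  rw [abs_of_nonneg (xv_nonneg p q bad l)]; exact (xv_le p q bad hl).trans (xp_le p q bad l)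

theorem abs_xt {l : ℕ} (hl : l.Prime) : |xt p q bad l| ≤ 1 :=
  (abs_xt_le p q bad hl).trans (xp_le p q bad l)

theorem abs_mul3 {x y z : ℝ} (hx : |x| ≤ 1) (hy : |y| ≤ 1) (hz : |z| ≤ 1) : |x * y * z| ≤ 1 := by
  rw [abs_mul, abs_mul]
  exact mul_le_one₀ (mul_le_one₀ hx (abs_nonneg _) hy) (abs_nonneg _) hz

theorem odd_of_cop {m b : ℕ} (hb : 2 ∣ b) (h : m.Coprime b) : Odd m := by
  rw [← Nat.not_even_iff_odd, even_iff_two_dvd]
  intro h'
  have := Nat.dvd_gcd h' hb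
  rw [Nat.Coprime.gcd_eq_one h] at this
  norm_num at this

end Pool.Agent.J4H17.TW
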