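import Mathlib
import Pool.Agent.J4H17.TW.HT
import Pool.Agent.Helper919.NonRes

/-!
# Numbers all of whose prime factors split in a quadratic field
-/

set_option autoImplicit false

namespace Pool.Agent.J4H17.TW

open Finset Pool.Agent.J4H76.TW

/-- The Jacobi character `n ↦ (a / n)` for odd `n`, zero for even `n`. -/
def chi (a : ℤ) (n : ℕ) : ℤ := if Odd n then jacobiSym a n else 0

theorem chi_zero (a : ℤ) : chi a 0 = 0 := by simp [chi]

theorem chi_one (a : ℤ) : chi a 1 = 1 := by simp [chi, jacobiSym.one_right]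

theorem chi_mul (a : ℤ) (m n : ℕ) : chi a (m * n) = chi a m * chi a n := by
  unfold chi
  by_cases hm : Odd m
  · by_cases hn : Odd n
    · rw [if_pos hm, if_pos hn, if_pos (hm.mul hn)]
      exact jacobiSym.mul_right' a (by rintro rfl; simp at hm) (by rintro rfl; simp at hn)
    · rw [if_neg hn, if_neg, mul_zero]
      intro h
      exact hn (Nat.odd_mul.1 h).2
  · rw [if_neg hm, if_neg, zero_mul]
    intro h
    exact hm (Nat.odd_mul.1 h).1

theorem chi_tri (a : ℤ) (n : ℕ) : chi a n = 0 ∨ chi a n = 1 ∨ chi a n = -1 := by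
  unfold chi
  split_ifs
  · exact jacobiSym.trichotomy a n
  · exact Or.inl rfl

theorem abs_chi_le (a : ℤ) (n : ℕ) : |(chi a n : ℝ)| ≤ 1 := by
  rcases chi_tri a n with h | h | h <;> rw [h] <;> simp

theorem chi_mod (a : ℤ) (n : ℕ) : chi a (n % (4 * a.natAbs)) = chi a n := by
  have h : Odd (n % (4 * a.natAbs)) ↔ Odd n := by
    rw [Nat.odd_iff, Nat.odd_iff, Nat.mod_mod_of_dvd]
    exact ⟨2 * a.natAbs, by ring⟩
  unfold chi
  by_cases hn : Odd n
  · rw [if_pos hn, if_pos (h.2 hn), ← jacobiSym.mod_right a hn]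
  · rw [if_neg hn, if_neg (fun h' => hn (h.1 h'))]

theorem chi_add (a : ℤ) (n : ℕ) : chi a (n + 4 * a.natAbs) = chi a n := by
  rw [← chi_mod a (n + 4 * a.natAbs), Nat.add_mod_right, chi_mod]

theorem chi_period {a : ℤ} (ha : ¬ IsSquare a) : ∑ n ∈ range (4 * a.natAbs), chi a n = 0 := by
  classical
  obtain ⟨d, hd, hJ⟩ := Pool.Agent.Helper919.exists_jacobi_neg_one a ha
  have hd0 : d ≠ 0 := by rintro rfl; simp at hd
  have : NeZero d := ⟨hd0⟩
  have hco : a.gcd d = 1 := by
    by_contra h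
    have := jacobiSym.eq_zero_iff_not_coprime.2 h
    rw [hJ] at this
    norm_num at this
  have hco2 : Nat.Coprime (4 * a.natAbs) d := by
    have h1 : Nat.Coprime a.natAbs d := by
      rw [Int.gcd_eq_natAbs] at hco
      simpa using hco
    have h2 : Nat.Coprime 4 d := by
      have : Nat.Coprime 2 d := (Nat.coprime_two_left).2 hd
      have h4 : (4 : ℕ) = 2 ^ 2 := by norm_num
      rw [h4]
      exact Nat.Coprime.pow_left 2 this
    exact Nat.Coprime.mul_left h2 h1
  have ha0 : a ≠ 0 := by rintro rfl; exact ha ⟨0, by simp⟩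
  set q := 4 * a.natAbs with hq
  have hq0 : 0 < q := by
    have := Int.natAbs_pos.2 ha0
    omega
  have hinj : Set.InjOn (fun n => (d * n) % q) (range q : Set ℕ) := by
    intro m hm n hn hmn
    have hm' := Finset.mem_range.1 (Finset.mem_coe.1 hm)
    have hn' := Finset.mem_range.1 (Finset.mem_coe.1 hn)
    have h1 : d * m ≡ d * n [MOD q] := hmn
    have h2 : m ≡ n [MOD q] := Nat.ModEq.cancel_left_of_coprime hco2 h1
    have h3 : m % q = n % q := h2
    rwa [Nat.mod_eq_of_lt hm', Nat.mod_eq_of_lt hn'] at h3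
  have himg : (range q).image (fun n => (d * n) % q) = range q := by
    refine Finset.eq_of_subset_of_card_le ?_ ?_
    · intro x hx
      obtain ⟨n, _, rfl⟩ := Finset.mem_image.1 hx
      exact Finset.mem_range.2 (Nat.mod_lt _ hq0)
    · rw [Finset.card_image_of_injOn hinj]
  have h1 : ∑ n ∈ range q, chi a n = ∑ n ∈ range q, chi a ((d * n) % q) := by
    conv_lhs => rw [← himg]
    rw [Finset.sum_image hinj]
  have h2 : ∑ n ∈ range q, chi a ((d * n) % q) = - ∑ n ∈ range q, chi a n := by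
    rw [← Finset.sum_neg_distrib]
    refine Finset.sum_congr rfl fun n _ => ?_
    rw [hq, chi_mod, chi_mul]
    have : chi a d = -1 := by rw [chi, if_pos hd, hJ]
    rw [this]; ring
  rw [h2] at h1
  omega

theorem chi_block {a : ℤ} (ha : ¬ IsSquare a) (n : ℕ) :
    ∑ i ∈ range (n + 4 * a.natAbs), chi a i = ∑ i ∈ range n, chi a i := by
  induction n with
  | zero => rw [zero_add, chi_period ha]; simp
  | succ n ih =>
    rw [Nat.succ_add, Finset.sum_range_succ, ih, chi_add, Finset.sum_range_succ]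

theorem chi_partial {a : ℤ} (ha : ¬ IsSquare a) (n : ℕ) :
    |∑ i ∈ range n, chi a i| ≤ 4 * a.natAbs := by
  induction n using Nat.strong_induction_on with
  | _ n ih =>
    by_cases hn : n < 4 * a.natAbs
    · calc |∑ i ∈ range n, chi a i| ≤ ∑ i ∈ range n, |chi a i| := Finset.abs_sum_le_sum_abs _ _
        _ ≤ ∑ i ∈ range n, (1 : ℤ) := by
          refine Finset.sum_le_sum fun i _ => ?_
          rcases chi_tri a i with h | h | h <;> rw [h] <;> simp
        _ ≤ 4 * a.natAbs := by
          rw [Finset.sum_const, card_range, nsmul_eq_mul, mul_one]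
          exact_mod_cast hn.le
    · have ha0 : a ≠ 0 := by rintro rfl; exact ha ⟨0, by simp⟩
      have hq0 : 0 < a.natAbs := Int.natAbs_pos.2 ha0
      obtain ⟨m, rfl⟩ : ∃ m, n = m + 4 * a.natAbs := ⟨n - 4 * a.natAbs, by omega⟩
      rw [chi_block ha]
      exact ih m (by omega)

theorem abel_bd (f g : ℕ → ℝ) (Q : ℝ) (hf : Antitone f) (hf0 : ∀ n, 0 ≤ f n)
    (hg : ∀ n, |∑ i ∈ range n, g i| ≤ Q) (n : ℕ) : |∑ i ∈ range n, f i * g i| ≤ Q * f 0 := by
  have hQ : 0 ≤ Q := (abs_nonneg _).trans (hg 0)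
  have h := Finset.sum_range_by_parts f g n
  simp only [smul_eq_mul] at h
  rw [h]
  calc |f (n - 1) * ∑ i ∈ range n, g i
        - ∑ i ∈ range (n - 1), (f (i + 1) - f i) * ∑ j ∈ range (i + 1), g j|
      ≤ |f (n - 1) * ∑ i ∈ range n, g i|
        + |∑ i ∈ range (n - 1), (f (i + 1) - f i) * ∑ j ∈ range (i + 1), g j| := abs_sub _ _
    _ ≤ f (n - 1) * Q + ∑ i ∈ range (n - 1), (f i - f (i + 1)) * Q := by
        refine add_le_add ?_ ?_
        · rw [abs_mul, abs_of_nonneg (hf0 _)]
          exact mul_le_mul_of_nonneg_left (hg n) (hf0 _)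
        · refine (Finset.abs_sum_le_sum_abs _ _).trans (Finset.sum_le_sum fun i _ => ?_)
          rw [abs_mul, abs_sub_comm, abs_of_nonneg (sub_nonneg.2 (hf (Nat.le_succ i)))]
          exact mul_le_mul_of_nonneg_left (hg _) (sub_nonneg.2 (hf (Nat.le_succ i)))
    _ = Q * f 0 := by
        rw [← Finset.sum_mul, Finset.sum_range_sub' f (n - 1)]
        ring

theorem harm_bd (N : ℕ) : ∑ i ∈ Icc 1 N, (1 : ℝ) / i ≤ 1 + Real.log N := by
  have h := harmonic_le_one_add_log N
  rw [harmonic_eq_sum_Icc] at h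
  push_cast at h
  simpa [one_div] using h

theorem L_bd {a : ℤ} (ha : ¬ IsSquare a) (Z : ℕ) :
    |∑ d ∈ Icc 1 Z, (chi a d : ℝ) / d| ≤ 2 + Real.log (4 * a.natAbs) := by
  have ha0 : a ≠ 0 := by rintro rfl; exact ha ⟨0, by simp⟩
  have hA : 1 ≤ a.natAbs := Int.natAbs_pos.2 ha0
  set q := 4 * a.natAbs with hq
  have hqr : ((q : ℕ) : ℝ) = 4 * a.natAbs := by rw [hq]; push_cast; ring
  rw [← hqr]
  have triv : ∀ Z : ℕ, |∑ d ∈ Icc 1 Z, (chi a d : ℝ) / d| ≤ 1 + Real.log Z := by
    intro Z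
    refine (Finset.abs_sum_le_sum_abs _ _).trans (le_trans ?_ (harm_bd Z))
    refine Finset.sum_le_sum fun d _ => ?_
    rw [abs_div, Nat.abs_cast]
    exact div_le_div_of_nonneg_right (abs_chi_le a d) (Nat.cast_nonneg d)
  by_cases hZ : Z ≤ q
  · rcases Nat.eq_zero_or_pos Z with rfl | hZ0
    · have : 0 ≤ Real.log (q : ℝ) := Real.log_natCast_nonneg q
      simp only [Finset.Icc_eq_empty_of_lt (by norm_num : (0 : ℕ) < 1), Finset.sum_empty, abs_zero]
      linarith
    · have h1 := triv Z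
      have h2 : Real.log Z ≤ Real.log q :=
        Real.log_le_log (by exact_mod_cast hZ0) (by exact_mod_cast hZ)
      linarith
  · push Not at hZ
    obtain ⟨n, rfl⟩ : ∃ n, Z = q + n := ⟨Z - q, by omega⟩
    have hsplit : ∑ d ∈ Icc 1 (q + n), (chi a d : ℝ) / d =
        ∑ d ∈ Icc 1 q, (chi a d : ℝ) / d +
          ∑ i ∈ range n, (1 / ((q + 1 + i : ℕ) : ℝ)) * (chi a (q + 1 + i) : ℝ) := by
      clear hZ
      induction n with
      | zero => simp
      | succ n ih =>
        rw [← add_assoc, Finset.sum_Icc_succ_top (by omega), ih, Finset.sum_range_succ, add_assoc]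
        congr 2
        have : q + 1 + n = q + n + 1 := by ring
        rw [this]; ring
    rw [hsplit]
    have h2 : |∑ i ∈ range n, (1 / ((q + 1 + i : ℕ) : ℝ)) * (chi a (q + 1 + i) : ℝ)| ≤
        (q : ℝ) * (1 / ((q + 1 + 0 : ℕ) : ℝ)) := by
      refine abel_bd (fun i => 1 / ((q + 1 + i : ℕ) : ℝ)) (fun i => (chi a (q + 1 + i) : ℝ)) q
        ?_ ?_ ?_ n
      · intro i j hij
        refine one_div_le_one_div_of_le (by positivity) ?_
        exact_mod_cast Nat.add_le_add_left hij _
      · intro i; positivity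
      · intro m
        have e : ∑ i ∈ range m, chi a (q + 1 + i) = ∑ i ∈ range (m + 1), chi a i := by
          have e1 : ∀ m : ℕ, ∑ i ∈ range m, chi a (q + 1 + i) = ∑ i ∈ range m, chi a (1 + i) := by
            intro m
            refine Finset.sum_congr rfl fun i _ => ?_
            have : q + 1 + i = (1 + i) + 4 * a.natAbs := by omega
            rw [this, chi_add]
          rw [e1, Finset.sum_range_succ', chi_zero, add_zero]
          exact Finset.sum_congr rfl fun i _ => by rw [add_comm]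
        have h3 := chi_partial ha (m + 1)
        rw [← e] at h3
        have h4 : |((∑ i ∈ range m, chi a (q + 1 + i) : ℤ) : ℝ)| ≤ ((4 * a.natAbs : ℤ) : ℝ) := by
          rw [← Int.cast_abs]
          exact_mod_cast h3
        have h5 : ((4 * a.natAbs : ℤ) : ℝ) = (q : ℝ) := by
          rw [hqr]; push_cast; rw [Nat.cast_natAbs, Int.cast_abs]
        rw [h5] at h4
        push_cast at h4
        exact h4
    have h6 : (q : ℝ) * (1 / ((q + 1 + 0 : ℕ) : ℝ)) ≤ 1 := by
      rw [mul_one_div, div_le_one (by positivity)]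
      push_cast; linarith
    have h7 := triv q
    calc |∑ d ∈ Icc 1 q, (chi a d : ℝ) / d +
          ∑ i ∈ range n, (1 / ((q + 1 + i : ℕ) : ℝ)) * (chi a (q + 1 + i) : ℝ)|
        ≤ |∑ d ∈ Icc 1 q, (chi a d : ℝ) / d| +
          |∑ i ∈ range n, (1 / ((q + 1 + i : ℕ) : ℝ)) * (chi a (q + 1 + i) : ℝ)| := abs_add_le _ _
      _ ≤ (1 + Real.log q) + 1 := add_le_add h7 (h2.trans h6)
      _ = 2 + Real.log q := by ring

/-- The divisor sums of the character. -/
def RR (a : ℤ) (k : ℕ) : ℤ := ∑ d ∈ k.divisors, chi a d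

theorem chi_pow (a : ℤ) (p i : ℕ) : chi a (p ^ i) = chi a p ^ i := by
  induction i with
  | zero => simp [chi_one]
  | succ i ih => rw [pow_succ, chi_mul, ih, pow_succ]

theorem RR_nonneg (a : ℤ) (k : ℕ) : 0 ≤ RR a k := by
  rcases eq_or_ne k 0 with rfl | hk
  · simp [RR]
  set f : ArithmeticFunction ℤ := ⟨chi a, chi_zero a⟩ with hf
  have hfm : f.IsMultiplicative := ⟨chi_one a, fun {m n} _ => chi_mul a m n⟩
  have hF : (f * (ArithmeticFunction.zeta : ArithmeticFunction ℤ)).IsMultiplicative :=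
    hfm.mul ArithmeticFunction.isMultiplicative_zeta.natCast
  have e : ∀ n, RR a n = (f * (ArithmeticFunction.zeta : ArithmeticFunction ℤ)) n := by
    intro n
    rw [ArithmeticFunction.coe_mul_zeta_apply]
    rfl
  rw [e, ArithmeticFunction.IsMultiplicative.multiplicative_factorization _ hF hk]
  refine Finset.prod_nonneg fun p hp => ?_
  have hpp : p.Prime := Nat.prime_of_mem_primeFactors (by simpa using hp)
  show 0 ≤ (f * (ArithmeticFunction.zeta : ArithmeticFunction ℤ)) (p ^ (k.factorization p))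
  rw [← e, RR, Nat.sum_divisors_prime_pow hpp]
  have e2 : ∑ i ∈ range (k.factorization p + 1), chi a (p ^ i) =
      ∑ i ∈ range (k.factorization p + 1), (chi a p) ^ i :=
    Finset.sum_congr rfl fun i _ => chi_pow a p i
  rw [e2]
  rcases chi_tri a p with h | h | h <;> rw [h]
  · rw [Finset.sum_range_succ']
    simp
  · simp
    positivity
  · rw [neg_one_geom_sum]
    split_ifs <;> norm_num

theorem chi_eq_one {a : ℤ} (d : ℕ) (hd : d ≠ 0) (h : ∀ p : ℕ, p.Prime → p ∣ d → chi a p = 1) :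
    chi a d = 1 := by
  induction d using induction_on_primes with
  | zero => exact absurd rfl hd
  | one => exact chi_one a
  | prime_mul p m hp ih =>
    rw [chi_mul, h p hp (Dvd.intro _ rfl), one_mul]
    refine ih (by rintro rfl; simp at hd) fun p' hp' hd' => h p' hp' (Dvd.dvd.mul_left hd' p)

/-- Sums of the divisor sums. -/
theorem sum_RR {a : ℤ} (ha : ¬ IsSquare a) (K : ℕ) :
    ∑ k ∈ Icc 1 K, (RR a k : ℝ) / k ≤ (1 + Real.log K) * (2 + Real.log (4 * a.natAbs)) := by
  set u : ArithmeticFunction ℝ := ⟨fun n => 1 / (n : ℝ), by simp⟩ with hu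
  set v : ArithmeticFunction ℝ := ⟨fun n => (chi a n : ℝ) / n, by simp⟩ with hv
  have e : ∀ k, (u * v) k = (RR a k : ℝ) / k := by
    intro k
    rw [ArithmeticFunction.mul_apply]
    have e1 : ∀ x ∈ k.divisorsAntidiagonal, u x.1 * v x.2 = (chi a x.2 : ℝ) / k := by
      intro x hx
      have hx' := (Nat.mem_divisorsAntidiagonal.1 hx).1
      rw [hu, hv]
      simp only [ArithmeticFunction.coe_mk]
      rw [← hx']
      push_cast
      rw [div_mul_div_comm, one_mul]
    rw [Finset.sum_congr rfl e1, ← Finset.sum_div, RR]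
    congr 1
    rw [Nat.sum_divisorsAntidiagonal' (fun _ d => (chi a d : ℝ))]
    push_cast
    rfl
  have h1 := ArithmeticFunction.sum_Ioc_mul_eq_sum_sum u v K
  have e0 : ∀ N : ℕ, Ioc 0 N = Icc 1 N := fun N => by ext; simp [Nat.succ_le_iff]
  simp only [e0, e] at h1
  rw [h1]
  have hl : 0 ≤ Real.log (4 * a.natAbs : ℝ) := by
    have ha0 : a ≠ 0 := by rintro rfl; exact ha ⟨0, by simp⟩
    have hA : 1 ≤ a.natAbs := Int.natAbs_pos.2 ha0
    have : (1 : ℝ) ≤ a.natAbs := by exact_mod_cast hA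
    exact Real.log_nonneg (by linarith)
  calc ∑ n ∈ Icc 1 K, u n * ∑ m ∈ Icc 1 (K / n), v m
      ≤ ∑ n ∈ Icc 1 K, (1 / (n : ℝ)) * (2 + Real.log (4 * a.natAbs)) := by
        refine Finset.sum_le_sum fun n _ => ?_
        rw [hu]
        simp only [ArithmeticFunction.coe_mk]
        refine mul_le_mul_of_nonneg_left ?_ (by positivity)
        exact (le_abs_self _).trans (L_bd ha (K / n))
    _ = (∑ n ∈ Icc 1 K, 1 / (n : ℝ)) * (2 + Real.log (4 * a.natAbs)) := by rw [Finset.sum_mul]
    _ ≤ _ := mul_le_mul_of_nonneg_right (harm_bd K) (by linarith)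

open Classical in
/-- The set of the numbers considered. -/
noncomputable def GG (a : ℤ) (N : ℕ) : Finset ℕ :=
  (Icc 1 N).filter (fun n => Odd n ∧ Squarefree n ∧ ∀ p ∈ n.primeFactors, jacobiSym a p = 1)

theorem GG_chi {a : ℤ} {N m p : ℕ} (hm : m ∈ GG a N) (hp : p.Prime) (hpm : p ∣ m) :
    chi a p = 1 := by
  classical
  unfold GG at hm
  rw [Finset.mem_filter, Finset.mem_Icc] at hm
  have hodd : Odd p := by
    rcases hp.eq_two_or_odd' with rfl | h
    · exact absurd hm.2.1 (by rw [Nat.not_odd_iff_even]; exact even_iff_two_dvd.2 hpm)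
    · exact h
  rw [chi, if_pos hodd]
  exact hm.2.2.2 p (Nat.mem_primeFactors.2 ⟨hp, hpm, by omega⟩)

theorem GG_sq {a : ℤ} (ha : ¬ IsSquare a) (N : ℕ) :
    (∑ n ∈ GG a N, 1 / (n : ℝ)) ^ 2 ≤
      (1 + Real.log (N ^ 2 : ℕ)) * (2 + Real.log (4 * a.natAbs)) := by
  classical
  refine le_trans ?_ (sum_RR ha (N ^ 2))
  have hG : ∀ n ∈ GG a N, 1 ≤ n ∧ n ≤ N := by
    intro n hn
    unfold GG at hn
    rw [Finset.mem_filter, Finset.mem_Icc] at hn
    exact hn.1
  have e1 : (∑ n ∈ GG a N, 1 / (n : ℝ)) ^ 2 =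
      ∑ x ∈ GG a N ×ˢ GG a N, 1 / ((x.1 * x.2 : ℕ) : ℝ) := by
    rw [pow_two, Finset.sum_mul_sum, Finset.sum_product]
    refine Finset.sum_congr rfl fun i _ => Finset.sum_congr rfl fun j _ => ?_
    push_cast
    rw [div_mul_div_comm, one_mul]
  have e2 : ∑ x ∈ GG a N ×ˢ GG a N, 1 / ((x.1 * x.2 : ℕ) : ℝ) =
      ∑ k ∈ Icc 1 (N ^ 2), ∑ x ∈ (GG a N ×ˢ GG a N).filter (fun x => x.1 * x.2 = k),
        1 / ((x.1 * x.2 : ℕ) : ℝ) := by
    rw [Finset.sum_fiberwise_of_maps_to]
    intro x hx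
    rw [Finset.mem_product] at hx
    have h1 := hG _ hx.1
    have h2 := hG _ hx.2
    rw [Finset.mem_Icc]
    refine ⟨Nat.mul_pos h1.1 h2.1, ?_⟩
    rw [pow_two]
    exact Nat.mul_le_mul h1.2 h2.2
  rw [e1, e2]
  refine Finset.sum_le_sum fun k hk => ?_
  rw [Finset.mem_Icc] at hk
  have hk0 : k ≠ 0 := by omega
  have e3 : ∑ x ∈ (GG a N ×ˢ GG a N).filter (fun x => x.1 * x.2 = k),
        1 / ((x.1 * x.2 : ℕ) : ℝ) =
      (((GG a N ×ˢ GG a N).filter (fun x => x.1 * x.2 = k)).card : ℝ) / k := by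
    rw [Finset.sum_congr rfl (g := fun _ => 1 / (k : ℝ)), Finset.sum_const, nsmul_eq_mul]
    · ring
    · intro x hx
      rw [(Finset.mem_filter.1 hx).2]
  rw [e3]
  refine div_le_div_of_nonneg_right ?_ (Nat.cast_nonneg k)
  set F := (GG a N ×ˢ GG a N).filter (fun x => x.1 * x.2 = k) with hF
  rcases F.eq_empty_or_nonempty with hem | ⟨x₀, hx₀⟩
  · rw [hem]
    have := RR_nonneg a k
    simp only [Finset.card_empty, Nat.cast_zero]
    exact_mod_cast this
  · have hx₀' := hx₀
    rw [hF, Finset.mem_filter, Finset.mem_product] at hx₀'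
    obtain ⟨⟨hx1, hx2⟩, hx3⟩ := hx₀'
    have hR : RR a k = (k.divisors.card : ℤ) := by
      rw [RR, Finset.sum_congr rfl (g := fun _ => (1 : ℤ))]
      · simp
      · intro d hd
        have hdk := Nat.dvd_of_mem_divisors hd
        refine chi_eq_one d (fun h => hk0 (by rw [h] at hdk; exact Nat.eq_zero_of_zero_dvd hdk)) ?_
        intro p hp hpd
        have hpk : p ∣ x₀.1 * x₀.2 := by rw [hx3]; exact hpd.trans hdk
        rcases (Nat.Prime.dvd_mul hp).1 hpk with h | h
        · exact GG_chi hx1 hp h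
        · exact GG_chi hx2 hp h
    rw [hR]
    have hcard : F.card ≤ k.divisors.card := by
      refine Finset.card_le_card_of_injOn (fun x => x.1) ?_ ?_
      · intro x hx
        have := (Finset.mem_filter.1 (Finset.mem_coe.1 hx)).2
        exact Finset.mem_coe.2 (Nat.mem_divisors.2 ⟨⟨x.2, this.symm⟩, hk0⟩)
      · intro x hx y hy hxy
        have h1 := (Finset.mem_filter.1 (Finset.mem_coe.1 hx)).2
        have h2 := (Finset.mem_filter.1 (Finset.mem_coe.1 hy)).2
        simp only at hxy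
        have hx0 : 0 < x.1 := Nat.pos_of_ne_zero (by rintro h; rw [h, zero_mul] at h1; omega)
        refine Prod.ext hxy ?_
        refine Nat.eq_of_mul_eq_mul_left hx0 ?_
        rw [h1, hxy, h2]
    exact_mod_cast hcard

/-- Job QR. -/
theorem qr : StQR := by
  classical
  refine ⟨(Real.log 4 + 1) * Real.sqrt 20, ?_, ?_⟩
  · have : 0 ≤ Real.log 4 := Real.log_nonneg (by norm_num)
    positivity
  intro a ha X hX
  set N := ⌊X⌋₊ with hN
  have hX0 : 0 ≤ X := by linarith
  have hNX : (N : ℝ) ≤ X := Nat.floor_le hX0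
  have hN2 : 2 ≤ N := Nat.le_floor (by exact_mod_cast hX)
  have hlX : 0 < Real.log X := Real.log_pos (by linarith)
  have ha0 : a ≠ 0 := by rintro rfl; exact ha ⟨0, by simp⟩
  have hA : 1 ≤ a.natAbs := Int.natAbs_pos.2 ha0
  have hAr : (1 : ℝ) ≤ |(a : ℝ)| := by
    rw [← Int.cast_abs, Int.abs_eq_natAbs]
    exact_mod_cast hA
  set h : ℕ → ℝ := fun p => if Odd p ∧ jacobiSym a p = 1 then 1 else 0 with hh
  have hh1 : ∀ p, 0 ≤ h p ∧ h p ≤ 1 := by
    intro p
    simp only [hh]
    split_ifs <;> norm_num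
  have hmf : ∀ n ∈ Icc 1 N, mf h n =
      if (Odd n ∧ Squarefree n ∧ ∀ p ∈ n.primeFactors, jacobiSym a p = 1) then 1 else 0 := by
    intro n hn
    rw [Finset.mem_Icc] at hn
    unfold mf
    by_cases hs : Squarefree n
    · rw [if_pos hs]
      by_cases hall : Odd n ∧ ∀ p ∈ n.primeFactors, jacobiSym a p = 1
      · rw [if_pos ⟨hall.1, hs, hall.2⟩]
        refine Finset.prod_eq_one fun p hp => ?_
        simp only [hh]
        rw [if_pos]
        refine ⟨?_, hall.2 p hp⟩
        exact hall.1.of_dvd_nat (Nat.dvd_of_mem_primeFactors hp)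
      · rw [if_neg (fun h' => hall ⟨h'.1, h'.2.2⟩)]
        rw [Finset.prod_eq_zero_iff]
        by_contra hcon
        push Not at hcon
        have hc2 : ∀ p ∈ n.primeFactors, Odd p ∧ jacobiSym a p = 1 := by
          intro p hp
          have := hcon p hp
          simp only [hh] at this
          by_contra h'
          rw [if_neg h'] at this
          exact this rfl
        refine hall ⟨?_, fun p hp => (hc2 p hp).2⟩
        by_contra hodd
        rw [Nat.not_odd_iff_even, even_iff_two_dvd] at hodd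
        have := (hc2 2 (Nat.mem_primeFactors.2 ⟨Nat.prime_two, hodd, by omega⟩)).1
        exact absurd this (by decide)
    · rw [if_neg hs, if_neg (fun h' => hs h'.2.1)]
  have hcount : (((Icc 1 N).filter (fun n => Odd n ∧ Squarefree n ∧
      ∀ p ∈ n.primeFactors, jacobiSym a p = 1)).card : ℝ) = ∑ n ∈ Icc 1 N, mf h n := by
    rw [Finset.sum_congr rfl hmf, Finset.sum_ite]
    simp
  have hsum : ∑ n ∈ Icc 1 N, mf h n / n = ∑ n ∈ GG a N, 1 / (n : ℝ) := by
    unfold GG
    rw [Finset.sum_filter]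
    refine Finset.sum_congr rfl fun n hn => ?_
    rw [hmf n hn]
    split_ifs <;> simp
  have h1 := part_one (B := 1) zero_le_one hh1 hX
  rw [← hN, hsum] at h1
  have hsq := GG_sq ha N
  set S := ∑ n ∈ GG a N, 1 / (n : ℝ) with hS
  have hS0 : 0 ≤ S := Finset.sum_nonneg fun n _ => by positivity
  set L := Real.log (|(a : ℝ)| + 2) with hL
  have hL1 : 1 ≤ L := by
    rw [hL, Real.le_log_iff_exp_le (by positivity)]
    have := Real.exp_one_lt_d9
    linarith
  have hb1 : 1 + Real.log (N ^ 2 : ℕ) ≤ 4 * Real.log X := by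
    have e : Real.log ((N ^ 2 : ℕ) : ℝ) = 2 * Real.log N := by
      push_cast
      rw [Real.log_pow]; norm_num
    rw [e]
    have h2 : Real.log N ≤ Real.log X := Real.log_le_log (by positivity) hNX
    have h3 : Real.log 2 ≤ Real.log X := Real.log_le_log (by norm_num) hX
    have := Real.log_two_gt_d9
    linarith
  have hb2 : 2 + Real.log (4 * a.natAbs) ≤ 5 * L := by
    have e : (4 * a.natAbs : ℝ) = 4 * |(a : ℝ)| := by
      rw [Nat.cast_natAbs, Int.cast_abs]
    rw [e, Real.log_mul (by norm_num) (by positivity)]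
    have h2 : Real.log |(a : ℝ)| ≤ L := Real.log_le_log (by positivity) (by linarith)
    have h3 : Real.log 4 ≤ 2 := by
      have : (4 : ℝ) = 2 ^ 2 := by norm_num
      rw [this, Real.log_pow]
      have := Real.log_two_lt_d9
      push_cast
      linarith
    linarith
  have hS2 : S ^ 2 ≤ 20 * (Real.log X * L) := by
    refine hsq.trans ?_
    have h2 : 0 ≤ 2 + Real.log (4 * a.natAbs : ℝ) := by
      have : 0 ≤ Real.log (4 * a.natAbs : ℝ) := by
        have : (1 : ℝ) ≤ a.natAbs := by exact_mod_cast hA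
        exact Real.log_nonneg (by linarith)
      linarith
    calc (1 + Real.log (N ^ 2 : ℕ)) * (2 + Real.log (4 * a.natAbs))
        ≤ (4 * Real.log X) * (5 * L) := mul_le_mul hb1 hb2 h2 (by positivity)
      _ = 20 * (Real.log X * L) := by ring
  have hS3 : S ≤ Real.sqrt 20 * Real.sqrt (Real.log X * L) := by
    rw [← Real.sqrt_mul (by norm_num)]
    exact Real.le_sqrt_of_sq_le hS2
  rw [hcount]
  refine h1.trans ?_
  have hl4 : 0 ≤ Real.log 4 := Real.log_nonneg (by norm_num)
  have e5 : (L / Real.log X) ^ (1 / 2 : ℝ) = Real.sqrt (Real.log X * L) / Real.log X := by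
    rw [← Real.sqrt_eq_rpow]
    have : L / Real.log X = (Real.log X * L) / (Real.log X) ^ 2 := by
      field_simp
    rw [this, Real.sqrt_div' _ (by positivity), Real.sqrt_sq hlX.le]
  rw [e5]
  calc (1 * Real.log 4 + 1) * X / Real.log X * S
      ≤ (1 * Real.log 4 + 1) * X / Real.log X * (Real.sqrt 20 * Real.sqrt (Real.log X * L)) :=
        mul_le_mul_of_nonneg_left hS3 (by positivity)
    _ = _ := by ring

end Pool.Agent.J4H17.TW
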