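import Mathlib
import Pool.Agent.J4H17.TW.Do4
import Pool.Agent.J4H17.TW.QR

/-!
# Double oscillation, part 5: the bilinear ranges, summed
-/

set_option autoImplicit false

namespace Pool.Agent.J4H17.TW

open Finset Pool.Agent.J4H76.TW

/-- four-fold sums -/
def S4 (N : ℕ) (F : ℕ → ℕ → ℕ → ℕ → ℝ) : ℝ :=
  ∑ a₀ ∈ Icc 1 N, ∑ a₁ ∈ Icc 1 N, ∑ b₀ ∈ Icc 1 N, ∑ b₁ ∈ Icc 1 N, F a₀ a₁ b₀ b₁

theorem S4_I (N : ℕ) (F : ℕ → ℕ → ℕ → ℕ → ℝ) : S4 N F =
    ∑ a₀ ∈ Icc 1 N, ∑ b₁ ∈ Icc 1 N, ∑ a₁ ∈ Icc 1 N, ∑ b₀ ∈ Icc 1 N, F a₀ a₁ b₀ b₁ := by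
  unfold S4
  refine Finset.sum_congr rfl fun a₀ _ => ?_
  rw [Finset.sum_comm (s := Icc 1 N) (t := Icc 1 N)
    (f := fun b₁ a₁ => ∑ b₀ ∈ Icc 1 N, F a₀ a₁ b₀ b₁)]
  exact Finset.sum_congr rfl fun a₁ _ => Finset.sum_comm

theorem S4_II (N : ℕ) (F : ℕ → ℕ → ℕ → ℕ → ℝ) : S4 N F =
    ∑ b₀ ∈ Icc 1 N, ∑ a₁ ∈ Icc 1 N, ∑ b₁ ∈ Icc 1 N, ∑ a₀ ∈ Icc 1 N, F a₀ a₁ b₀ b₁ := by
  have e1 : S4 N F = ∑ a₁ ∈ Icc 1 N, ∑ a₀ ∈ Icc 1 N, ∑ b₀ ∈ Icc 1 N, ∑ b₁ ∈ Icc 1 N,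
      F a₀ a₁ b₀ b₁ := by unfold S4; exact Finset.sum_comm
  rw [e1, Finset.sum_comm (s := Icc 1 N) (t := Icc 1 N)
    (f := fun b₀ a₁ => ∑ b₁ ∈ Icc 1 N, ∑ a₀ ∈ Icc 1 N, F a₀ a₁ b₀ b₁)]
  refine Finset.sum_congr rfl fun a₁ _ => ?_
  rw [Finset.sum_comm (s := Icc 1 N) (t := Icc 1 N)
    (f := fun a₀ b₀ => ∑ b₁ ∈ Icc 1 N, F a₀ a₁ b₀ b₁)]
  exact Finset.sum_congr rfl fun b₀ _ => Finset.sum_comm

theorem S4_add (N : ℕ) (F G : ℕ → ℕ → ℕ → ℕ → ℝ) :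
    S4 N (fun a b c d => F a b c d + G a b c d) = S4 N F + S4 N G := by
  unfold S4
  simp only [Finset.sum_add_distrib]

theorem S4_congr (N : ℕ) (F G : ℕ → ℕ → ℕ → ℕ → ℝ)
    (h : ∀ a b c d, 1 ≤ a → 1 ≤ b → 1 ≤ c → 1 ≤ d → F a b c d = G a b c d) : S4 N F = S4 N G := by
  unfold S4
  refine Finset.sum_congr rfl fun a ha => Finset.sum_congr rfl fun b hb =>
    Finset.sum_congr rfl fun c hc => Finset.sum_congr rfl fun d hd => ?_
  rw [Finset.mem_Icc] at ha hb hc hd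
  exact h a b c d ha.1 hb.1 hc.1 hd.1

theorem S4_mono (N : ℕ) (F G : ℕ → ℕ → ℕ → ℕ → ℝ)
    (h : ∀ a b c d, 1 ≤ a → 1 ≤ b → 1 ≤ c → 1 ≤ d → F a b c d ≤ G a b c d) : S4 N F ≤ S4 N G := by
  unfold S4
  refine Finset.sum_le_sum fun a ha => Finset.sum_le_sum fun b hb =>
    Finset.sum_le_sum fun c hc => Finset.sum_le_sum fun d hd => ?_
  rw [Finset.mem_Icc] at ha hb hc hd
  exact h a b c d ha.1 hb.1 hc.1 hd.1

variable (p q : ℤ) (bad : ℕ) (κ₁ κ₂ : ℤ)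

/-- bound for a double sum of inner sums -/
theorem outer_bd (N : ℕ) (G : ℕ → ℕ → ℝ) (B : ℝ) (hB : 0 ≤ B)
    (h : ∀ c d : ℕ, 1 ≤ c → 1 ≤ d → |G c d| ≤ B * (1 / c) * (1 / d)) :
    |∑ c ∈ Icc 1 N, ∑ d ∈ Icc 1 N, G c d| ≤ B * (1 + Real.log N) ^ 2 := by
  calc |∑ c ∈ Icc 1 N, ∑ d ∈ Icc 1 N, G c d| ≤ ∑ c ∈ Icc 1 N, ∑ d ∈ Icc 1 N, |G c d| :=
        (Finset.abs_sum_le_sum_abs _ _).trans
          (Finset.sum_le_sum fun c _ => Finset.abs_sum_le_sum_abs _ _)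
    _ ≤ ∑ c ∈ Icc 1 N, ∑ d ∈ Icc 1 N, B * (1 / (c : ℝ)) * (1 / (d : ℝ)) :=
        Finset.sum_le_sum fun c hc => Finset.sum_le_sum fun d hd =>
          h c d (Finset.mem_Icc.1 hc).1 (Finset.mem_Icc.1 hd).1
    _ = B * ((∑ c ∈ Icc 1 N, 1 / (c : ℝ)) * ∑ d ∈ Icc 1 N, 1 / (d : ℝ)) := by
        rw [Finset.sum_mul_sum, Finset.mul_sum]
        refine Finset.sum_congr rfl fun c _ => ?_
        rw [Finset.mul_sum]
        exact Finset.sum_congr rfl fun d _ => by ring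
    _ ≤ B * ((1 + Real.log N) * (1 + Real.log N)) := by
        have h1 := harm_bd N
        have h0 : 0 ≤ ∑ c ∈ Icc 1 N, 1 / (c : ℝ) := Finset.sum_nonneg fun _ _ => by positivity
        exact mul_le_mul_of_nonneg_left (mul_le_mul h1 h1 h0 (h0.trans h1)) hB
    _ = _ := by ring

open Classical in
theorem class_bd : ∃ C : ℝ, 0 ≤ C ∧ ∀ (p q κ₁ κ₂ : ℤ) (bad : ℕ), 2 ∣ bad →
    ∀ (N i j : ℕ) (V : ℝ), 0 < V → 2 ^ (i + 1) ≤ N → 2 ^ (j + 1) ≤ N →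
    |S4 N (fun a₀ a₁ b₀ b₁ => if (QB bad i j a₀ a₁ b₀ b₁ ∧ V < a₁ ∧ V < b₀) then
      XX p q bad κ₁ κ₂ a₀ a₁ b₀ b₁ else 0)| ≤
      C * 2 ^ (i + j + 2) * V ^ (-(1 / 4) : ℝ) * (1 + Real.log (2 ^ (i + j + 2))) *
        (1 + Real.log N) ^ 2 ∧
    |S4 N (fun a₀ a₁ b₀ b₁ => if (¬ (V < a₁ ∧ V < b₀) ∧ QB bad i j a₀ a₁ b₀ b₁ ∧ V < a₀ ∧ V < b₁)
      then XX p q bad κ₁ κ₂ a₀ a₁ b₀ b₁ else 0)| ≤
      C * 2 ^ (i + j + 2) * V ^ (-(1 / 4) : ℝ) * (1 + Real.log (2 ^ (i + j + 2))) *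
        (1 + Real.log N) ^ 2 := by
  obtain ⟨C, hC, h⟩ := bil_inner
  refine ⟨C, hC, ?_⟩
  intro p q κ₁ κ₂ bad hbad N i j V hV hi hj
  have hl0 : 0 ≤ Real.log ((2 : ℝ) ^ (i + j + 2)) := Real.log_nonneg (one_le_pow₀ (by norm_num))
  have hB : 0 ≤ C * 2 ^ (i + j + 2) * V ^ (-(1 / 4) : ℝ) * (1 + Real.log (2 ^ (i + j + 2))) := by
    positivity
  have hbd : ∀ c d : ℕ, C * ((2 ^ (i + 1) : ℝ) / c) * ((2 ^ (j + 1) : ℝ) / d) *
      V ^ (-(1 / 4) : ℝ) * (1 + Real.log (2 ^ (i + j + 2))) =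
      C * 2 ^ (i + j + 2) * V ^ (-(1 / 4) : ℝ) * (1 + Real.log (2 ^ (i + j + 2))) *
        (1 / c) * (1 / d) := by
    intro c d
    have e : (2 : ℝ) ^ (i + j + 2) = 2 ^ (i + 1) * 2 ^ (j + 1) := by
      rw [← pow_add]; congr 1; ring
    generalize Real.log (2 ^ (i + j + 2)) = lg
    rw [e]
    ring
  have hbd2 : ∀ c d : ℕ, C * ((2 ^ (j + 1) : ℝ) / c) * ((2 ^ (i + 1) : ℝ) / d) *
      V ^ (-(1 / 4) : ℝ) * (1 + Real.log (2 ^ (j + i + 2))) =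
      C * 2 ^ (i + j + 2) * V ^ (-(1 / 4) : ℝ) * (1 + Real.log (2 ^ (i + j + 2))) *
        (1 / c) * (1 / d) := by
    intro c d
    have e0 : j + i + 2 = i + j + 2 := by ring
    rw [e0]
    have e : (2 : ℝ) ^ (i + j + 2) = 2 ^ (i + 1) * 2 ^ (j + 1) := by
      rw [← pow_add]; congr 1; ring
    generalize Real.log (2 ^ (i + j + 2)) = lg
    rw [e]
    ring
  have hlt : ∀ x i : ℕ, Nat.log 2 x = i → x < 2 ^ (i + 1) := by
    intro x i hx
    rw [← hx]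
    exact Nat.lt_pow_succ_log_self (by norm_num) x
  constructor
  · rw [S4_I]
    refine outer_bd N _ _ hB fun c d hc hd => ?_
    have e1 : ∑ a₁ ∈ Icc 1 N, ∑ b₀ ∈ Icc 1 N,
        (if (QB bad i j c a₁ b₀ d ∧ V < a₁ ∧ V < b₀) then XX p q bad κ₁ κ₂ c a₁ b₀ d else 0) =
        (pf (xu p q bad) c * pf (xt p q bad) d) * ∑ m ∈ Icc 1 N, ∑ n ∈ Icc 1 N,
          al1 p q bad κ₁ κ₂ V i c d m * be1 p q bad V j c d n * (jacobiSym n m : ℝ) := by
      rw [Finset.mul_sum]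
      refine Finset.sum_congr rfl fun m _ => ?_
      rw [Finset.mul_sum]
      exact Finset.sum_congr rfl fun n _ => ptI p q bad κ₁ κ₂ V hV i j c m n d
    rw [e1, abs_mul]
    have h1 : |pf (xu p q bad) c * pf (xt p q bad) d| ≤ 1 := by
      rw [abs_mul]
      exact mul_le_one₀ (abs_pf_one (fun l _ => abs_xu p q bad l) c) (abs_nonneg _)
        (abs_pf_one (fun l hl => abs_xt p q bad hl) d)
    have h2 := h N i j c d V (al1 p q bad κ₁ κ₂ V i c d) (be1 p q bad V j c d) hV hc hd hi hj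
      (fun m => by
        unfold al1
        split_ifs
        · exact abs_mul3 (abs_pf_one (fun l _ => abs_xu p q bad l) m) (abs_jac_le _ _)
            (abs_jac_le _ _)
        · simp)
      (fun n => by
        unfold be1
        split_ifs
        · exact abs_pf_one (fun l hl => abs_xv p q bad hl) n
        · simp)
      (fun m hm => by
        unfold al1 at hm
        split_ifs at hm with hc'
        · obtain ⟨g1, g2, g3, g4⟩ := hc'
          refine ⟨?_, ?_, g4, hlt _ _ g1⟩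
          · rw [Nat.coprime_mul_iff_left, Nat.coprime_mul_iff_left] at g3
            exact odd_of_cop hbad g3.1.2
          · exact g2.squarefree_of_dvd ⟨c * d, by ring⟩
        · exact absurd rfl hm)
      (fun n hn => by
        unfold be1 at hn
        split_ifs at hn with hc'
        · obtain ⟨g1, g2, g3, g4⟩ := hc'
          refine ⟨?_, ?_, g4, ?_⟩
          · rw [Nat.coprime_mul_iff_left, Nat.coprime_mul_iff_left] at g3
            exact odd_of_cop hbad g3.1.2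
          · exact g2.squarefree_of_dvd ⟨c * d, by ring⟩
          · rw [mul_comm]; exact hlt _ _ g1
        · exact absurd rfl hn)
    rw [hbd] at h2
    refine le_trans ?_ h2
    exact mul_le_of_le_one_left (abs_nonneg _) h1
  · rw [S4_II]
    refine outer_bd N _ _ hB fun c d hc hd => ?_
    by_cases hcond : V < d ∧ V < c
    · have : ∑ b₁ ∈ Icc 1 N, ∑ a₀ ∈ Icc 1 N,
          (if (¬ (V < d ∧ V < c) ∧ QB bad i j a₀ d c b₁ ∧ V < a₀ ∧ V < b₁)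
          then XX p q bad κ₁ κ₂ a₀ d c b₁ else 0) = 0 :=
        Finset.sum_eq_zero fun _ _ => Finset.sum_eq_zero fun _ _ => by
          rw [if_neg (fun h => h.1 hcond)]
      rw [this, abs_zero]
      positivity
    have e1 : ∑ b₁ ∈ Icc 1 N, ∑ a₀ ∈ Icc 1 N,
        (if (¬ (V < d ∧ V < c) ∧ QB bad i j a₀ d c b₁ ∧ V < a₀ ∧ V < b₁)
          then XX p q bad κ₁ κ₂ a₀ d c b₁ else 0) =
        (pf (xu p q bad) d * pf (xv p q bad) c) * ∑ m ∈ Icc 1 N, ∑ n ∈ Icc 1 N,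
          al2 p q bad κ₁ κ₂ V j c d m * be2 p q bad V i c d n * (jacobiSym n m : ℝ) := by
      rw [Finset.mul_sum]
      refine Finset.sum_congr rfl fun m _ => ?_
      rw [Finset.mul_sum]
      refine Finset.sum_congr rfl fun n _ => ?_
      rw [← ptII p q bad κ₁ κ₂ V hV i j n d c m]
      by_cases hx : QB bad i j n d c m ∧ V < n ∧ V < m
      · rw [if_pos ⟨hcond, hx⟩, if_pos hx]
      · rw [if_neg (fun h => hx h.2), if_neg hx]
    rw [e1, abs_mul]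
    have h1 : |pf (xu p q bad) d * pf (xv p q bad) c| ≤ 1 := by
      rw [abs_mul]
      exact mul_le_one₀ (abs_pf_one (fun l _ => abs_xu p q bad l) d) (abs_nonneg _)
        (abs_pf_one (fun l hl => abs_xv p q bad hl) c)
    have h2 := h N j i c d V (al2 p q bad κ₁ κ₂ V j c d) (be2 p q bad V i c d) hV hc hd hj hi
      (fun m => by
        unfold al2
        split_ifs
        · exact abs_mul3 (abs_pf_one (fun l hl => abs_xt p q bad hl) m) (abs_jac_le _ _)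
            (abs_jac_le _ _)
        · simp)
      (fun n => by
        unfold be2
        split_ifs
        · exact abs_pf_one (fun l _ => abs_xu p q bad l) n
        · simp)
      (fun m hm => by
        unfold al2 at hm
        split_ifs at hm with hc'
        · obtain ⟨g1, g2, g3, g4⟩ := hc'
          refine ⟨?_, ?_, g4, hlt _ _ g1⟩
          · rw [Nat.coprime_mul_iff_left, Nat.coprime_mul_iff_left] at g3
            exact odd_of_cop hbad g3.1.2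
          · exact g2.squarefree_of_dvd ⟨d * c, by ring⟩
        · exact absurd rfl hm)
      (fun n hn => by
        unfold be2 at hn
        split_ifs at hn with hc'
        · obtain ⟨g1, g2, g3, g4⟩ := hc'
          refine ⟨?_, ?_, g4, ?_⟩
          · rw [Nat.coprime_mul_iff_left, Nat.coprime_mul_iff_left] at g3
            exact odd_of_cop hbad g3.1.2
          · exact g2.squarefree_of_dvd ⟨d * c, by ring⟩
          · rw [mul_comm]; exact hlt _ _ g1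
        · exact absurd rfl hn)
    rw [hbd2] at h2
    refine le_trans ?_ h2
    exact mul_le_of_le_one_left (abs_nonneg _) h1

end Pool.Agent.J4H17.TW
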