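import Mathlib
import Pool.Agent.J4H17.TW.Do5

/-!
# Double oscillation, part 6: the main terms
-/

set_option autoImplicit false

namespace Pool.Agent.J4H17.TW

open Finset Pool.Agent.J4H76.TW

theorem S4_a (N : ℕ) (F : ℕ → ℕ → ℕ → ℕ → ℝ) : S4 N F =
    ∑ a₁ ∈ Icc 1 N, ∑ b₁ ∈ Icc 1 N, ∑ a₀ ∈ Icc 1 N, ∑ b₀ ∈ Icc 1 N, F a₀ a₁ b₀ b₁ := by
  have e1 : S4 N F = ∑ a₁ ∈ Icc 1 N, ∑ a₀ ∈ Icc 1 N, ∑ b₀ ∈ Icc 1 N, ∑ b₁ ∈ Icc 1 N,
      F a₀ a₁ b₀ b₁ := by unfold S4; exact Finset.sum_comm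
  rw [e1]
  refine Finset.sum_congr rfl fun a₁ _ => ?_
  rw [Finset.sum_comm (s := Icc 1 N) (t := Icc 1 N)
    (f := fun b₁ a₀ => ∑ b₀ ∈ Icc 1 N, F a₀ a₁ b₀ b₁)]
  exact Finset.sum_congr rfl fun a₀ _ => Finset.sum_comm

theorem S4_b (N : ℕ) (F : ℕ → ℕ → ℕ → ℕ → ℝ) : S4 N F =
    ∑ a₀ ∈ Icc 1 N, ∑ b₀ ∈ Icc 1 N, ∑ a₁ ∈ Icc 1 N, ∑ b₁ ∈ Icc 1 N, F a₀ a₁ b₀ b₁ := by
  unfold S4
  exact Finset.sum_congr rfl fun a₀ _ => Finset.sum_comm

theorem abs_S4_le (N : ℕ) (F G : ℕ → ℕ → ℕ → ℕ → ℝ)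
    (h : ∀ a b c d, 1 ≤ a → 1 ≤ b → 1 ≤ c → 1 ≤ d → |F a b c d| ≤ G a b c d) :
    |S4 N F| ≤ S4 N G := by
  refine le_trans ?_ (S4_mono N (fun a b c d => |F a b c d|) G h)
  unfold S4
  refine (Finset.abs_sum_le_sum_abs _ _).trans (Finset.sum_le_sum fun a _ => ?_)
  refine (Finset.abs_sum_le_sum_abs _ _).trans (Finset.sum_le_sum fun b _ => ?_)
  refine (Finset.abs_sum_le_sum_abs _ _).trans (Finset.sum_le_sum fun c _ => ?_)
  exact Finset.abs_sum_le_sum_abs _ _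

open Classical in
theorem harm_V (N : ℕ) (V : ℝ) (hV : 1 ≤ V) :
    ∑ c ∈ Icc 1 N, (if (c : ℝ) ≤ V then 1 / (c : ℝ) else 0) ≤ 1 + Real.log V := by
  have h1 : ∑ c ∈ Icc 1 N, (if (c : ℝ) ≤ V then 1 / (c : ℝ) else 0) ≤
      ∑ c ∈ Icc 1 ⌊V⌋₊, 1 / (c : ℝ) := by
    rw [← Finset.sum_filter]
    refine Finset.sum_le_sum_of_subset_of_nonneg ?_ fun _ _ _ => by positivity
    intro c hc
    rw [Finset.mem_filter, Finset.mem_Icc] at hc
    rw [Finset.mem_Icc]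
    exact ⟨hc.1.1, Nat.le_floor hc.2⟩
  refine h1.trans ((harm_bd _).trans ?_)
  have hf : 1 ≤ ⌊V⌋₊ := Nat.le_floor (by exact_mod_cast hV)
  have : Real.log (⌊V⌋₊ : ℝ) ≤ Real.log V :=
    Real.log_le_log (by exact_mod_cast hf) (Nat.floor_le (by linarith))
  linarith

open Classical in
/-- sums with two small variables -/
theorem small2 (x y : ℕ → ℝ) (hx : ∀ l : ℕ, l.Prime → 0 ≤ x l) (hy : ∀ l : ℕ, l.Prime → 0 ≤ y l)
    (C₀ θ : ℝ) (hC₀ : 0 ≤ C₀) (hθ : 0 ≤ θ)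
    (h : ∀ X : ℝ, 3 ≤ X → ∑ n ∈ Icc 1 ⌊X⌋₊, mf (fun l => x l + y l) n ≤
      C₀ * X * Real.log X ^ (-θ)) (N : ℕ) (V W : ℝ) (hV : 1 ≤ V) (hW : 81 ≤ W)
    (hVW : V ^ 4 ≤ W) :
    ∑ c ∈ Icc 1 N, ∑ d ∈ Icc 1 N, ∑ m ∈ Icc 1 N, ∑ n ∈ Icc 1 N,
      (if ((c : ℝ) ≤ V ∧ (d : ℝ) ≤ V ∧ ((c * d * (m * n) : ℕ) : ℝ) ≤ 4 * W ∧ Squarefree (m * n))
        then pf x m * pf y n else 0) ≤
      C₀ * (4 * W) * (Real.log W / 2) ^ (-θ) * (1 + Real.log V) ^ 2 := by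
  have hW0 : 0 < W := by linarith
  have hlW : 0 < Real.log W := Real.log_pos (by linarith)
  have inner : ∀ c d : ℕ, 1 ≤ c → 1 ≤ d → ∑ m ∈ Icc 1 N, ∑ n ∈ Icc 1 N,
      (if ((c : ℝ) ≤ V ∧ (d : ℝ) ≤ V ∧ ((c * d * (m * n) : ℕ) : ℝ) ≤ 4 * W ∧ Squarefree (m * n))
        then pf x m * pf y n else 0) ≤
      (C₀ * (4 * W) * (Real.log W / 2) ^ (-θ)) *
        ((if (c : ℝ) ≤ V then 1 / (c : ℝ) else 0) * (if (d : ℝ) ≤ V then 1 / (d : ℝ) else 0)) := by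
    intro c d hc hd
    by_cases h1 : (c : ℝ) ≤ V
    · by_cases h2 : (d : ℝ) ≤ V
      · rw [if_pos h1, if_pos h2]
        have hc0 : (0 : ℝ) < c := by exact_mod_cast hc
        have hd0 : (0 : ℝ) < d := by exact_mod_cast hd
        set Y : ℝ := 4 * W / (c * d) with hY
        have hY0 : 0 ≤ Y := by positivity
        have e1 : ∑ m ∈ Icc 1 N, ∑ n ∈ Icc 1 N,
            (if ((c : ℝ) ≤ V ∧ (d : ℝ) ≤ V ∧ ((c * d * (m * n) : ℕ) : ℝ) ≤ 4 * W ∧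
              Squarefree (m * n)) then pf x m * pf y n else 0) =
            ∑ m ∈ Icc 1 N, ∑ n ∈ Icc 1 N,
            (if (((m * n : ℕ) : ℝ) ≤ Y ∧ Squarefree (m * n)) then pf x m * pf y n else 0) := by
          refine Finset.sum_congr rfl fun m _ => Finset.sum_congr rfl fun n _ => ?_
          have hiff : ((c : ℝ) ≤ V ∧ (d : ℝ) ≤ V ∧ ((c * d * (m * n) : ℕ) : ℝ) ≤ 4 * W ∧
              Squarefree (m * n)) ↔ (((m * n : ℕ) : ℝ) ≤ Y ∧ Squarefree (m * n)) := by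
            rw [hY, le_div_iff₀ (by positivity)]
            push_cast
            constructor
            · rintro ⟨_, _, h3, h4⟩
              exact ⟨by linarith, h4⟩
            · rintro ⟨h3, h4⟩
              exact ⟨h1, h2, by linarith, h4⟩
          by_cases h3 : (((m * n : ℕ) : ℝ) ≤ Y ∧ Squarefree (m * n))
          · rw [if_pos h3, if_pos (hiff.2 h3)]
          · rw [if_neg h3, if_neg (fun h => h3 (hiff.1 h))]
        rw [e1]
        refine (pair_le x y hx hy N Y hY0).trans ?_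
        have hcd : (c : ℝ) * d ≤ V ^ 2 := by
          rw [pow_two]; exact mul_le_mul h1 h2 hd0.le (by linarith)
        have hV2 : V ^ 2 ≤ Real.sqrt W := by
          apply Real.le_sqrt_of_sq_le
          calc (V ^ 2) ^ 2 = V ^ 4 := by ring
            _ ≤ W := hVW
        have hsq : 0 < Real.sqrt W := Real.sqrt_pos.2 hW0
        have hYW : Real.sqrt W ≤ Y := by
          rw [hY, le_div_iff₀ (by positivity)]
          calc Real.sqrt W * (c * d) ≤ Real.sqrt W * Real.sqrt W :=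
                mul_le_mul_of_nonneg_left (hcd.trans hV2) hsq.le
            _ = W := Real.mul_self_sqrt hW0.le
            _ ≤ 4 * W := by linarith
        have hs9 : (9 : ℝ) ≤ Real.sqrt W := by
          apply Real.le_sqrt_of_sq_le
          linarith
        have hY3 : 3 ≤ Y := by linarith
        refine (h Y hY3).trans ?_
        have hlY : Real.log W / 2 ≤ Real.log Y := by
          rw [← Real.log_sqrt hW0.le]
          exact Real.log_le_log hsq hYW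
        have hp : Real.log Y ^ (-θ) ≤ (Real.log W / 2) ^ (-θ) :=
          Real.rpow_le_rpow_of_nonpos (by positivity) hlY (by linarith)
        calc C₀ * Y * Real.log Y ^ (-θ) ≤ C₀ * Y * (Real.log W / 2) ^ (-θ) :=
              mul_le_mul_of_nonneg_left hp (by positivity)
          _ = _ := by rw [hY]; field_simp
      · rw [if_neg h2, mul_zero, mul_zero]
        refine (Finset.sum_eq_zero fun m _ => Finset.sum_eq_zero fun n _ => ?_).le
        rw [if_neg (fun h => h2 h.2.1)]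
    · rw [if_neg h1, zero_mul, mul_zero]
      refine (Finset.sum_eq_zero fun m _ => Finset.sum_eq_zero fun n _ => ?_).le
      rw [if_neg (fun h => h1 h.1)]
  have hB : 0 ≤ C₀ * (4 * W) * (Real.log W / 2) ^ (-θ) := by positivity
  calc _ ≤ ∑ c ∈ Icc 1 N, ∑ d ∈ Icc 1 N, (C₀ * (4 * W) * (Real.log W / 2) ^ (-θ)) *
        ((if (c : ℝ) ≤ V then 1 / (c : ℝ) else 0) * (if (d : ℝ) ≤ V then 1 / (d : ℝ) else 0)) :=
        Finset.sum_le_sum fun c hc => Finset.sum_le_sum fun d hd =>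
          inner c d (Finset.mem_Icc.1 hc).1 (Finset.mem_Icc.1 hd).1
    _ = (C₀ * (4 * W) * (Real.log W / 2) ^ (-θ)) *
        ((∑ c ∈ Icc 1 N, (if (c : ℝ) ≤ V then 1 / (c : ℝ) else 0)) *
          ∑ d ∈ Icc 1 N, (if (d : ℝ) ≤ V then 1 / (d : ℝ) else 0)) := by
        rw [Finset.sum_mul_sum, Finset.mul_sum]
        exact Finset.sum_congr rfl fun c _ => by rw [Finset.mul_sum]
    _ ≤ (C₀ * (4 * W) * (Real.log W / 2) ^ (-θ)) * ((1 + Real.log V) * (1 + Real.log V)) := by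
        have h1 := harm_V N V hV
        have h0 : 0 ≤ ∑ c ∈ Icc 1 N, (if (c : ℝ) ≤ V then 1 / (c : ℝ) else 0) :=
          Finset.sum_nonneg fun _ _ => by split_ifs <;> positivity
        exact mul_le_mul_of_nonneg_left (mul_le_mul h1 h1 h0 (h0.trans h1)) hB
    _ = _ := by ring

section

variable (p q : ℤ) (bad : ℕ) (κ₁ κ₂ : ℤ)

theorem xu_xp (l : ℕ) : xu p q bad l + xp p q bad l = 1 / 2 + 1 / 2 * AA p q bad l := by
  unfold xu xp ww AA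
  split_ifs <;> norm_num

theorem xp_xp (l : ℕ) : xp p q bad l + xp p q bad l = 0 + 4 / 3 * AA p q bad l := by
  unfold xp ww AA
  split_ifs <;> norm_num

/-- absolute value of the summand -/
theorem abs_XX (a₀ a₁ b₀ b₁ : ℕ) : |XX p q bad κ₁ κ₂ a₀ a₁ b₀ b₁| ≤
    pf (xu p q bad) a₀ * pf (xu p q bad) a₁ * (pf (xp p q bad) b₀ * pf (xp p q bad) b₁) := by
  have hu : ∀ n, 0 ≤ pf (xu p q bad) n := fun n => pf_nonneg (fun l _ => xu_nonneg p q bad l) n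
  have hp : ∀ n, 0 ≤ pf (xp p q bad) n := fun n => pf_nonneg (fun l _ => xp_nonneg p q bad l) n
  have hv : |pf (xv p q bad) b₀| ≤ pf (xp p q bad) b₀ :=
    abs_pf_le (fun l hl => by
      rw [abs_of_nonneg (xv_nonneg p q bad l)]; exact xv_le p q bad hl) b₀
  have ht : |pf (xt p q bad) b₁| ≤ pf (xp p q bad) b₁ :=
    abs_pf_le (fun l hl => abs_xt_le p q bad hl) b₁
  unfold XX
  rw [abs_mul, abs_mul, abs_mul, abs_mul, abs_mul, abs_of_nonneg (hu a₀), abs_of_nonneg (hu a₁)]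
  have h1 : pf (xu p q bad) a₁ * |(jacobiSym (κ₁ * ((b₀ * b₁ : ℕ) : ℤ)) a₁ : ℝ)| ≤
      pf (xu p q bad) a₁ := mul_le_of_le_one_right (hu a₁) (abs_jac_le _ _)
  have h2 : |pf (xt p q bad) b₁| * |(jacobiSym (κ₂ * ((a₀ * a₁ : ℕ) : ℤ)) b₁ : ℝ)| ≤
      pf (xp p q bad) b₁ :=
    (mul_le_of_le_one_right (abs_nonneg _) (abs_jac_le _ _)).trans ht
  refine mul_le_mul ?_ ?_ (by positivity) (mul_nonneg (hu a₀) (hu a₁))
  · exact mul_le_mul_of_nonneg_left h1 (hu a₀)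
  · exact mul_le_mul hv h2 (by positivity) (hp b₀)

end

end Pool.Agent.J4H17.TW
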