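import Mathlib
import Pool.Agent.J4H17.TW.Do6

/-!
# Double oscillation, part 7: the quadruple sum
-/

set_option autoImplicit false

namespace Pool.Agent.J4H17.TW

open Finset Pool.Agent.J4H76.TW

theorem S4_zero (N : ℕ) : S4 N (fun _ _ _ _ => 0) = 0 := by
  unfold S4; simp

theorem S4_sum {ι : Type*} (N : ℕ) (s : Finset ι) (F : ι → ℕ → ℕ → ℕ → ℕ → ℝ) :
    S4 N (fun a b c d => ∑ i ∈ s, F i a b c d) = ∑ i ∈ s, S4 N (F i) := by
  classical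
  induction s using Finset.induction_on with
  | empty => simp [S4_zero]
  | insert i s hi ih =>
    rw [Finset.sum_insert hi, ← ih, ← S4_add]
    exact S4_congr N _ _ fun a b c d _ _ _ _ => Finset.sum_insert hi

/-- the region -/
def Om (W V : ℝ) (i j : ℕ) : Prop := (2 : ℝ) ^ (i + j) ≤ W ∧ V ^ 2 < 2 ^ j

/-- the condition on the pairs -/
def PP (bad : ℕ) (W V : ℝ) (r s : ℕ) : Prop :=
  Om W V (Nat.log 2 r) (Nat.log 2 s) ∧ Squarefree (r * s) ∧ (r * s).Coprime bad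

theorem Om_le {W V : ℝ} {i j : ℕ} (_hW : 0 ≤ W) (h : Om W V i j) :
    i ≤ Nat.log 2 ⌊W⌋₊ ∧ j ≤ Nat.log 2 ⌊W⌋₊ ∧ 2 ^ (i + 1) ≤ 2 * ⌊W⌋₊ ∧
      2 ^ (j + 1) ≤ 2 * ⌊W⌋₊ := by
  have h1 : 2 ^ (i + j) ≤ ⌊W⌋₊ := Nat.le_floor (by exact_mod_cast h.1)
  have h2 : 2 ^ i ≤ ⌊W⌋₊ := (Nat.pow_le_pow_right (by norm_num) (by omega)).trans h1
  have h3 : 2 ^ j ≤ ⌊W⌋₊ := (Nat.pow_le_pow_right (by norm_num) (by omega)).trans h1
  refine ⟨Nat.le_log_of_pow_le (by norm_num) h2, Nat.le_log_of_pow_le (by norm_num) h3, ?_, ?_⟩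
  · rw [pow_succ]; omega
  · rw [pow_succ]; omega

section

variable (p q : ℤ) (bad : ℕ) (κ₁ κ₂ : ℤ)

open Classical in
/-- fibering over the dyadic blocks -/
theorem fiber (W V : ℝ) (hW : 0 ≤ W) (N : ℕ) (c : ℕ → ℕ → ℕ → ℕ → Prop)
    (X : ℕ → ℕ → ℕ → ℕ → ℝ) :
    S4 N (fun a₀ a₁ b₀ b₁ => if (PP bad W V (a₀ * a₁) (b₀ * b₁) ∧ c a₀ a₁ b₀ b₁) then
      X a₀ a₁ b₀ b₁ else 0) =
    ∑ i ∈ range (Nat.log 2 ⌊W⌋₊ + 1), ∑ j ∈ range (Nat.log 2 ⌊W⌋₊ + 1),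
      (if Om W V i j then S4 N (fun a₀ a₁ b₀ b₁ =>
        if (QB bad i j a₀ a₁ b₀ b₁ ∧ c a₀ a₁ b₀ b₁) then X a₀ a₁ b₀ b₁ else 0) else 0) := by
  have e1 : ∀ i j, (if Om W V i j then S4 N (fun a₀ a₁ b₀ b₁ =>
        if (QB bad i j a₀ a₁ b₀ b₁ ∧ c a₀ a₁ b₀ b₁) then X a₀ a₁ b₀ b₁ else 0) else 0) =
      S4 N (fun a₀ a₁ b₀ b₁ => if Om W V i j then
        (if (QB bad i j a₀ a₁ b₀ b₁ ∧ c a₀ a₁ b₀ b₁) then X a₀ a₁ b₀ b₁ else 0) else 0) := by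
    intro i j
    by_cases h : Om W V i j
    · simp only [h, if_true]
    · simp only [h, if_false, S4_zero]
  simp only [e1]
  simp only [← S4_sum]
  refine S4_congr N _ _ fun a₀ a₁ b₀ b₁ _ _ _ _ => ?_
  by_cases h : PP bad W V (a₀ * a₁) (b₀ * b₁) ∧ c a₀ a₁ b₀ b₁
  · rw [if_pos h]
    obtain ⟨⟨hO, hsq, hco⟩, hc⟩ := h
    obtain ⟨hi, hj, -, -⟩ := Om_le hW hO
    rw [Finset.sum_eq_single (Nat.log 2 (a₀ * a₁)), Finset.sum_eq_single (Nat.log 2 (b₀ * b₁))]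
    · rw [if_pos hO, if_pos ⟨⟨⟨rfl, rfl⟩, hsq, hco⟩, hc⟩]
    · intro j _ hj'
      split_ifs with h1 h2
      · exact absurd h2.1.1.2.symm hj'
      · rfl
      · rfl
    · intro h'
      exact absurd (Finset.mem_range.2 (by omega)) h'
    · intro i _ hi'
      refine Finset.sum_eq_zero fun j _ => ?_
      split_ifs with h1 h2
      · exact absurd h2.1.1.1.symm hi'
      · rfl
      · rfl
    · intro h'
      exact absurd (Finset.mem_range.2 (by omega)) h'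
  · rw [if_neg h]
    symm
    refine Finset.sum_eq_zero fun i _ => Finset.sum_eq_zero fun j _ => ?_
    split_ifs with h1 h2
    · exfalso
      apply h
      obtain ⟨⟨⟨hi, hj⟩, hsq, hco⟩, hc⟩ := h2
      refine ⟨⟨?_, hsq, hco⟩, hc⟩
      rw [hi, hj]
      exact h1
    · rfl
    · rfl

/-- bound for the fibered sum -/
theorem fiber_bd (W V B : ℝ) (hB : 0 ≤ B) (K : ℕ) (T : ℕ → ℕ → ℝ)
    (h : ∀ i j, Om W V i j → |T i j| ≤ B) :
    |∑ i ∈ range (K + 1), ∑ j ∈ range (K + 1), (open Classical in if Om W V i j then T i j else 0)| ≤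
      ((K : ℝ) + 1) ^ 2 * B := by
  classical
  calc _ ≤ ∑ i ∈ range (K + 1), ∑ j ∈ range (K + 1), B := by
        refine (Finset.abs_sum_le_sum_abs _ _).trans (Finset.sum_le_sum fun i _ => ?_)
        refine (Finset.abs_sum_le_sum_abs _ _).trans (Finset.sum_le_sum fun j _ => ?_)
        split_ifs with h1
        · exact h i j h1
        · rw [abs_zero]; exact hB
    _ = _ := by
        rw [Finset.sum_const, Finset.sum_const, card_range]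
        simp only [nsmul_eq_mul]
        push_cast
        ring

open Classical in
theorem fiber_bound (W V : ℝ) (hW : 0 ≤ W) (N : ℕ) (c : ℕ → ℕ → ℕ → ℕ → Prop)
    (X : ℕ → ℕ → ℕ → ℕ → ℝ) (B : ℝ) (hB : 0 ≤ B)
    (h : ∀ i j, Om W V i j → |S4 N (fun a₀ a₁ b₀ b₁ =>
        if (QB bad i j a₀ a₁ b₀ b₁ ∧ c a₀ a₁ b₀ b₁) then X a₀ a₁ b₀ b₁ else 0)| ≤ B) :
    |S4 N (fun a₀ a₁ b₀ b₁ => if (PP bad W V (a₀ * a₁) (b₀ * b₁) ∧ c a₀ a₁ b₀ b₁) then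
      X a₀ a₁ b₀ b₁ else 0)| ≤ ((Nat.log 2 ⌊W⌋₊ : ℝ) + 1) ^ 2 * B := by
  rw [fiber bad W V hW N c X]
  exact fiber_bd W V B hB _ _ h

open Classical in
/-- the quadruple sum -/
theorem quad_bd (hD : ¬ IsSquare (p ^ 2 - 4 * q)) (hb : (2 * (p ^ 2 - 4 * q)) ∣ (bad : ℤ)) :
    ∃ C : ℝ, 0 ≤ C ∧ ∀ (κ₁ κ₂ : ℤ) (W V : ℝ), 81 ≤ W → 1 ≤ V → V ^ 4 ≤ W →
      |S4 (2 * ⌊W⌋₊) (fun a₀ a₁ b₀ b₁ => if PP bad W V (a₀ * a₁) (b₀ * b₁) then
        XX p q bad κ₁ κ₂ a₀ a₁ b₀ b₁ else 0)| ≤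
      C * W * (((Nat.log 2 ⌊W⌋₊ : ℝ) + 1) ^ 2 * (V ^ (-(1 / 4) : ℝ) * (1 + Real.log (4 * W)) *
        (1 + Real.log ((2 * ⌊W⌋₊ : ℕ) : ℝ)) ^ 2) +
        ((Real.log W / 2) ^ (-(1 / 4) : ℝ) + (Real.log W / 2) ^ (-(1 / 3) : ℝ)) *
          (1 + Real.log V) ^ 2) := by
  obtain ⟨C₁, hC₁, h1⟩ := class_bd
  obtain ⟨C₂, hC₂, h2⟩ := HTF p q bad hD hb (1 / 2) (1 / 2) (by norm_num) (by norm_num)
  obtain ⟨C₃, hC₃, h3⟩ := HTF p q bad hD hb 0 (4 / 3) (by norm_num) (by norm_num)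
  refine ⟨8 * C₁ + 8 * C₂ + 4 * C₃, by positivity, ?_⟩
  intro κ₁ κ₂ W V hW hV hVW
  have hW0 : 0 ≤ W := by linarith
  have hV0 : 0 < V := by linarith
  have h2bad : 2 ∣ bad := by
    have : (2 : ℤ) ∣ (bad : ℤ) := (Dvd.intro _ rfl).trans hb
    exact_mod_cast this
  set N := 2 * ⌊W⌋₊ with hN
  set K := Nat.log 2 ⌊W⌋₊ with hK
  set X := XX p q bad κ₁ κ₂ with hX
  have hlN : 0 ≤ Real.log (N : ℝ) := Real.log_natCast_nonneg N
  have hl4 : 0 ≤ Real.log (4 * W) := Real.log_nonneg (by linarith)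
  have hlV : 0 ≤ Real.log V := Real.log_nonneg hV
  set B := C₁ * (4 * W) * V ^ (-(1 / 4) : ℝ) * (1 + Real.log (4 * W)) * (1 + Real.log N) ^ 2 with hB
  have hB0 : 0 ≤ B := by positivity
  -- class I and II
  have hblock : ∀ i j, Om W V i j → C₁ * 2 ^ (i + j + 2) * V ^ (-(1 / 4) : ℝ) *
      (1 + Real.log (2 ^ (i + j + 2))) * (1 + Real.log N) ^ 2 ≤ B := by
    intro i j hO
    have g1 : (2 : ℝ) ^ (i + j + 2) ≤ 4 * W := by
      calc (2 : ℝ) ^ (i + j + 2) = 4 * 2 ^ (i + j) := by rw [pow_add]; ring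
        _ ≤ 4 * W := by linarith [hO.1]
    have g2 : Real.log ((2 : ℝ) ^ (i + j + 2)) ≤ Real.log (4 * W) :=
      Real.log_le_log (by positivity) g1
    have g3 : 0 ≤ Real.log ((2 : ℝ) ^ (i + j + 2)) := Real.log_nonneg (one_le_pow₀ (by norm_num))
    rw [hB]
    refine mul_le_mul_of_nonneg_right ?_ (by positivity)
    refine mul_le_mul ?_ (by linarith) (by linarith) (by positivity)
    exact mul_le_mul_of_nonneg_right (mul_le_mul_of_nonneg_left g1 hC₁) (by positivity)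
  have hI : |S4 N (fun a₀ a₁ b₀ b₁ => if (PP bad W V (a₀ * a₁) (b₀ * b₁) ∧ (V < a₁ ∧ V < b₀)) then
      X a₀ a₁ b₀ b₁ else 0)| ≤ ((K : ℝ) + 1) ^ 2 * B := by
    have h3 := fiber_bound bad W V hW0 N (fun _ a₁ b₀ _ => V < a₁ ∧ V < b₀) X B hB0
      (fun i j hO => by
        obtain ⟨-, -, g1, g2⟩ := Om_le hW0 hO
        refine le_trans (le_of_eq (congrArg abs (S4_congr N _ _ fun a₀ a₁ b₀ b₁ _ _ _ _ => ?_)))
          (((h1 p q κ₁ κ₂ bad h2bad N i j V hV0 g1 g2).1).trans (hblock i j hO))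
        by_cases hc : QB bad i j a₀ a₁ b₀ b₁ ∧ V < a₁ ∧ V < b₀
        · rw [if_pos hc, if_pos hc]
        · rw [if_neg hc, if_neg hc])
    refine le_trans (le_of_eq (congrArg abs (S4_congr N _ _ fun a₀ a₁ b₀ b₁ _ _ _ _ => ?_))) h3
    by_cases hc : PP bad W V (a₀ * a₁) (b₀ * b₁) ∧ V < a₁ ∧ V < b₀
    · rw [if_pos hc, if_pos hc]
    · rw [if_neg hc, if_neg hc]
  have hII : |S4 N (fun a₀ a₁ b₀ b₁ => if (PP bad W V (a₀ * a₁) (b₀ * b₁) ∧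
      (¬ (V < a₁ ∧ V < b₀) ∧ V < a₀ ∧ V < b₁)) then
      X a₀ a₁ b₀ b₁ else 0)| ≤ ((K : ℝ) + 1) ^ 2 * B := by
    have h3 := fiber_bound bad W V hW0 N
      (fun a₀ a₁ b₀ b₁ => ¬ (V < a₁ ∧ V < b₀) ∧ V < a₀ ∧ V < b₁) X B hB0
      (fun i j hO => by
        obtain ⟨-, -, g1, g2⟩ := Om_le hW0 hO
        refine le_trans (le_of_eq (congrArg abs (S4_congr N _ _ fun a₀ a₁ b₀ b₁ _ _ _ _ => ?_)))
          (((h1 p q κ₁ κ₂ bad h2bad N i j V hV0 g1 g2).2).trans (hblock i j hO))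
        by_cases hc : ¬ (V < a₁ ∧ V < b₀) ∧ QB bad i j a₀ a₁ b₀ b₁ ∧ V < a₀ ∧ V < b₁
        · rw [if_pos hc, if_pos ⟨hc.2.1, hc.1, hc.2.2⟩]
        · rw [if_neg hc, if_neg (fun h => hc ⟨h.2.1, h.1, h.2.2⟩)])
    refine le_trans (le_of_eq (congrArg abs (S4_congr N _ _ fun a₀ a₁ b₀ b₁ _ _ _ _ => ?_))) h3
    by_cases hc : PP bad W V (a₀ * a₁) (b₀ * b₁) ∧
      (¬ (V < a₁ ∧ V < b₀) ∧ V < a₀ ∧ V < b₁)
    · rw [if_pos hc, if_pos hc]
    · rw [if_neg hc, if_neg hc]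
  -- class III
  have hu1 : ∀ n, pf (xu p q bad) n ≤ 1 := fun n =>
    pf_le_one (fun l _ => xu_nonneg p q bad l) (fun l _ => xu_le p q bad l) n
  have hp1 : ∀ n, pf (xp p q bad) n ≤ 1 := fun n =>
    pf_le_one (fun l _ => xp_nonneg p q bad l) (fun l _ => xp_le p q bad l) n
  have hu0 : ∀ n, 0 ≤ pf (xu p q bad) n := fun n => pf_nonneg (fun l _ => xu_nonneg p q bad l) n
  have hp0 : ∀ n, 0 ≤ pf (xp p q bad) n := fun n => pf_nonneg (fun l _ => xp_nonneg p q bad l) n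
  set Ga : ℕ → ℕ → ℕ → ℕ → ℝ := fun a₀ a₁ b₀ b₁ =>
    if ((a₁ : ℝ) ≤ V ∧ (b₁ : ℝ) ≤ V ∧ ((a₁ * b₁ * (a₀ * b₀) : ℕ) : ℝ) ≤ 4 * W ∧
      Squarefree (a₀ * b₀)) then pf (xu p q bad) a₀ * pf (xp p q bad) b₀ else 0 with hGa
  set Gb : ℕ → ℕ → ℕ → ℕ → ℝ := fun a₀ a₁ b₀ b₁ =>
    if ((a₀ : ℝ) ≤ V ∧ (b₀ : ℝ) ≤ V ∧ ((a₀ * b₀ * (a₁ * b₁) : ℕ) : ℝ) ≤ 4 * W ∧
      Squarefree (a₁ * b₁)) then pf (xu p q bad) a₁ * pf (xp p q bad) b₁ else 0 with hGb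
  set Gc : ℕ → ℕ → ℕ → ℕ → ℝ := fun a₀ a₁ b₀ b₁ =>
    if ((a₀ : ℝ) ≤ V ∧ (a₁ : ℝ) ≤ V ∧ ((a₀ * a₁ * (b₀ * b₁) : ℕ) : ℝ) ≤ 4 * W ∧
      Squarefree (b₀ * b₁)) then pf (xp p q bad) b₀ * pf (xp p q bad) b₁ else 0 with hGc
  have hGa0 : ∀ a b c d, 0 ≤ Ga a b c d := fun a b c d => by
    rw [hGa]; simp only; split_ifs
    · exact mul_nonneg (hu0 _) (hp0 _)
    · exact le_refl 0
  have hGb0 : ∀ a b c d, 0 ≤ Gb a b c d := fun a b c d => by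
    rw [hGb]; simp only; split_ifs
    · exact mul_nonneg (hu0 _) (hp0 _)
    · exact le_refl 0
  have hGc0 : ∀ a b c d, 0 ≤ Gc a b c d := fun a b c d => by
    rw [hGc]; simp only; split_ifs
    · exact mul_nonneg (hp0 _) (hp0 _)
    · exact le_refl 0
  have hIII : |S4 N (fun a₀ a₁ b₀ b₁ => if (PP bad W V (a₀ * a₁) (b₀ * b₁) ∧
      (¬ (V < a₁ ∧ V < b₀) ∧ ¬ (V < a₀ ∧ V < b₁))) then
      X a₀ a₁ b₀ b₁ else 0)| ≤ S4 N Ga + S4 N Gb + S4 N Gc := by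
    rw [← S4_add, ← S4_add]
    refine abs_S4_le N _ _ fun a₀ a₁ b₀ b₁ ha₀ ha₁ hb₀ hb₁ => ?_
    split_ifs with hc
    · obtain ⟨⟨⟨hO1, hO2⟩, hsq, -⟩, n1, n2⟩ := hc
      have hX' := abs_XX p q bad κ₁ κ₂ a₀ a₁ b₀ b₁
      have hprod : ((a₀ * a₁ * (b₀ * b₁) : ℕ) : ℝ) ≤ 4 * W := by
        have g1 : a₀ * a₁ < 2 ^ (Nat.log 2 (a₀ * a₁) + 1) :=
          Nat.lt_pow_succ_log_self (by norm_num) _
        have g2 : b₀ * b₁ < 2 ^ (Nat.log 2 (b₀ * b₁) + 1) :=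
          Nat.lt_pow_succ_log_self (by norm_num) _
        have g3 : a₀ * a₁ * (b₀ * b₁) ≤ 2 ^ (Nat.log 2 (a₀ * a₁) + 1) *
            2 ^ (Nat.log 2 (b₀ * b₁) + 1) := Nat.mul_le_mul g1.le g2.le
        have g4 : ((a₀ * a₁ * (b₀ * b₁) : ℕ) : ℝ) ≤ (2 : ℝ) ^ (Nat.log 2 (a₀ * a₁) + 1) *
            2 ^ (Nat.log 2 (b₀ * b₁) + 1) := by exact_mod_cast g3
        calc ((a₀ * a₁ * (b₀ * b₁) : ℕ) : ℝ) ≤ (2 : ℝ) ^ (Nat.log 2 (a₀ * a₁) + 1) *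
            2 ^ (Nat.log 2 (b₀ * b₁) + 1) := g4
          _ = 4 * 2 ^ (Nat.log 2 (a₀ * a₁) + Nat.log 2 (b₀ * b₁)) := by
            rw [pow_succ, pow_succ, pow_add]; ring
          _ ≤ 4 * W := by linarith
      rw [not_and_or, not_lt, not_lt] at n1 n2
      have key : pf (xu p q bad) a₀ * pf (xu p q bad) a₁ *
          (pf (xp p q bad) b₀ * pf (xp p q bad) b₁) ≤
          Ga a₀ a₁ b₀ b₁ ∨ pf (xu p q bad) a₀ * pf (xu p q bad) a₁ *
          (pf (xp p q bad) b₀ * pf (xp p q bad) b₁) ≤ Gb a₀ a₁ b₀ b₁ ∨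
          pf (xu p q bad) a₀ * pf (xu p q bad) a₁ *
          (pf (xp p q bad) b₀ * pf (xp p q bad) b₁) ≤ Gc a₀ a₁ b₀ b₁ := by
        have u0 := hu0 a₀
        have u1 := hu0 a₁
        have v0 := hp0 b₀
        have v1 := hp0 b₁
        have u0' := hu1 a₀
        have u1' := hu1 a₁
        have v0' := hp1 b₀
        have v1' := hp1 b₁
        rcases n1 with n1 | n1
        · rcases n2 with n2 | n2
          · -- a₁, a₀ small
            right; right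
            rw [hGc]
            simp only
            rw [if_pos ⟨n2, n1, hprod, hsq.squarefree_of_dvd ⟨a₀ * a₁, by ring⟩⟩]
            have : pf (xu p q bad) a₀ * pf (xu p q bad) a₁ ≤ 1 := mul_le_one₀ u0' u1 u1'
            exact mul_le_of_le_one_left (mul_nonneg v0 v1) this
          · -- a₁, b₁ small
            left
            rw [hGa]
            simp only
            rw [if_pos ⟨n1, n2, by
              have : a₁ * b₁ * (a₀ * b₀) = a₀ * a₁ * (b₀ * b₁) := by ring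
              rw [this]; exact hprod, hsq.squarefree_of_dvd ⟨a₁ * b₁, by ring⟩⟩]
            calc pf (xu p q bad) a₀ * pf (xu p q bad) a₁ *
                (pf (xp p q bad) b₀ * pf (xp p q bad) b₁)
                = (pf (xu p q bad) a₁ * pf (xp p q bad) b₁) *
                  (pf (xu p q bad) a₀ * pf (xp p q bad) b₀) := by ring
              _ ≤ _ := mul_le_of_le_one_left (mul_nonneg u0 v0) (mul_le_one₀ u1' v1 v1')
        · rcases n2 with n2 | n2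
          · -- b₀, a₀ small
            right; left
            rw [hGb]
            simp only
            rw [if_pos ⟨n2, n1, by
              have : a₀ * b₀ * (a₁ * b₁) = a₀ * a₁ * (b₀ * b₁) := by ring
              rw [this]; exact hprod, hsq.squarefree_of_dvd ⟨a₀ * b₀, by ring⟩⟩]
            calc pf (xu p q bad) a₀ * pf (xu p q bad) a₁ *
                (pf (xp p q bad) b₀ * pf (xp p q bad) b₁)
                = (pf (xu p q bad) a₀ * pf (xp p q bad) b₀) *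
                  (pf (xu p q bad) a₁ * pf (xp p q bad) b₁) := by ring
              _ ≤ _ := mul_le_of_le_one_left (mul_nonneg u1 v1) (mul_le_one₀ u0' v0 v0')
          · -- b₀, b₁ small: impossible
            exfalso
            have g1 : (2 : ℝ) ^ (Nat.log 2 (b₀ * b₁)) ≤ ((b₀ * b₁ : ℕ) : ℝ) := by
              have : 2 ^ (Nat.log 2 (b₀ * b₁)) ≤ b₀ * b₁ :=
                Nat.pow_log_le_self 2 (Nat.mul_pos hb₀ hb₁).ne'
              exact_mod_cast this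
            have g2 : ((b₀ * b₁ : ℕ) : ℝ) ≤ V ^ 2 := by
              push_cast
              rw [pow_two]
              exact mul_le_mul n1 n2 (Nat.cast_nonneg _) hV0.le
            linarith
      have t1 := hGa0 a₀ a₁ b₀ b₁
      have t2 := hGb0 a₀ a₁ b₀ b₁
      have t3 := hGc0 a₀ a₁ b₀ b₁
      rcases key with k | k | k
      · exact (hX'.trans k).trans (by linarith)
      · exact (hX'.trans k).trans (by linarith)
      · exact (hX'.trans k).trans (by linarith)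
    · rw [abs_zero]
      have t1 := hGa0 a₀ a₁ b₀ b₁
      have t2 := hGb0 a₀ a₁ b₀ b₁
      have t3 := hGc0 a₀ a₁ b₀ b₁
      linarith
  have e14 : (1 / 2 + 1 / 2 / 2 - 1 : ℝ) = -(1 / 4) := by norm_num
  have e13 : (0 + 4 / 3 / 2 - 1 : ℝ) = -(1 / 3) := by norm_num
  have h2' : ∀ Y : ℝ, 3 ≤ Y → ∑ n ∈ Icc 1 ⌊Y⌋₊, mf (fun l => xu p q bad l + xp p q bad l) n ≤
      C₂ * Y * Real.log Y ^ (-(1 / 4) : ℝ) := by
    intro Y hY
    have := h2 Y hY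
    rw [e14] at this
    simp only [xu_xp]
    exact this
  have h3' : ∀ Y : ℝ, 3 ≤ Y → ∑ n ∈ Icc 1 ⌊Y⌋₊, mf (fun l => xp p q bad l + xp p q bad l) n ≤
      C₃ * Y * Real.log Y ^ (-(1 / 3) : ℝ) := by
    intro Y hY
    have := h3 Y hY
    rw [e13] at this
    simp only [xp_xp]
    exact this
  have hxu : ∀ l : ℕ, l.Prime → 0 ≤ xu p q bad l := fun l _ => xu_nonneg p q bad l
  have hxp : ∀ l : ℕ, l.Prime → 0 ≤ xp p q bad l := fun l _ => xp_nonneg p q bad l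
  have ba : S4 N Ga ≤ C₂ * (4 * W) * (Real.log W / 2) ^ (-(1 / 4) : ℝ) * (1 + Real.log V) ^ 2 := by
    rw [S4_a]
    exact small2 _ _ hxu hxp C₂ (1 / 4) hC₂ (by norm_num) h2' N V W hV hW hVW
  have bb : S4 N Gb ≤ C₂ * (4 * W) * (Real.log W / 2) ^ (-(1 / 4) : ℝ) * (1 + Real.log V) ^ 2 := by
    rw [S4_b]
    exact small2 _ _ hxu hxp C₂ (1 / 4) hC₂ (by norm_num) h2' N V W hV hW hVW
  have bc : S4 N Gc ≤ C₃ * (4 * W) * (Real.log W / 2) ^ (-(1 / 3) : ℝ) * (1 + Real.log V) ^ 2 := by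
    unfold S4
    exact small2 _ _ hxp hxp C₃ (1 / 3) hC₃ (by norm_num) h3' N V W hV hW hVW
  -- sum up
  have hsum : S4 N (fun a₀ a₁ b₀ b₁ => if PP bad W V (a₀ * a₁) (b₀ * b₁) then
        X a₀ a₁ b₀ b₁ else 0) =
      S4 N (fun a₀ a₁ b₀ b₁ => if (PP bad W V (a₀ * a₁) (b₀ * b₁) ∧ (V < a₁ ∧ V < b₀)) then
        X a₀ a₁ b₀ b₁ else 0) +
      S4 N (fun a₀ a₁ b₀ b₁ => if (PP bad W V (a₀ * a₁) (b₀ * b₁) ∧
        (¬ (V < a₁ ∧ V < b₀) ∧ V < a₀ ∧ V < b₁)) then X a₀ a₁ b₀ b₁ else 0) +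
      S4 N (fun a₀ a₁ b₀ b₁ => if (PP bad W V (a₀ * a₁) (b₀ * b₁) ∧
        (¬ (V < a₁ ∧ V < b₀) ∧ ¬ (V < a₀ ∧ V < b₁))) then X a₀ a₁ b₀ b₁ else 0) := by
    rw [← S4_add, ← S4_add]
    refine S4_congr N _ _ fun a₀ a₁ b₀ b₁ _ _ _ _ => ?_
    by_cases c1 : PP bad W V (a₀ * a₁) (b₀ * b₁)
    · by_cases c2 : V < a₁ ∧ V < b₀
      · simp [c1, c2]
      · by_cases c3 : V < a₀ ∧ V < b₁
        · simp only [c1, c2, c3, and_true, not_false_eq_true, if_true, if_false,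
            not_true_eq_false, and_false]
          ring
        · simp only [c1, c2, c3, and_true, not_false_eq_true, if_true, if_false,
            not_true_eq_false, and_false]
          ring
    · simp [c1]
  rw [hsum]
  have a1 : 0 ≤ (Real.log W / 2) ^ (-(1 / 4) : ℝ) := by
    have : 0 < Real.log W := Real.log_pos (by linarith)
    positivity
  have a2 : 0 ≤ (Real.log W / 2) ^ (-(1 / 3) : ℝ) := by
    have : 0 < Real.log W := Real.log_pos (by linarith)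
    positivity
  refine (abs_add_three _ _ _).trans ((add_le_add (add_le_add hI hII)
    (hIII.trans (add_le_add (add_le_add ba bb) bc))).trans ?_)
  rw [hB]
  set R1 := V ^ (-(1 / 4) : ℝ) * (1 + Real.log (4 * W)) * (1 + Real.log N) ^ 2 with hR1
  have hR10 : 0 ≤ R1 := by positivity
  set x1 := (Real.log W / 2) ^ (-(1 / 4) : ℝ) with hx1
  set x2 := (Real.log W / 2) ^ (-(1 / 3) : ℝ) with hx2
  set v2 := (1 + Real.log V) ^ 2 with hv2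
  have hv20 : 0 ≤ v2 := by positivity
  set k2 := ((K : ℝ) + 1) ^ 2 with hk2
  have hk20 : 0 ≤ k2 := by positivity
  have p1 : 0 ≤ W * (k2 * R1) := by positivity
  have p2 : 0 ≤ W * (x1 * v2) := by positivity
  have p3 : 0 ≤ W * (x2 * v2) := by positivity
  have q1 := mul_nonneg hC₂ p1
  have q2 := mul_nonneg hC₃ p1
  have q3 := mul_nonneg hC₁ p2
  have q4 := mul_nonneg hC₃ p2
  have q5 := mul_nonneg hC₁ p3
  have q6 := mul_nonneg hC₂ p3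
  calc k2 * (C₁ * (4 * W) * V ^ (-(1 / 4) : ℝ) * (1 + Real.log (4 * W)) * (1 + Real.log N) ^ 2) +
      k2 * (C₁ * (4 * W) * V ^ (-(1 / 4) : ℝ) * (1 + Real.log (4 * W)) * (1 + Real.log N) ^ 2) +
      (C₂ * (4 * W) * x1 * v2 + C₂ * (4 * W) * x1 * v2 + C₃ * (4 * W) * x2 * v2)
      = 8 * (C₁ * (W * (k2 * R1))) + 8 * (C₂ * (W * (x1 * v2))) + 4 * (C₃ * (W * (x2 * v2))) := by
        rw [hR1]; ring
    _ ≤ 8 * (C₁ * (W * (k2 * R1))) + 8 * (C₂ * (W * (x1 * v2))) + 4 * (C₃ * (W * (x2 * v2))) +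
        (8 * (C₂ * (W * (k2 * R1))) + 4 * (C₃ * (W * (k2 * R1))) + 8 * (C₁ * (W * (x1 * v2))) +
          4 * (C₃ * (W * (x1 * v2))) + 8 * (C₁ * (W * (x2 * v2))) + 8 * (C₂ * (W * (x2 * v2)))) := by
        linarith
    _ = _ := by ring

end

end Pool.Agent.J4H17.TW
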