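import Mathlib
import Pool.Agent.J4H17.TW.Do7

/-!
# Double oscillation, part 8: conclusion
-/

set_option autoImplicit false

namespace Pool.Agent.J4H17.TW

open Finset Pool.Agent.J4H76.TW

theorem exp_dec : ∃ C : ℝ, 0 ≤ C ∧ ∀ L : ℝ, 1 ≤ L →
    Real.exp (-(L ^ (1 / 200 : ℝ) / 4)) ≤ C * L ^ (-6 : ℝ) := by
  obtain ⟨n, hn⟩ : ∃ n : ℕ, n = 1200 := ⟨_, rfl⟩
  have hnr : (1 / 200 : ℝ) * n = 6 := by rw [hn]; norm_num
  refine ⟨(n.factorial : ℝ) * 4 ^ n, by positivity, fun L hL => ?_⟩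
  have hL0 : 0 < L := by linarith
  have hx : 0 < L ^ (1 / 200 : ℝ) / 4 := by positivity
  have h1 := Real.pow_div_factorial_le_exp (L ^ (1 / 200 : ℝ) / 4) hx.le n
  have h2 : (L ^ (1 / 200 : ℝ) / 4) ^ n = L ^ (6 : ℝ) / 4 ^ n := by
    rw [div_pow, ← Real.rpow_natCast (L ^ (1 / 200 : ℝ)) n, ← Real.rpow_mul hL0.le, hnr]
  rw [h2] at h1
  have hf : (0 : ℝ) < n.factorial := by exact_mod_cast n.factorial_pos
  rw [Real.exp_neg, inv_le_comm₀ (Real.exp_pos _) (by positivity)]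
  refine le_trans (le_of_eq ?_) h1
  rw [Real.rpow_neg hL0.le, mul_inv, inv_inv, mul_inv]
  field_simp

theorem rpow_half {L θ : ℝ} (hL : 2 ≤ L) (h0 : 0 ≤ θ) (h1 : θ ≤ 1) :
    (L / 2) ^ (-θ) ≤ 2 * L ^ (-θ) := by
  have hL0 : 0 < L := by linarith
  rw [Real.div_rpow hL0.le (by norm_num), Real.rpow_neg (by norm_num : (0 : ℝ) ≤ 2), div_inv_eq_mul,
    mul_comm]
  refine mul_le_mul_of_nonneg_right ?_ (by positivity)
  calc (2 : ℝ) ^ θ ≤ 2 ^ (1 : ℝ) := Real.rpow_le_rpow_of_exponent_le (by norm_num) h1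
    _ = 2 := Real.rpow_one 2

/-- elementary facts for large `L` -/
theorem large {W : ℝ} (hW : 100 ≤ Real.log W) (hW0 : 0 < W) :
    1 ≤ Real.log W ^ (1 / 200 : ℝ) ∧ Real.log W ^ (1 / 200 : ℝ) ≤ Real.log W / 10 := by
  set L := Real.log W with hL
  have hL0 : 0 < L := by linarith
  refine ⟨Real.one_le_rpow (by linarith) (by norm_num), ?_⟩
  have h1 : L ^ (1 / 200 : ℝ) ≤ L ^ (1 / 2 : ℝ) :=
    Real.rpow_le_rpow_of_exponent_le (by linarith) (by norm_num)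
  refine h1.trans ?_
  rw [← Real.sqrt_eq_rpow, Real.sqrt_le_left (by positivity)]
  nlinarith

section

variable (p q : ℤ) (bad : ℕ)

open Classical in
theorem quad_final (hD : ¬ IsSquare (p ^ 2 - 4 * q)) (hb : (2 * (p ^ 2 - 4 * q)) ∣ (bad : ℤ)) :
    ∃ C : ℝ, 0 ≤ C ∧ ∀ (κ₁ κ₂ : ℤ) (W : ℝ), 0 < W → 100 ≤ Real.log W →
      |S4 (2 * ⌊W⌋₊) (fun a₀ a₁ b₀ b₁ =>
        if PP bad W (Real.exp (Real.log W ^ (1 / 200 : ℝ))) (a₀ * a₁) (b₀ * b₁) then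
        XX p q bad κ₁ κ₂ a₀ a₁ b₀ b₁ else 0)| ≤ C * W * Real.log W ^ (-(6 / 25) : ℝ) := by
  obtain ⟨C, hC, h⟩ := quad_bd p q bad hD hb
  obtain ⟨C₁, hC₁, h1⟩ := exp_dec
  refine ⟨C * (32 * C₁ + 16), by positivity, ?_⟩
  intro κ₁ κ₂ W hW0 hL
  obtain ⟨hl1, hl2⟩ := large hL hW0
  set L := Real.log W with hLdef
  set v := L ^ (1 / 200 : ℝ) with hv
  set V := Real.exp v with hV
  have hL0 : 0 < L := by linarith
  have hWexp : W = Real.exp L := by rw [hLdef, Real.exp_log hW0]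
  have hV1 : 1 ≤ V := by rw [hV]; exact Real.one_le_exp (by linarith)
  have hV4 : V ^ 4 ≤ W := by
    rw [hV, ← Real.exp_nat_mul, hWexp]
    apply Real.exp_le_exp.2
    push_cast
    linarith
  have hW81 : 81 ≤ W := by
    rw [hWexp]
    have := Real.add_one_le_exp L
    linarith
  refine (h κ₁ κ₂ W V hW81 hV1 hV4).trans ?_
  have hlV : Real.log V = v := by rw [hV, Real.log_exp]
  have hVp : V ^ (-(1 / 4) : ℝ) ≤ C₁ * L ^ (-6 : ℝ) := by
    refine le_trans (le_of_eq ?_) (h1 L (by linarith))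
    rw [hV, ← Real.exp_mul]
    congr 1
    rw [hv]; ring
  have hK : (Nat.log 2 ⌊W⌋₊ : ℝ) + 1 ≤ 2 * L := by
    have hf : ⌊W⌋₊ ≠ 0 := by
      have : 1 ≤ ⌊W⌋₊ := Nat.le_floor (by push_cast; linarith)
      omega
    have g1 : 2 ^ Nat.log 2 ⌊W⌋₊ ≤ ⌊W⌋₊ := Nat.pow_log_le_self 2 hf
    have g2 : (2 : ℝ) ^ Nat.log 2 ⌊W⌋₊ ≤ W := by
      have : ((2 ^ Nat.log 2 ⌊W⌋₊ : ℕ) : ℝ) ≤ (⌊W⌋₊ : ℝ) := by exact_mod_cast g1
      push_cast at this
      exact this.trans (Nat.floor_le hW0.le)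
    have g3 := Real.log_le_log (by positivity) g2
    rw [Real.log_pow] at g3
    have g4 := Real.log_two_gt_d9
    have g5 : (Nat.log 2 ⌊W⌋₊ : ℝ) ≤ 3 / 2 * L := by
      have g6 : (0 : ℝ) ≤ (Nat.log 2 ⌊W⌋₊ : ℝ) := Nat.cast_nonneg _
      nlinarith
    linarith
  have hlog2 : Real.log 2 ≤ 1 := by
    have := Real.log_two_lt_d9
    linarith
  have h4W : 1 + Real.log (4 * W) ≤ 2 * L := by
    rw [Real.log_mul (by norm_num) hW0.ne']
    have : (4 : ℝ) = 2 ^ 2 := by norm_num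
    rw [this, Real.log_pow]
    push_cast
    linarith
  have hN : 1 + Real.log ((2 * ⌊W⌋₊ : ℕ) : ℝ) ≤ 2 * L := by
    have hf : 1 ≤ ⌊W⌋₊ := Nat.le_floor (by push_cast; linarith)
    have g1 : Real.log ((2 * ⌊W⌋₊ : ℕ) : ℝ) ≤ Real.log (2 * W) := by
      apply Real.log_le_log
      · have : 0 < 2 * ⌊W⌋₊ := by omega
        exact_mod_cast this
      · push_cast
        have := Nat.floor_le hW0.le
        linarith
    rw [Real.log_mul (by norm_num) hW0.ne'] at g1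
    linarith
  have h4W0 : 0 ≤ 1 + Real.log (4 * W) := by
    have : 0 ≤ Real.log (4 * W) := Real.log_nonneg (by linarith)
    linarith
  have hN0 : 0 ≤ 1 + Real.log ((2 * ⌊W⌋₊ : ℕ) : ℝ) := by
    have := Real.log_natCast_nonneg (2 * ⌊W⌋₊)
    linarith
  have t1 : ((Nat.log 2 ⌊W⌋₊ : ℝ) + 1) ^ 2 * (V ^ (-(1 / 4) : ℝ) * (1 + Real.log (4 * W)) *
        (1 + Real.log ((2 * ⌊W⌋₊ : ℕ) : ℝ)) ^ 2) ≤ 32 * C₁ * L ^ (-(6 / 25) : ℝ) := by
    calc _ ≤ (2 * L) ^ 2 * (C₁ * L ^ (-6 : ℝ) * (2 * L) * (2 * L) ^ 2) := by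
          refine mul_le_mul (pow_le_pow_left₀ (by positivity) hK 2) ?_ (by positivity)
            (by positivity)
          refine mul_le_mul ?_ (pow_le_pow_left₀ hN0 hN 2) (by positivity) (by positivity)
          exact mul_le_mul hVp h4W h4W0 (by positivity)
      _ = 32 * C₁ * (L ^ 5 * L ^ (-6 : ℝ)) := by ring
      _ ≤ 32 * C₁ * L ^ (-(6 / 25) : ℝ) := by
          refine mul_le_mul_of_nonneg_left ?_ (by positivity)
          rw [← Real.rpow_natCast, ← Real.rpow_add hL0]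
          apply Real.rpow_le_rpow_of_exponent_le (by linarith)
          norm_num
  have t2 : ((L / 2) ^ (-(1 / 4) : ℝ) + (L / 2) ^ (-(1 / 3) : ℝ)) * (1 + Real.log V) ^ 2 ≤
      16 * L ^ (-(6 / 25) : ℝ) := by
    rw [hlV]
    have g1 : (L / 2) ^ (-(1 / 4) : ℝ) ≤ 2 * L ^ (-(1 / 4) : ℝ) :=
      rpow_half (by linarith) (by norm_num) (by norm_num)
    have g2 : (L / 2) ^ (-(1 / 3) : ℝ) ≤ 2 * L ^ (-(1 / 4) : ℝ) := by
      refine le_trans ?_ g1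
      exact Real.rpow_le_rpow_of_exponent_le (by linarith) (by norm_num)
    have g3 : (1 + v) ^ 2 ≤ 4 * L ^ (1 / 100 : ℝ) := by
      have : L ^ (1 / 100 : ℝ) = v ^ 2 := by
        rw [hv, ← Real.rpow_natCast, ← Real.rpow_mul hL0.le]
        norm_num
      rw [this]
      nlinarith
    calc _ ≤ (2 * L ^ (-(1 / 4) : ℝ) + 2 * L ^ (-(1 / 4) : ℝ)) * (4 * L ^ (1 / 100 : ℝ)) := by
          refine mul_le_mul (add_le_add g1 g2) g3 (by positivity) (by positivity)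
      _ = 16 * (L ^ (-(1 / 4) : ℝ) * L ^ (1 / 100 : ℝ)) := by ring
      _ = 16 * L ^ (-(6 / 25) : ℝ) := by
          rw [← Real.rpow_add hL0]
          norm_num
  calc _ ≤ C * W * (32 * C₁ * L ^ (-(6 / 25) : ℝ) + 16 * L ^ (-(6 / 25) : ℝ)) :=
        mul_le_mul_of_nonneg_left (add_le_add t1 t2) (by positivity)
    _ = _ := by ring

/-- the comparison of the two weights -/
theorem ww_ge (l : ℕ) : (1 + 1 / 10 * AA p q bad l) ^ (-(43 / 10) : ℝ) ≤ ww p q bad l := by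
  unfold ww AA
  split_ifs
  · have e : (1 + 1 / 10 * 1 : ℝ) = 11 / 10 := by norm_num
    have e2 : (1 - 1 / 3 : ℝ) = 2 / 3 := by norm_num
    rw [e, e2, Real.rpow_neg (by norm_num), inv_le_comm₀ (by positivity) (by norm_num)]
    have h1 : (3 / 2 : ℝ) ^ 10 ≤ ((11 / 10 : ℝ) ^ (43 / 10 : ℝ)) ^ 10 := by
      rw [← Real.rpow_natCast ((11 / 10 : ℝ) ^ (43 / 10 : ℝ)) 10, ← Real.rpow_mul (by norm_num)]
      have e3 : (43 / 10 : ℝ) * ((10 : ℕ) : ℝ) = ((43 : ℕ) : ℝ) := by norm_num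
      rw [e3, Real.rpow_natCast]
      norm_num
    have h2 := (pow_le_pow_iff_left₀ (by norm_num) (by positivity) (by norm_num)).1 h1
    refine le_trans (le_of_eq ?_) h2
    norm_num
  · norm_num

theorem pf_ww_ge (g : ℕ) : (pf (fun l => 1 + 1 / 10 * AA p q bad l) g) ^ (-(43 / 10) : ℝ) ≤
    pf (ww p q bad) g := by
  unfold pf
  rw [← Real.finset_prod_rpow]
  · refine Finset.prod_le_prod (fun l _ => ?_) fun l _ => ww_ge p q bad l
    have := AA_nonneg p q bad l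
    positivity
  · intro l _
    have := AA_nonneg p q bad l
    positivity

end

end Pool.Agent.J4H17.TW
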