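import Mathlib
import Pool.Agent.J4H17.TW.Do8
import Pool.Agent.J4H17.TW.QR

/-!
# Double oscillation, part 9: the three parts of the set, and the theorem
-/

set_option autoImplicit false

namespace Pool.Agent.J4H17.TW

open Finset Pool.Agent.J4H76.TW

open Classical in
/-- part (A): the numbers with a pair of small second coordinate -/
theorem partA (p q κ₁ : ℤ) (hκ : κ₁ ≠ 0) (bad : ℕ) (hb2 : 2 ∣ bad) :
    ∃ C : ℝ, 0 ≤ C ∧ ∀ (κ₂ : ℤ) (W : ℝ), 0 < W → 100 ≤ Real.log W →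
    (((Icc 1 ⌊W⌋₊).filter (fun g => ∃ r s : ℕ, g = r * s ∧ Cond p q κ₁ κ₂ bad r s ∧
      (s : ℝ) ≤ 2 * Real.exp (Real.log W ^ (1 / 200 : ℝ)) ^ 2)).card : ℝ) ≤
    C * W * Real.log W ^ (-(1 / 500) : ℝ) := by
  obtain ⟨C₀, hC₀, h0⟩ := qr
  set K := Real.log (|(κ₁ : ℝ)| + 2) + 3 with hK
  have hK0 : 0 ≤ K := by
    have : 0 ≤ Real.log (|(κ₁ : ℝ)| + 2) := Real.log_nonneg (by linarith [abs_nonneg (κ₁ : ℝ)])
    linarith
  refine ⟨C₀ * (2 * K) ^ (1 / 2 : ℝ) * 4, by positivity, ?_⟩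
  intro κ₂ W hW0 hL
  obtain ⟨hl1, hl2⟩ := large hL hW0
  set L := Real.log W with hLdef
  set v := L ^ (1 / 200 : ℝ) with hv
  set V := Real.exp v with hV
  have hL0 : 0 < L := by linarith
  have hV1 : 1 ≤ V := by rw [hV]; exact Real.one_le_exp (by linarith)
  have hlog2 : Real.log 2 ≤ 1 := by
    have := Real.log_two_lt_d9
    linarith
  have hlV : Real.log (2 * V ^ 2) = Real.log 2 + 2 * v := by
    rw [Real.log_mul (by norm_num) (by positivity), Real.log_pow, hV, Real.log_exp]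
    push_cast
    ring
  set M := ⌊2 * V ^ 2⌋₊ with hM
  have hMle : (M : ℝ) ≤ 2 * V ^ 2 := Nat.floor_le (by positivity)
  -- the pieces
  set T : ℕ → Finset ℕ := fun s => if IsSquare (κ₁ * (s : ℤ)) then ∅ else
    ((Icc 1 ⌊W / s⌋₊).filter (fun n => Odd n ∧ Squarefree n ∧
      ∀ l ∈ n.primeFactors, jacobiSym (κ₁ * (s : ℤ)) l = 1)).image (fun n => n * s) with hT
  have hsub : (Icc 1 ⌊W⌋₊).filter (fun g => ∃ r s : ℕ, g = r * s ∧ Cond p q κ₁ κ₂ bad r s ∧
      (s : ℝ) ≤ 2 * V ^ 2) ⊆ (Icc 1 M).biUnion T := by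
    intro g hg
    obtain ⟨hg1, r, s, hrs, hc, hs⟩ := Finset.mem_filter.1 hg
    rw [Finset.mem_Icc] at hg1
    have hr0 : r ≠ 0 := by rintro rfl; simp at hrs; omega
    have hs0 : s ≠ 0 := by rintro rfl; simp at hrs; omega
    refine Finset.mem_biUnion.2 ⟨s, Finset.mem_Icc.2 ⟨by omega, Nat.le_floor hs⟩, ?_⟩
    rw [hT]
    simp only
    rw [if_neg hc.2.2.1]
    refine Finset.mem_image.2 ⟨r, Finset.mem_filter.2 ⟨Finset.mem_Icc.2 ⟨by omega, ?_⟩,
      ?_, ?_, hc.2.2.2.1⟩, hrs.symm⟩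
    · apply Nat.le_floor
      rw [le_div_iff₀ (by positivity)]
      have h1 : (g : ℝ) ≤ W := (Nat.le_floor_iff hW0.le).1 hg1.2
      rw [hrs] at h1
      push_cast at h1
      exact h1
    · exact odd_of_cop hb2 (Nat.Coprime.coprime_mul_right hc.2.1)
    · exact hc.1.squarefree_of_dvd ⟨s, rfl⟩
  have hcard : ∀ s ∈ Icc 1 M, ((T s).card : ℝ) ≤
      C₀ * W * ((2 * K) ^ (1 / 2 : ℝ) * (v / L) ^ (1 / 2 : ℝ)) * (1 / s) := by
    intro s hs
    rw [Finset.mem_Icc] at hs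
    have hs1 : (1 : ℝ) ≤ s := by exact_mod_cast hs.1
    have hs0 : (0 : ℝ) < s := by linarith
    by_cases hsq : IsSquare (κ₁ * (s : ℤ))
    · rw [hT]
      simp only
      rw [if_pos hsq]
      simp only [Finset.card_empty, Nat.cast_zero]
      positivity
    · rw [hT]
      simp only
      rw [if_neg hsq]
      have hs2 : (s : ℝ) ≤ 2 * V ^ 2 := (Nat.cast_le.2 hs.2).trans hMle
      have hls : Real.log s ≤ Real.log 2 + 2 * v := by
        rw [← hlV]
        exact Real.log_le_log hs0 hs2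
      have hlWs : L / 2 ≤ Real.log (W / s) := by
        rw [Real.log_div hW0.ne' hs0.ne', ← hLdef]
        linarith
      have hWs : 2 ≤ W / s := by
        have h1 : Real.log 2 ≤ Real.log (W / s) := by linarith
        exact (Real.log_le_log_iff (by norm_num) (by positivity)).1 h1
      have h1 := h0 (κ₁ * (s : ℤ)) hsq (W / s) hWs
      have h2 : Real.log (|((κ₁ * (s : ℤ) : ℤ) : ℝ)| + 2) ≤ K * v := by
        have g1 : |((κ₁ * (s : ℤ) : ℤ) : ℝ)| + 2 ≤ (|(κ₁ : ℝ)| + 2) * s := by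
          push_cast
          rw [abs_mul, Nat.abs_cast]
          nlinarith [abs_nonneg (κ₁ : ℝ)]
        have g2 := Real.log_le_log (by positivity) g1
        rw [Real.log_mul (by positivity) hs0.ne'] at g2
        have g3 : 0 ≤ Real.log (|(κ₁ : ℝ)| + 2) :=
          Real.log_nonneg (by linarith [abs_nonneg (κ₁ : ℝ)])
        rw [hK]
        nlinarith
      have h2' : 0 ≤ Real.log (|((κ₁ * (s : ℤ) : ℤ) : ℝ)| + 2) :=
        Real.log_nonneg (by linarith [abs_nonneg ((κ₁ * (s : ℤ) : ℤ) : ℝ)])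
      calc (((((Icc 1 ⌊W / s⌋₊).filter (fun n => Odd n ∧ Squarefree n ∧
            ∀ l ∈ n.primeFactors, jacobiSym (κ₁ * (s : ℤ)) l = 1)).image
              (fun n => n * s)).card : ℕ) : ℝ)
          ≤ (((Icc 1 ⌊W / s⌋₊).filter (fun n => Odd n ∧ Squarefree n ∧
            ∀ l ∈ n.primeFactors, jacobiSym (κ₁ * (s : ℤ)) l = 1)).card : ℝ) := by
            exact_mod_cast Finset.card_image_le
        _ ≤ C₀ * (W / s) * (Real.log (|((κ₁ * (s : ℤ) : ℤ) : ℝ)| + 2) /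
              Real.log (W / s)) ^ (1 / 2 : ℝ) := by
            refine le_trans (le_of_eq ?_) h1
            congr 2
        _ ≤ C₀ * (W / s) * (K * v / (L / 2)) ^ (1 / 2 : ℝ) := by
            refine mul_le_mul_of_nonneg_left ?_ (by positivity)
            refine Real.rpow_le_rpow (div_nonneg h2' (by linarith)) ?_ (by norm_num)
            exact div_le_div₀ (by positivity) h2 (by positivity) hlWs
        _ = _ := by
            have e : K * v / (L / 2) = (2 * K) * (v / L) := by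
              field_simp
            rw [e, Real.mul_rpow (by positivity) (by positivity)]
            ring
  have hharm : ∑ s ∈ Icc 1 M, (1 : ℝ) / s ≤ 4 * v := by
    refine (harm_bd M).trans ?_
    have hM1 : 1 ≤ M := Nat.le_floor (by push_cast; nlinarith)
    have h1 : Real.log M ≤ Real.log (2 * V ^ 2) :=
      Real.log_le_log (by exact_mod_cast hM1) hMle
    rw [hlV] at h1
    linarith
  calc (((Icc 1 ⌊W⌋₊).filter (fun g => ∃ r s : ℕ, g = r * s ∧ Cond p q κ₁ κ₂ bad r s ∧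
      (s : ℝ) ≤ 2 * V ^ 2)).card : ℝ) ≤ (((Icc 1 M).biUnion T).card : ℝ) := by
        exact_mod_cast Finset.card_le_card hsub
    _ ≤ ∑ s ∈ Icc 1 M, ((T s).card : ℝ) := by
        exact_mod_cast Finset.card_biUnion_le
    _ ≤ ∑ s ∈ Icc 1 M, C₀ * W * ((2 * K) ^ (1 / 2 : ℝ) * (v / L) ^ (1 / 2 : ℝ)) * (1 / s) :=
        Finset.sum_le_sum hcard
    _ = C₀ * W * ((2 * K) ^ (1 / 2 : ℝ) * (v / L) ^ (1 / 2 : ℝ)) * ∑ s ∈ Icc 1 M, (1 : ℝ) / s := by
        rw [Finset.mul_sum]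
    _ ≤ C₀ * W * ((2 * K) ^ (1 / 2 : ℝ) * (v / L) ^ (1 / 2 : ℝ)) * (4 * v) :=
        mul_le_mul_of_nonneg_left hharm (by positivity)
    _ = C₀ * (2 * K) ^ (1 / 2 : ℝ) * 4 * W * ((v / L) ^ (1 / 2 : ℝ) * v) := by ring
    _ ≤ C₀ * (2 * K) ^ (1 / 2 : ℝ) * 4 * W * L ^ (-(1 / 500) : ℝ) := by
        refine mul_le_mul_of_nonneg_left ?_ (by positivity)
        have e : (v / L) ^ (1 / 2 : ℝ) * v = L ^ (-(197 / 400) : ℝ) := by
          rw [hv]
          nth_rewrite 2 [← Real.rpow_one L]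
          rw [← Real.rpow_sub hL0, ← Real.rpow_mul hL0.le, ← Real.rpow_add hL0]
          norm_num
        rw [e]
        exact Real.rpow_le_rpow_of_exponent_le (by linarith) (by norm_num)

open Classical in
/-- part (B): the numbers with many prime factors of the second kind -/
theorem partB (p q : ℤ) (bad : ℕ) (hD : ¬ IsSquare (p ^ 2 - 4 * q))
    (hb : (2 * (p ^ 2 - 4 * q)) ∣ (bad : ℤ)) :
    ∃ C : ℝ, 0 ≤ C ∧ ∀ W : ℝ, 3 ≤ W →
    (((Icc 1 ⌊W⌋₊).filter (fun g => Squarefree g ∧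
      Real.log W ^ (13 / 250 : ℝ) < pf (fun l => 1 + 1 / 10 * AA p q bad l) g)).card : ℝ) ≤
    C * W * Real.log W ^ (-(1 / 500) : ℝ) := by
  obtain ⟨C, hC, h⟩ := HTF p q bad hD hb 1 (1 / 10) (by norm_num) (by norm_num)
  refine ⟨C, hC, fun W hW => ?_⟩
  have h1 := h W hW
  have hL0 : 0 < Real.log W := Real.log_pos (by linarith)
  set L := Real.log W with hL
  set f : ℕ → ℝ := fun l => 1 + 1 / 10 * AA p q bad l with hf
  have hf0 : ∀ l, 0 ≤ f l := by
    intro l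
    have := AA_nonneg p q bad l
    rw [hf]
    positivity
  set B := (Icc 1 ⌊W⌋₊).filter (fun g => Squarefree g ∧ L ^ (13 / 250 : ℝ) < pf f g) with hB
  have h2 : (B.card : ℝ) * L ^ (13 / 250 : ℝ) ≤ ∑ n ∈ Icc 1 ⌊W⌋₊, mf f n := by
    calc (B.card : ℝ) * L ^ (13 / 250 : ℝ) = ∑ _g ∈ B, L ^ (13 / 250 : ℝ) := by
          rw [Finset.sum_const, nsmul_eq_mul]
      _ ≤ ∑ g ∈ B, mf f g := by
          refine Finset.sum_le_sum fun g hg => ?_
          have := (Finset.mem_filter.1 hg).2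
          rw [mf_eq f this.1]
          exact this.2.le
      _ ≤ ∑ n ∈ Icc 1 ⌊W⌋₊, mf f n :=
          Finset.sum_le_sum_of_subset_of_nonneg (Finset.filter_subset _ _)
            fun n _ _ => mf_nonneg hf0 n
  have h3 : (B.card : ℝ) * L ^ (13 / 250 : ℝ) ≤ C * W * L ^ (1 / 20 : ℝ) := by
    refine (h2.trans h1).trans (le_of_eq ?_)
    norm_num
  have h4 : 0 < L ^ (13 / 250 : ℝ) := by positivity
  have h5 : (B.card : ℝ) * L ^ (13 / 250 : ℝ) ≤
      (C * W * L ^ (-(1 / 500) : ℝ)) * L ^ (13 / 250 : ℝ) := by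
    refine h3.trans (le_of_eq ?_)
    rw [mul_assoc (C * W), ← Real.rpow_add hL0]
    norm_num
  exact le_of_mul_le_mul_right h5 h4

open Classical in
/-- part (C): the other numbers -/
theorem partC (p q : ℤ) (bad : ℕ) (hD : ¬ IsSquare (p ^ 2 - 4 * q))
    (hb : (2 * (p ^ 2 - 4 * q)) ∣ (bad : ℤ)) :
    ∃ C : ℝ, 0 ≤ C ∧ ∀ (κ₁ κ₂ : ℤ) (W : ℝ), 0 < W → 100 ≤ Real.log W →
    (((Icc 1 ⌊W⌋₊).filter (fun g => (∃ r s : ℕ, g = r * s ∧ Cond p q κ₁ κ₂ bad r s ∧
        2 * Real.exp (Real.log W ^ (1 / 200 : ℝ)) ^ 2 < (s : ℝ)) ∧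
      pf (fun l => 1 + 1 / 10 * AA p q bad l) g ≤ Real.log W ^ (13 / 250 : ℝ))).card : ℝ) ≤
    C * W * Real.log W ^ (-(1 / 500) : ℝ) := by
  obtain ⟨C, hC, h⟩ := quad_final p q bad hD hb
  refine ⟨C, hC, fun κ₁ κ₂ W hW0 hL => ?_⟩
  have h1 := h κ₁ κ₂ W hW0 hL
  set L := Real.log W with hLdef
  set V := Real.exp (L ^ (1 / 200 : ℝ)) with hV
  have hL0 : 0 < L := by linarith
  set N := 2 * ⌊W⌋₊ with hN
  set f : ℕ → ℝ := fun l => 1 + 1 / 10 * AA p q bad l with hf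
  set S := (Icc 1 ⌊W⌋₊).filter (fun g => (∃ r s : ℕ, g = r * s ∧ Cond p q κ₁ κ₂ bad r s ∧
        2 * V ^ 2 < (s : ℝ)) ∧ pf f g ≤ L ^ (13 / 250 : ℝ)) with hS
  have hex : ∀ g ∈ S, ∃ x : ℕ × ℕ, g = x.1 * x.2 ∧ Cond p q κ₁ κ₂ bad x.1 x.2 ∧
        2 * V ^ 2 < (x.2 : ℝ) := by
    intro g hg
    obtain ⟨r, s, hrs⟩ := (Finset.mem_filter.1 hg).2.1
    exact ⟨(r, s), hrs⟩
  choose! φ hφ using hex
  set F : ℕ × ℕ → ℝ := fun x => if PP bad W V x.1 x.2 then EE p q bad κ₁ κ₂ x.1 x.2 else 0 with hF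
  have hinj : Set.InjOn φ (S : Set ℕ) := by
    intro g hg g' hg' hgg
    rw [(hφ g hg).1, (hφ g' hg').1, hgg]
  have hPP : ∀ g ∈ S, PP bad W V (φ g).1 (φ g).2 := by
    intro g hg
    obtain ⟨hg1, hg2, hg3⟩ := hφ g hg
    have hgm := (Finset.mem_filter.1 hg).1
    rw [Finset.mem_Icc] at hgm
    have hr0 : (φ g).1 ≠ 0 := by
      intro h0
      rw [h0] at hg1
      simp at hg1
      omega
    have hs0 : (φ g).2 ≠ 0 := by
      intro h0
      rw [h0] at hg1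
      simp at hg1
      omega
    refine ⟨⟨?_, ?_⟩, hg2.1, hg2.2.1⟩
    · have g1 := Nat.pow_log_le_self 2 hr0
      have g2 := Nat.pow_log_le_self 2 hs0
      have g3 : 2 ^ (Nat.log 2 (φ g).1 + Nat.log 2 (φ g).2) ≤ g := by
        rw [pow_add]
        calc _ ≤ (φ g).1 * (φ g).2 := Nat.mul_le_mul g1 g2
          _ = g := hg1.symm
      have g4 : (g : ℝ) ≤ W := (Nat.le_floor_iff hW0.le).1 hgm.2
      refine le_trans ?_ g4
      exact_mod_cast g3
    · have g1 := Nat.lt_pow_succ_log_self (b := 2) (by norm_num) (φ g).2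
      have g2 : ((φ g).2 : ℝ) < 2 ^ Nat.log 2 (φ g).2 * 2 := by
        have : (φ g).2 < 2 ^ Nat.log 2 (φ g).2 * 2 := by
          rw [← pow_succ]
          exact g1
        exact_mod_cast this
      linarith
  have hbd : ∀ r s, PP bad W V r s → r ≤ N ∧ s ≤ N := by
    intro r s hrs
    obtain ⟨-, -, h3, h4⟩ := Om_le hW0.le hrs.1
    have g1 := Nat.lt_pow_succ_log_self (b := 2) (by norm_num) r
    have g2 := Nat.lt_pow_succ_log_self (b := 2) (by norm_num) s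
    exact ⟨g1.le.trans h3, g2.le.trans h4⟩
  have hpos : ∀ r s, PP bad W V r s → 0 < r ∧ 0 < s := by
    intro r s hrs
    have := hrs.2.1.ne_zero
    constructor
    · rcases Nat.eq_zero_or_pos r with h0 | h0
      · exact absurd (by rw [h0]; simp) this
      · exact h0
    · rcases Nat.eq_zero_or_pos s with h0 | h0
      · exact absurd (by rw [h0]; simp) this
      · exact h0
  have hF0 : ∀ x, 0 ≤ F x := by
    intro x
    rw [hF]
    simp only
    split_ifs with h2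
    · exact EE_nonneg p q bad κ₁ κ₂ h2.2.1
    · exact le_rfl
  have hweight : ∀ g ∈ S, 1 ≤ L ^ (559 / 2500 : ℝ) * F (φ g) := by
    intro g hg
    have hP := hPP g hg
    obtain ⟨hg1, hg2, hg3⟩ := hφ g hg
    have e1 : F (φ g) = EE p q bad κ₁ κ₂ (φ g).1 (φ g).2 := by
      rw [hF]
      simp only
      rw [if_pos hP]
    rw [e1]
    have g1 := EE_ge p q bad κ₁ κ₂ hg2
    rw [← hg1] at g1
    have g2 := pf_ww_ge p q bad g
    have g3 : pf f g ≤ L ^ (13 / 250 : ℝ) := (Finset.mem_filter.1 hg).2.2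
    have g4 : 0 < pf f g := by
      unfold pf
      refine Finset.prod_pos fun l _ => ?_
      have := AA_nonneg p q bad l
      rw [hf]
      simp only
      positivity
    have g5 : L ^ (-(559 / 2500) : ℝ) ≤ (pf f g) ^ (-(43 / 10) : ℝ) := by
      calc L ^ (-(559 / 2500) : ℝ) = (L ^ (13 / 250 : ℝ)) ^ (-(43 / 10) : ℝ) := by
            rw [← Real.rpow_mul hL0.le]
            norm_num
        _ ≤ _ := Real.rpow_le_rpow_of_nonpos g4 g3 (by norm_num)
    calc (1 : ℝ) = L ^ (559 / 2500 : ℝ) * L ^ (-(559 / 2500) : ℝ) := by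
          rw [← Real.rpow_add hL0]
          norm_num
      _ ≤ L ^ (559 / 2500 : ℝ) * EE p q bad κ₁ κ₂ (φ g).1 (φ g).2 := by
          refine mul_le_mul_of_nonneg_left ?_ (by positivity)
          exact g5.trans (g2.trans g1)
  calc (S.card : ℝ) = ∑ _g ∈ S, (1 : ℝ) := by simp
    _ ≤ ∑ g ∈ S, L ^ (559 / 2500 : ℝ) * F (φ g) := Finset.sum_le_sum hweight
    _ = L ^ (559 / 2500 : ℝ) * ∑ x ∈ S.image φ, F x := by
        rw [Finset.sum_image hinj, Finset.mul_sum]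
    _ ≤ L ^ (559 / 2500 : ℝ) * ∑ x ∈ Icc 1 N ×ˢ Icc 1 N, F x := by
        refine mul_le_mul_of_nonneg_left ?_ (by positivity)
        refine Finset.sum_le_sum_of_subset_of_nonneg ?_ fun x _ _ => hF0 x
        intro x hx
        obtain ⟨g, hg, rfl⟩ := Finset.mem_image.1 hx
        have g1 := hbd _ _ (hPP g hg)
        have g2 := hpos _ _ (hPP g hg)
        rw [Finset.mem_product, Finset.mem_Icc, Finset.mem_Icc]
        exact ⟨⟨g2.1, g1.1⟩, ⟨g2.2, g1.2⟩⟩
    _ = L ^ (559 / 2500 : ℝ) * S4 N (fun a₀ a₁ b₀ b₁ =>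
        if PP bad W V (a₀ * a₁) (b₀ * b₁) then XX p q bad κ₁ κ₂ a₀ a₁ b₀ b₁ else 0) := by
        rw [Finset.sum_product]
        have := sum_EE p q bad κ₁ κ₂ N (PP bad W V) hbd
        rw [hF]
        simp only
        rw [this]
        rfl
    _ ≤ L ^ (559 / 2500 : ℝ) * (C * W * L ^ (-(6 / 25) : ℝ)) :=
        mul_le_mul_of_nonneg_left ((le_abs_self _).trans h1) (by positivity)
    _ = C * W * (L ^ (559 / 2500 : ℝ) * L ^ (-(6 / 25) : ℝ)) := by ring
    _ ≤ C * W * L ^ (-(1 / 500) : ℝ) := by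
        refine mul_le_mul_of_nonneg_left ?_ (by positivity)
        rw [← Real.rpow_add hL0]
        exact Real.rpow_le_rpow_of_exponent_le (by linarith) (by norm_num)

open Classical in
/-- **The double oscillation bound.** -/
theorem doS : StDO := by
  intro p q κ₁ hD hκ bad hbad hb
  have hbD : (2 * (p ^ 2 - 4 * q)) ∣ (bad : ℤ) :=
    Dvd.dvd.trans ⟨q * κ₁, by ring⟩ hb
  have hb2 : 2 ∣ bad := by
    have : (2 : ℤ) ∣ (bad : ℤ) := Dvd.dvd.trans ⟨q * (p ^ 2 - 4 * q) * κ₁, by ring⟩ hb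
    exact_mod_cast this
  obtain ⟨CA, hCA, hA⟩ := partA p q κ₁ hκ bad hb2
  obtain ⟨CB, hCB, hB⟩ := partB p q bad hD hbD
  obtain ⟨CC, hCC, hC⟩ := partC p q bad hD hbD
  refine ⟨CA + CB + CC + 2, by positivity, fun κ₂ W hW => ?_⟩
  have hW0 : 0 < W := by linarith
  have hL0 : 0 < Real.log W := Real.log_pos (by linarith)
  have hp : 0 < Real.log W ^ (-(1 / 500) : ℝ) := by positivity
  by_cases hL : 100 ≤ Real.log W
  · have a1 := hA κ₂ W hW0 hL
    have a2 := hB W hW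
    have a3 := hC κ₁ κ₂ W hW0 hL
    set SA := (Icc 1 ⌊W⌋₊).filter (fun g => ∃ r s : ℕ, g = r * s ∧ Cond p q κ₁ κ₂ bad r s ∧
      (s : ℝ) ≤ 2 * Real.exp (Real.log W ^ (1 / 200 : ℝ)) ^ 2) with hSA
    set SB := (Icc 1 ⌊W⌋₊).filter (fun g => Squarefree g ∧
      Real.log W ^ (13 / 250 : ℝ) < pf (fun l => 1 + 1 / 10 * AA p q bad l) g) with hSB
    set SC := (Icc 1 ⌊W⌋₊).filter (fun g => (∃ r s : ℕ, g = r * s ∧ Cond p q κ₁ κ₂ bad r s ∧
        2 * Real.exp (Real.log W ^ (1 / 200 : ℝ)) ^ 2 < (s : ℝ)) ∧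
      pf (fun l => 1 + 1 / 10 * AA p q bad l) g ≤ Real.log W ^ (13 / 250 : ℝ)) with hSC
    have hsub : (Icc 1 ⌊W⌋₊).filter (fun g => ∃ r s : ℕ, g = r * s ∧ Cond p q κ₁ κ₂ bad r s) ⊆
        SA ∪ SB ∪ SC := by
      intro g hg
      obtain ⟨hg1, r, s, hrs, hc⟩ := Finset.mem_filter.1 hg
      rw [Finset.mem_union, Finset.mem_union]
      by_cases h1 : (s : ℝ) ≤ 2 * Real.exp (Real.log W ^ (1 / 200 : ℝ)) ^ 2
      · exact Or.inl (Or.inl (Finset.mem_filter.2 ⟨hg1, r, s, hrs, hc, h1⟩))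
      · by_cases h2 : pf (fun l => 1 + 1 / 10 * AA p q bad l) g ≤ Real.log W ^ (13 / 250 : ℝ)
        · exact Or.inr (Finset.mem_filter.2 ⟨hg1, ⟨r, s, hrs, hc, not_le.1 h1⟩, h2⟩)
        · refine Or.inl (Or.inr (Finset.mem_filter.2 ⟨hg1, ?_, not_le.1 h2⟩))
          rw [hrs]
          exact hc.1
    have hcard : (((Icc 1 ⌊W⌋₊).filter
        (fun g => ∃ r s : ℕ, g = r * s ∧ Cond p q κ₁ κ₂ bad r s)).card : ℝ) ≤
        SA.card + SB.card + SC.card := by
      have g1 := Finset.card_le_card hsub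
      have g2 := Finset.card_union_le (SA ∪ SB) SC
      have g3 := Finset.card_union_le SA SB
      have g4 : ((Icc 1 ⌊W⌋₊).filter
        (fun g => ∃ r s : ℕ, g = r * s ∧ Cond p q κ₁ κ₂ bad r s)).card ≤
        SA.card + SB.card + SC.card := by omega
      exact_mod_cast g4
    refine (le_trans hcard (add_le_add (add_le_add a1 a2) a3)).trans ?_
    have : 0 ≤ 2 * W * Real.log W ^ (-(1 / 500) : ℝ) := by positivity
    calc _ ≤ CA * W * Real.log W ^ (-(1 / 500) : ℝ) + CB * W * Real.log W ^ (-(1 / 500) : ℝ) +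
          CC * W * Real.log W ^ (-(1 / 500) : ℝ) + 2 * W * Real.log W ^ (-(1 / 500) : ℝ) := by
          linarith
      _ = _ := by ring
  · rw [not_le] at hL
    have h1 : (((Icc 1 ⌊W⌋₊).filter
        (fun g => ∃ r s : ℕ, g = r * s ∧ Cond p q κ₁ κ₂ bad r s)).card : ℝ) ≤ W := by
      have g1 := Finset.card_filter_le (Icc 1 ⌊W⌋₊)
        (fun g => ∃ r s : ℕ, g = r * s ∧ Cond p q κ₁ κ₂ bad r s)
      rw [Nat.card_Icc, Nat.add_sub_cancel] at g1
      exact (Nat.cast_le.2 g1).trans (Nat.floor_le hW0.le)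
    have h2 : 1 ≤ 2 * Real.log W ^ (-(1 / 500) : ℝ) := by
      have g1 : Real.log W ^ (1 / 500 : ℝ) ≤ 2 := by
        calc Real.log W ^ (1 / 500 : ℝ) ≤ ((2 : ℝ) ^ (500 : ℝ)) ^ (1 / 500 : ℝ) := by
              refine Real.rpow_le_rpow hL0.le ?_ (by norm_num)
              have : (2 : ℝ) ^ (500 : ℝ) = 2 ^ (500 : ℕ) := by
                rw [← Real.rpow_natCast]
                norm_num
              rw [this]
              refine hL.le.trans ?_
              calc (100 : ℝ) ≤ 2 ^ 7 := by norm_num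
                _ ≤ 2 ^ 500 := pow_le_pow_right₀ (by norm_num) (by norm_num)
          _ = 2 := by
              rw [← Real.rpow_mul (by norm_num)]
              norm_num
      rw [Real.rpow_neg hL0.le]
      have g2 : 0 < Real.log W ^ (1 / 500 : ℝ) := by positivity
      rw [← div_eq_mul_inv, le_div_iff₀ g2]
      linarith
    calc _ ≤ W := h1
      _ ≤ W * (2 * Real.log W ^ (-(1 / 500) : ℝ)) := le_mul_of_one_le_right hW0.le h2
      _ = 2 * W * Real.log W ^ (-(1 / 500) : ℝ) := by ring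
      _ ≤ _ := by
          refine mul_le_mul_of_nonneg_right ?_ hp.le
          refine mul_le_mul_of_nonneg_right ?_ hW0.le
          linarith

end Pool.Agent.J4H17.TW
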